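import Pool.Agent.Lib.MP_5e7226_co.SX.Defs

set_option autoImplicit false

/-! The case `n = 4`: seven vectors, unless the body is a cube (or, dually, an octahedron). -/

namespace Pool.Agent.Lib.MP_5e7226_co.SX.S4

open Finset

/-- Perturbation on a compact set. -/
theorem eps {X : Type*} [TopologicalSpace X] {C : Set X} (hC : IsCompact C) {f g : X → ℝ}
    (hf : Continuous f) (hg : Continuous g) (h0 : ∀ c ∈ C, 0 ≤ f c) (h1 : ∀ c ∈ C, f c = 0 → 0 < g c) :
    ∃ e : ℝ, 0 < e ∧ ∀ c ∈ C, 0 < f c + e * g c := by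
  rcases C.eq_empty_or_nonempty with hE | hE
  · exact ⟨1, one_pos, by simp [hE]⟩
  obtain ⟨c1, hc1, hm1⟩ := hC.exists_isMinOn hE (hf.max hg).continuousOn
  obtain ⟨c2, hc2, hm2⟩ := hC.exists_isMinOn hE hg.continuousOn
  have hμ : 0 < max (f c1) (g c1) := by
    rcases (h0 c1 hc1).eq_or_lt with h | h
    · exact lt_max_of_lt_right (h1 c1 hc1 h.symm)
    · exact lt_max_of_lt_left h
  set μ := max (f c1) (g c1) with hμd
  have hL : 0 < |g c2| + 1 := by positivity
  refine ⟨μ / (|g c2| + 1), div_pos hμ hL, fun c hc => ?_⟩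
  have e0 : 0 < μ / (|g c2| + 1) := div_pos hμ hL
  rcases lt_or_ge 0 (g c) with h | h
  · have := h0 c hc
    positivity
  · have h2 : μ ≤ max (f c) (g c) := hm1 hc
    have h3 : g c2 ≤ g c := hm2 hc
    have h4 : μ ≤ f c := by
      rcases le_max_iff.1 h2 with h5 | h5
      · exact h5
      · linarith
    have h5 : -|g c2| ≤ g c := (neg_abs_le _).trans h3
    have h6 : μ / (|g c2| + 1) * |g c2| < μ := by
      rw [div_mul_eq_mul_div, div_lt_iff₀ hL]
      nlinarith [abs_nonneg (g c2)]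
    have h7 : -(μ / (|g c2| + 1) * |g c2|) ≤ μ / (|g c2| + 1) * g c := by
      nlinarith
    linarith

/-- Four different indices. -/
def Ds (i j k l : Fin 4) : Prop := i ≠ j ∧ i ≠ k ∧ i ≠ l ∧ j ≠ k ∧ j ≠ l ∧ k ≠ l

instance (i j k l : Fin 4) : Decidable (Ds i j k l) := by unfold Ds; infer_instance

theorem Ds.perm (σ : Equiv.Perm (Fin 4)) : Ds (σ 0) (σ 1) (σ 2) (σ 3) := by
  unfold Ds
  refine ⟨?_, ?_, ?_, ?_, ?_, ?_⟩ <;> exact σ.injective.ne (by decide)

theorem Ds.cases {i j k l : Fin 4} (h : Ds i j k l) (a : Fin 4) : a = i ∨ a = j ∨ a = k ∨ a = l := by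
  revert i j k l a
  decide

theorem Ds.univ {i j k l : Fin 4} (h : Ds i j k l) : (univ : Finset (Fin 4)) = {i, j, k, l} := by
  ext a
  simpa using h.cases a

theorem Ds.sum {i j k l : Fin 4} (h : Ds i j k l) (f : Fin 4 → ℝ) : ∑ a, f a = f i + f j + f k + f l := by
  rw [h.univ]
  obtain ⟨h1, h2, h3, h4, h5, h6⟩ := h
  rw [sum_insert (by simp [h1, h2, h3]), sum_insert (by simp [h4, h5]), sum_insert (by simp [h6]), sum_singleton]
  ring

theorem Ds.rot : ∀ {i j k l : Fin 4}, Ds i j k l → Ds i l j k := by decide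

theorem Ds.flip : ∀ {i j k l : Fin 4}, Ds i j k l → Ds k l i j := by decide

theorem Ds.two : ∀ i j : Fin 4, i ≠ j → ∃ k l, Ds i j k l := by decide

theorem Ds.exists_perm {i j k l : Fin 4} (h : Ds i j k l) :
    ∃ σ : Equiv.Perm (Fin 4), σ 0 = i ∧ σ 1 = j ∧ σ 2 = k ∧ σ 3 = l := by
  have hinj : Function.Injective ![i, j, k, l] := by
    obtain ⟨e1, e2, e3, e4, e5, e6⟩ := h
    intro a b hab
    fin_cases a <;> fin_cases b <;> simp_all
  refine ⟨Equiv.ofBijective _ (Finite.injective_iff_bijective.1 hinj), ?_, ?_, ?_, ?_⟩ <;> simp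

/-- Pure of level one. -/
def P1 (x : Fin 4 → ℝ) (i : Fin 4) : Prop := ∀ a b, a ≠ i → b ≠ i → x a = x b ∧ x a ≤ x i

/-- Pure of level three. -/
def P3 (x : Fin 4 → ℝ) (i : Fin 4) : Prop := ∀ a b, a ≠ i → b ≠ i → x a = x b ∧ x i ≤ x a

/-- Two equal entries and two other equal entries. -/
def Q (u : Fin 4 → ℝ) : Prop := ∃ i j k l, Ds i j k l ∧ u i = u j ∧ u k = u l

section basic

variable {G : Set ((Fin 4 → ℝ) × (Fin 4 → ℝ))} (hG : Dual G)
include hG

theorem mono {x u : Fin 4 → ℝ} (h : (x, u) ∈ G) {i j : Fin 4} (hij : x j < x i) : u j ≤ u i := by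
  have h1 : ∑ a, u a * x a = 1 := hG.one _ h
  have h2 : ∑ a, u a * x (Equiv.swap i j a) ≤ 1 := hG.le _ h _ h (Equiv.swap i j)
  have hne : i ≠ j := by rintro rfl; exact lt_irrefl _ hij
  obtain ⟨k, l, hd⟩ := Ds.two i j hne
  rw [hd.sum] at h1 h2
  obtain ⟨e1, e2, e3, e4, e5, e6⟩ := hd
  rw [Equiv.swap_apply_left, Equiv.swap_apply_right, Equiv.swap_apply_of_ne_of_ne e2.symm e4.symm,
    Equiv.swap_apply_of_ne_of_ne e3.symm e5.symm] at h2
  by_contra hc
  push Not at hc
  nlinarith [mul_pos (sub_pos.2 hij) (sub_pos.2 hc)]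

theorem le2 {x u y w : Fin 4 → ℝ} (h : (x, u) ∈ G) (h' : (y, w) ∈ G) (σ τ : Equiv.Perm (Fin 4)) :
    w (τ 0) * x (σ 0) + w (τ 1) * x (σ 1) + w (τ 2) * x (σ 2) + w (τ 3) * x (σ 3) ≤ 1 := by
  have h1 : ∑ a, w a * x ((τ.symm.trans σ) a) ≤ 1 := hG.le _ h' _ h (τ.symm.trans σ)
  have h2 : ∑ a, w (τ a) * x (σ a) = ∑ a, w a * x ((τ.symm.trans σ) a) := by
    rw [← Equiv.sum_comp τ (fun a => w a * x ((τ.symm.trans σ) a))]
    simp
  rw [← h2, Fin.sum_univ_four] at h1
  exact h1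

theorem zero_absurd {x u : Fin 4 → ℝ} (h : (x, u) ∈ G) (h0 : ∀ a, u a = 0) : False := by
  have h1 : ∑ a, u a * x a = 1 := hG.one _ h
  simp [h0] at h1

theorem nonneg_absurd {x u : Fin 4 → ℝ} (h : (x, u) ∈ G) (h0 : ∀ a, 0 ≤ u a) : False := by
  have h1 : ∑ a, u a = 0 := hG.sum2 _ h
  rw [sum_eq_zero_iff_of_nonneg (fun i _ => h0 i)] at h1
  exact zero_absurd hG h (fun a => h1 a (mem_univ a))

theorem nonpos_absurd {x u : Fin 4 → ℝ} (h : (x, u) ∈ G) (h0 : ∀ a, u a ≤ 0) : False := by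
  have h1 : ∑ a, u a = 0 := hG.sum2 _ h
  rw [sum_eq_zero_iff_of_nonpos (fun i _ => h0 i)] at h1
  exact zero_absurd hG h (fun a => h1 a (mem_univ a))

/-- One exceptional coordinate. -/
theorem one_coord {x w : Fin 4 → ℝ} (h : (x, w) ∈ G) {i : Fin 4} {t : ℝ} (hx : ∀ a, a ≠ i → x a = t)
    {y u : Fin 4 → ℝ} (h' : (y, u) ∈ G) (b : Fin 4) :
    (x i - t) * w i = 1 ∧ (x i - t) * u b ≤ 1 := by
  have key : ∀ (v : Fin 4 → ℝ) (b : Fin 4), ∑ a, v a = 0 →
      ∑ a, v a * x (Equiv.swap b i a) = (x i - t) * v b := by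
    intro v b hv
    have h1 : ∀ a, v a * x (Equiv.swap b i a) = t * v a + (if a = b then (x i - t) * v b else 0) := by
      intro a
      by_cases hab : a = b
      · subst hab
        rw [Equiv.swap_apply_left, if_pos rfl]
        ring
      · rw [if_neg hab, hx _ (fun hc => hab ?_)]
        · ring
        · rw [Equiv.swap_apply_eq_iff, Equiv.swap_apply_right] at hc
          exact hc
    rw [sum_congr rfl (fun a _ => h1 a), sum_add_distrib, ← mul_sum, hv, sum_ite_eq' univ b]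
    simp
  constructor
  · have h1 := key w i (hG.sum2 _ h)
    have h2 : ∑ a, w a * x a = 1 := hG.one _ h
    simp only [Equiv.swap_self, Equiv.refl_apply] at h1
    linarith
  · have h1 := key u b (hG.sum2 _ h')
    have h2 : ∑ a, u a * x (Equiv.swap b i a) ≤ 1 := hG.le _ h' _ h (Equiv.swap b i)
    linarith

theorem P1_spec {x w : Fin 4 → ℝ} (h : (x, w) ∈ G) {i : Fin 4} (hx : P1 x i)
    {y u : Fin 4 → ℝ} (h' : (y, u) ∈ G) (b : Fin 4) : 0 < w i ∧ u b ≤ w i := by
  obtain ⟨j, hj⟩ : ∃ j : Fin 4, j ≠ i := exists_ne i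
  obtain ⟨h1, h2⟩ := one_coord hG h (i := i) (t := x j) (fun a ha => (hx a j ha hj).1) h' b
  have h3 := (hx j j hj hj).2
  have h4 : 0 < x i - x j := by
    rcases (sub_nonneg.2 h3).eq_or_lt with h5 | h5
    · rw [← h5] at h1; simp at h1
    · exact h5
  constructor
  · by_contra hc
    push Not at hc
    nlinarith
  · by_contra hc
    push Not at hc
    nlinarith

theorem P3_spec {x w : Fin 4 → ℝ} (h : (x, w) ∈ G) {i : Fin 4} (hx : P3 x i)
    {y u : Fin 4 → ℝ} (h' : (y, u) ∈ G) (b : Fin 4) : w i < 0 ∧ w i ≤ u b := by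
  obtain ⟨j, hj⟩ : ∃ j : Fin 4, j ≠ i := exists_ne i
  obtain ⟨h1, h2⟩ := one_coord hG h (i := i) (t := x j) (fun a ha => (hx a j ha hj).1) h' b
  have h3 := (hx j j hj hj).2
  have h4 : x i - x j < 0 := by
    rcases (sub_nonpos.2 h3).eq_or_lt with h5 | h5
    · rw [h5] at h1; simp at h1
    · exact h5
  constructor
  · by_contra hc
    push Not at hc
    nlinarith
  · by_contra hc
    push Not at hc
    nlinarith

end basic

theorem isClosed_P1 (i : Fin 4) : IsClosed {q : (Fin 4 → ℝ) × (Fin 4 → ℝ) | P1 q.1 i} := by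
  simp only [P1, Set.ofPred_forall, Set.ofPred_and]
  refine isClosed_iInter fun a => isClosed_iInter fun b => isClosed_iInter fun _ => isClosed_iInter fun _ => ?_
  exact (isClosed_eq (by fun_prop) (by fun_prop)).inter (isClosed_le (by fun_prop) (by fun_prop))

theorem isClosed_P3 (i : Fin 4) : IsClosed {q : (Fin 4 → ℝ) × (Fin 4 → ℝ) | P3 q.1 i} := by
  simp only [P3, Set.ofPred_forall, Set.ofPred_and]
  refine isClosed_iInter fun a => isClosed_iInter fun b => isClosed_iInter fun _ => isClosed_iInter fun _ => ?_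
  exact (isClosed_eq (by fun_prop) (by fun_prop)).inter (isClosed_le (by fun_prop) (by fun_prop))

theorem isClosed_top (S : Finset (Fin 4)) : IsClosed {q : (Fin 4 → ℝ) × (Fin 4 → ℝ) | Top q.2 S} := by
  simp only [Top, Set.ofPred_forall]
  refine isClosed_iInter fun a => isClosed_iInter fun _ => isClosed_iInter fun b => isClosed_iInter fun _ => ?_
  exact isClosed_le (by fun_prop) (by fun_prop)

/-- `i` is a largest entry. -/
def Mx (u : Fin 4 → ℝ) (i : Fin 4) : Prop := ∀ a, u a ≤ u i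

/-- `i` is a smallest entry. -/
def Mn (u : Fin 4 → ℝ) (i : Fin 4) : Prop := ∀ a, u i ≤ u a

theorem isClosed_Mx (i : Fin 4) : IsClosed {q : (Fin 4 → ℝ) × (Fin 4 → ℝ) | Mx q.2 i} := by
  simp only [Mx, Set.ofPred_forall]
  exact isClosed_iInter fun a => isClosed_le (by fun_prop) (by fun_prop)

theorem isClosed_Mn (i : Fin 4) : IsClosed {q : (Fin 4 → ℝ) × (Fin 4 → ℝ) | Mn q.2 i} := by
  simp only [Mn, Set.ofPred_forall]
  exact isClosed_iInter fun a => isClosed_le (by fun_prop) (by fun_prop)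

/-- The pairs served by a vector of the first kind. -/
def CA (i j k l : Fin 4) (q : (Fin 4 → ℝ) × (Fin 4 → ℝ)) : Prop :=
  Top q.2 {i, j} ∨ P1 q.1 i ∨ P3 q.1 l ∨ (Mx q.2 i ∧ (Mn q.2 l ∨ Mn q.2 k))

/-- The pairs served by a vector of the second kind. -/
def CB (i j l : Fin 4) (q : (Fin 4 → ℝ) × (Fin 4 → ℝ)) : Prop :=
  Top q.2 {i, j} ∨ P3 q.1 l ∨ (Mn q.2 l ∧ (Mx q.2 i ∨ Mx q.2 j))

theorem isClosed_CA (i j k l : Fin 4) : IsClosed {q : (Fin 4 → ℝ) × (Fin 4 → ℝ) | CA i j k l q} := by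
  simp only [CA, Set.ofPred_or, Set.ofPred_and]
  exact (isClosed_top _).union ((isClosed_P1 _).union ((isClosed_P3 _).union
    ((isClosed_Mx _).inter ((isClosed_Mn _).union (isClosed_Mn _)))))

theorem isClosed_CB (i j l : Fin 4) : IsClosed {q : (Fin 4 → ℝ) × (Fin 4 → ℝ) | CB i j l q} := by
  simp only [CB, Set.ofPred_or, Set.ofPred_and]
  exact (isClosed_top _).union ((isClosed_P3 _).union
    ((isClosed_Mn _).inter ((isClosed_Mx _).union (isClosed_Mx _))))

/-- A sorted enumeration. -/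
theorem sorted (x : Fin 4 → ℝ) : ∃ i j k l, Ds i j k l ∧ x j ≤ x i ∧ x k ≤ x j ∧ x l ≤ x k := by
  have h := Tuple.monotone_sort (fun i => -x i)
  set σ := Tuple.sort (fun i => -x i)
  refine ⟨σ 0, σ 1, σ 2, σ 3, Ds.perm σ, ?_, ?_, ?_⟩
  · have := h (show (0 : Fin 4) ≤ 1 by decide); simpa using this
  · have := h (show (1 : Fin 4) ≤ 2 by decide); simpa using this
  · have := h (show (2 : Fin 4) ≤ 3 by decide); simpa using this

section families

variable {G : Set ((Fin 4 → ℝ) × (Fin 4 → ℝ))} (hG : Dual G)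
include hG

/-- A top set of two elements has positive sum. -/
theorem top_pos {x u : Fin 4 → ℝ} (h : (x, u) ∈ G) {i j k l : Fin 4} (hd : Ds i j k l) (ht : Top u {i, j}) :
    0 < u i + u j := by
  have hs : ∑ a, u a = 0 := hG.sum2 _ h
  rw [hd.sum] at hs
  have hd' := hd
  obtain ⟨e1, e2, e3, e4, e5, e6⟩ := hd
  have h1 := ht i (by simp) k (by simp [e2.symm, e4.symm])
  have h2 := ht i (by simp) l (by simp [e3.symm, e5.symm])
  have h3 := ht j (by simp) k (by simp [e2.symm, e4.symm])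
  have h4 := ht j (by simp) l (by simp [e3.symm, e5.symm])
  by_contra hc
  push Not at hc
  refine zero_absurd hG h (fun a => ?_)
  rcases hd'.cases a with rfl | rfl | rfl | rfl <;> linarith

theorem famA {i j k l : Fin 4} (hd : Ds i j k l)
    (hA1 : ∀ x u, (x, u) ∈ G → ∀ i, P1 x i → ∀ a, -u a ≤ u i)
    (hA3 : ∀ x u, (x, u) ∈ G → ∀ i, P3 x i → ∀ a, u a ≤ -u i)
    (hQ : ∀ x u, (x, u) ∈ G → ∀ i, P3 x i → ¬ Q u) :
    ∃ z : Fin 4 → ℝ, ∀ q ∈ G, CA i j k l q → 0 < ∑ a, q.2 a * z a := by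
  -- the choice of `η`
  have hc3 : IsCompact (G ∩ ({q | P3 q.1 l} ∩ {q : (Fin 4 → ℝ) × (Fin 4 → ℝ) | q.2 i + q.2 j = 0})) :=
    hG.compact.inter_right ((isClosed_P3 l).inter (isClosed_eq (by fun_prop) (by fun_prop)))
  obtain ⟨η, hη, hη'⟩ := eps hc3 (f := fun q => q.2 i + q.2 k) (g := fun q => q.2 i) (by fun_prop) (by fun_prop)
    (by
      rintro ⟨x, u⟩ ⟨h, h3, hf⟩
      simp only [Set.mem_ofPred_eq] at h3 hf ⊢
      have hs : ∑ a, u a = 0 := hG.sum2 _ h
      rw [hd.sum] at hs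
      have h5 := (P3_spec hG h h3 h i).2
      have h6 := hA3 x u h l h3 k
      linarith)
    (by
      rintro ⟨x, u⟩ ⟨h, h3, hf⟩ h0
      simp only [Set.mem_ofPred_eq] at h3 hf h0 ⊢
      exfalso
      have hs : ∑ a, u a = 0 := hG.sum2 _ h
      rw [hd.sum] at hs
      refine hQ x u h l h3 ⟨i, l, j, k, hd.rot, ?_, ?_⟩
      · have h5 := (P3_spec hG h h3 h i).2
        have h6 := hA3 x u h l h3 k
        linarith
      · linarith)
  have hc : IsCompact (G ∩ {q | CA i j k l q}) := hG.compact.inter_right (isClosed_CA i j k l)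
  obtain ⟨e, he, he'⟩ := eps hc (f := fun q => q.2 i + q.2 j) (g := fun q => (1 + η) * q.2 i + q.2 k)
    (by fun_prop) (by fun_prop)
    (by
      rintro ⟨x, u⟩ ⟨h, hq⟩
      simp only [Set.mem_ofPred_eq] at hq ⊢
      have hs : ∑ a, u a = 0 := hG.sum2 _ h
      rw [hd.sum] at hs
      rcases hq with hq | hq | hq | ⟨hm, hq | hq⟩
      · exact (top_pos hG h hd hq).le
      · have := hA1 x u h i hq j; linarith
      · have := hA3 x u h l hq k; linarith
      · have h1 := hm k; have h2 := hq j; simp only at h1 h2; linarith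
      · have h1 := hm l; have h2 := hq j; simp only at h1 h2; linarith)
    (by
      rintro ⟨x, u⟩ ⟨h, hq⟩ h0
      simp only [Set.mem_ofPred_eq] at hq h0 ⊢
      have hs : ∑ a, u a = 0 := hG.sum2 _ h
      rw [hd.sum] at hs
      have hmx : Mx u i → 0 < u i := fun hm => by
        by_contra hc
        push Not at hc
        exact nonpos_absurd hG h (fun a => (hm a).trans hc)
      rcases hq with hq | hq | hq | ⟨hm, hq | hq⟩
      · exact absurd h0 (top_pos hG h hd hq).ne'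
      · have h1 := hA1 x u h i hq k
        have h2 := (P1_spec hG h hq h k).1
        have h3 := mul_pos hη h2
        nlinarith
      · have h1 := hη' (x, u) ⟨h, hq, h0⟩
        simp only at h1
        linarith
      · have h1 := hm k; have h2 := hq j; simp only at h1 h2
        have h3 := hmx hm
        have h4 := mul_pos hη h3
        nlinarith
      · have h1 := hm l; have h2 := hq j; simp only at h1 h2
        have h3 := hmx hm
        have h4 := mul_pos hη h3
        nlinarith)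
  refine ⟨fun a => (if a = i then 1 else 0) + (if a = j then 1 else 0) +
    e * ((1 + η) * (if a = i then 1 else 0) + (if a = k then 1 else 0)), fun q hq hq' => ?_⟩
  have h1 := he' q ⟨hq, hq'⟩
  have h2 : ∀ c : Fin 4, ∑ a, q.2 a * (if a = c then (1 : ℝ) else 0) = q.2 c := fun c => by simp
  have h3 : ∑ a, q.2 a * ((if a = i then (1 : ℝ) else 0) + (if a = j then 1 else 0) +
      e * ((1 + η) * (if a = i then 1 else 0) + (if a = k then 1 else 0))) =
      q.2 i + q.2 j + e * ((1 + η) * q.2 i + q.2 k) := by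
    rw [← h2 i, ← h2 j, ← h2 k, mul_add e, ← mul_assoc e, mul_sum, mul_sum, ← sum_add_distrib,
      ← sum_add_distrib, ← sum_add_distrib]
    refine sum_congr rfl fun a _ => ?_
    ring
  rw [h3]
  exact h1

theorem famB {i j k l : Fin 4} (hd : Ds i j k l)
    (hA3 : ∀ x u, (x, u) ∈ G → ∀ i, P3 x i → ∀ a, u a ≤ -u i) :
    ∃ z : Fin 4 → ℝ, ∀ q ∈ G, CB i j l q → 0 < ∑ a, q.2 a * z a := by
  have hc : IsCompact (G ∩ {q | CB i j l q}) := hG.compact.inter_right (isClosed_CB i j l)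
  obtain ⟨e, he, he'⟩ := eps hc (f := fun q => q.2 i + q.2 j) (g := fun q => -q.2 l)
    (by fun_prop) (by fun_prop)
    (by
      rintro ⟨x, u⟩ ⟨h, hq⟩
      simp only [Set.mem_ofPred_eq] at hq ⊢
      have hs : ∑ a, u a = 0 := hG.sum2 _ h
      rw [hd.sum] at hs
      rcases hq with hq | hq | ⟨hm, hq | hq⟩
      · exact (top_pos hG h hd hq).le
      · have := hA3 x u h l hq k; linarith
      · have h1 := hm j; have h2 := hq k; simp only at h1 h2; linarith
      · have h1 := hm i; have h2 := hq k; simp only at h1 h2; linarith)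
    (by
      rintro ⟨x, u⟩ ⟨h, hq⟩ h0
      simp only [Set.mem_ofPred_eq] at hq h0 ⊢
      have hmn : Mn u l → 0 < -u l := fun hm => by
        by_contra hc
        push Not at hc
        exact nonneg_absurd hG h (fun a => le_trans (by linarith) (hm a))
      rcases hq with hq | hq | ⟨hm, hq | hq⟩
      · exact absurd h0 (top_pos hG h hd hq).ne'
      · have h1 := (P3_spec hG h hq h l).1
        linarith
      · exact hmn hm
      · exact hmn hm)
  refine ⟨fun a => (if a = i then 1 else 0) + (if a = j then 1 else 0) - e * (if a = l then 1 else 0),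
    fun q hq hq' => ?_⟩
  have h1 := he' q ⟨hq, hq'⟩
  have h2 : ∀ c : Fin 4, ∑ a, q.2 a * (if a = c then (1 : ℝ) else 0) = q.2 c := fun c => by simp
  have h3 : ∑ a, q.2 a * ((if a = i then (1 : ℝ) else 0) + (if a = j then 1 else 0) -
      e * (if a = l then 1 else 0)) = q.2 i + q.2 j + e * (-q.2 l) := by
    rw [← h2 i, ← h2 j, ← h2 l, ← sum_neg_distrib, mul_sum, ← sum_add_distrib, ← sum_add_distrib]
    refine sum_congr rfl fun a _ => ?_
    ring
  rw [h3]
  exact h1

theorem core_fam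
    (hA1 : ∀ x u, (x, u) ∈ G → ∀ i, P1 x i → ∀ a, -u a ≤ u i)
    (hA3 : ∀ x u, (x, u) ∈ G → ∀ i, P3 x i → ∀ a, u a ≤ -u i)
    (hQ : ∀ x u, (x, u) ∈ G → ∀ i, P3 x i → ¬ Q u) :
    ∃ z : Fin 7 → Fin 4 → ℝ, ∀ q ∈ G, ∃ i, Works G q.1 (z i) := by
  obtain ⟨z0, h0⟩ := famA hG (i := 0) (j := 2) (k := 3) (l := 1) (by decide) hA1 hA3 hQ
  obtain ⟨z1, h1⟩ := famA hG (i := 1) (j := 3) (k := 0) (l := 2) (by decide) hA1 hA3 hQ
  obtain ⟨z2, h2⟩ := famA hG (i := 2) (j := 3) (k := 0) (l := 1) (by decide) hA1 hA3 hQ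
  obtain ⟨z3, h3⟩ := famA hG (i := 3) (j := 2) (k := 1) (l := 0) (by decide) hA1 hA3 hQ
  obtain ⟨z4, h4⟩ := famB hG (i := 1) (j := 2) (k := 0) (l := 3) (by decide) hA3
  obtain ⟨z5, h5⟩ := famB hG (i := 0) (j := 3) (k := 1) (l := 2) (by decide) hA3
  obtain ⟨z6, h6⟩ := famB hG (i := 0) (j := 1) (k := 2) (l := 3) (by decide) hA3
  refine ⟨![z0, z1, z2, z3, z4, z5, z6], ?_⟩
  -- the table
  have hT : ∀ x, (∃ a b, a ≠ b ∧ ∀ u, (x, u) ∈ G → Top u {a, b}) →
      ∃ m, Works G x (![z0, z1, z2, z3, z4, z5, z6] m) := by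
    rintro x ⟨a, b, hab, hu⟩
    have key : ({a, b} : Finset (Fin 4)) = {0, 2} ∨ ({a, b} : Finset (Fin 4)) = {1, 3} ∨
        ({a, b} : Finset (Fin 4)) = {2, 3} ∨ ({a, b} : Finset (Fin 4)) = {1, 2} ∨
        ({a, b} : Finset (Fin 4)) = {0, 3} ∨ ({a, b} : Finset (Fin 4)) = {0, 1} := by
      revert hab
      clear hu
      revert a b
      decide
    rcases key with h | h | h | h | h | h <;> rw [h] at hu
    · exact ⟨0, fun u hu' => h0 _ hu' (Or.inl (hu u hu'))⟩
    · exact ⟨1, fun u hu' => h1 _ hu' (Or.inl (hu u hu'))⟩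
    · exact ⟨2, fun u hu' => h2 _ hu' (Or.inl (hu u hu'))⟩
    · exact ⟨4, fun u hu' => h4 _ hu' (Or.inl (hu u hu'))⟩
    · exact ⟨5, fun u hu' => h5 _ hu' (Or.inl (hu u hu'))⟩
    · exact ⟨6, fun u hu' => h6 _ hu' (Or.inl (hu u hu'))⟩
  have hP1 : ∀ x i, P1 x i → ∃ m, Works G x (![z0, z1, z2, z3, z4, z5, z6] m) := by
    intro x i hx
    fin_cases i
    · exact ⟨0, fun u hu' => h0 _ hu' (Or.inr (Or.inl hx))⟩
    · exact ⟨1, fun u hu' => h1 _ hu' (Or.inr (Or.inl hx))⟩
    · exact ⟨2, fun u hu' => h2 _ hu' (Or.inr (Or.inl hx))⟩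
    · exact ⟨3, fun u hu' => h3 _ hu' (Or.inr (Or.inl hx))⟩
  have hP3 : ∀ x i, P3 x i → ∃ m, Works G x (![z0, z1, z2, z3, z4, z5, z6] m) := by
    intro x i hx
    fin_cases i
    · exact ⟨3, fun u hu' => h3 _ hu' (Or.inr (Or.inr (Or.inl hx)))⟩
    · exact ⟨0, fun u hu' => h0 _ hu' (Or.inr (Or.inr (Or.inl hx)))⟩
    · exact ⟨5, fun u hu' => h5 _ hu' (Or.inr (Or.inl hx))⟩
    · exact ⟨4, fun u hu' => h4 _ hu' (Or.inr (Or.inl hx))⟩
  have hE : ∀ x i l, i ≠ l → (∀ u, (x, u) ∈ G → Mx u i ∧ Mn u l) →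
      ∃ m, Works G x (![z0, z1, z2, z3, z4, z5, z6] m) := by
    intro x i l hil hu
    have a1 : ∀ u, (x, u) ∈ G → Mx u i := fun u h => (hu u h).1
    have a2 : ∀ u, (x, u) ∈ G → Mn u l := fun u h => (hu u h).2
    fin_cases i <;> fin_cases l <;> first | exact absurd rfl hil | skip
    · exact ⟨0, fun u h => h0 _ h (Or.inr (Or.inr (Or.inr ⟨a1 u h, Or.inl (a2 u h)⟩)))⟩
    · exact ⟨5, fun u h => h5 _ h (Or.inr (Or.inr ⟨a2 u h, Or.inl (a1 u h)⟩))⟩
    · exact ⟨0, fun u h => h0 _ h (Or.inr (Or.inr (Or.inr ⟨a1 u h, Or.inr (a2 u h)⟩)))⟩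
    · exact ⟨1, fun u h => h1 _ h (Or.inr (Or.inr (Or.inr ⟨a1 u h, Or.inr (a2 u h)⟩)))⟩
    · exact ⟨1, fun u h => h1 _ h (Or.inr (Or.inr (Or.inr ⟨a1 u h, Or.inl (a2 u h)⟩)))⟩
    · exact ⟨4, fun u h => h4 _ h (Or.inr (Or.inr ⟨a2 u h, Or.inl (a1 u h)⟩))⟩
    · exact ⟨2, fun u h => h2 _ h (Or.inr (Or.inr (Or.inr ⟨a1 u h, Or.inr (a2 u h)⟩)))⟩
    · exact ⟨2, fun u h => h2 _ h (Or.inr (Or.inr (Or.inr ⟨a1 u h, Or.inl (a2 u h)⟩)))⟩
    · exact ⟨4, fun u h => h4 _ h (Or.inr (Or.inr ⟨a2 u h, Or.inr (a1 u h)⟩))⟩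
    · exact ⟨3, fun u h => h3 _ h (Or.inr (Or.inr (Or.inr ⟨a1 u h, Or.inl (a2 u h)⟩)))⟩
    · exact ⟨3, fun u h => h3 _ h (Or.inr (Or.inr (Or.inr ⟨a1 u h, Or.inr (a2 u h)⟩)))⟩
    · exact ⟨5, fun u h => h5 _ h (Or.inr (Or.inr ⟨a2 u h, Or.inr (a1 u h)⟩))⟩
  rintro ⟨x, u0⟩ hxu
  obtain ⟨i, j, k, l, hd, hij, hjk, hkl⟩ := sorted x
  show ∃ m, Works G x (![z0, z1, z2, z3, z4, z5, z6] m)
  have hd' := hd
  obtain ⟨e1, e2, e3, e4, e5, e6⟩ := hd'
  rcases hjk.eq_or_lt with hjk' | hjk'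
  swap
  · -- a strict top set of two elements
    refine hT x ⟨i, j, e1, fun u hu => ?_⟩
    intro a ha b hb
    refine mono hG hu ?_
    have ha' : a = i ∨ a = j := by simpa using ha
    have hb' : b ≠ i ∧ b ≠ j := by simpa [not_or] using hb
    have hb'' : b = k ∨ b = l := by
      rcases hd.cases b with h | h | h | h
      · exact absurd h hb'.1
      · exact absurd h hb'.2
      · exact Or.inl h
      · exact Or.inr h
    rcases ha' with rfl | rfl <;> rcases hb'' with rfl | rfl <;> linarith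
  rcases hij.eq_or_lt with hij' | hij'
  · rcases hkl.eq_or_lt with hkl' | hkl'
    · exfalso
      have h1 : ∑ a, u0 a * x a = 1 := hG.one _ hxu
      have h2 : ∑ a, x a = 0 := hG.sum1 _ hxu
      rw [hd.sum] at h1 h2
      have h3 : x l = 0 := by linarith
      have h4 : x i = 0 := by linarith
      have h5 : x j = 0 := by linarith
      have h6 : x k = 0 := by linarith
      rw [h3, h4, h5, h6] at h1
      linarith
    · refine hP3 x l (fun a b ha hb => ?_)
      have h1 : ∀ c, c ≠ l → x c = x i := by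
        intro c hc
        rcases hd.cases c with rfl | rfl | rfl | rfl
        · rfl
        · linarith
        · linarith
        · exact absurd rfl hc
      rw [h1 a ha, h1 b hb]
      exact ⟨rfl, by linarith⟩
  · rcases hkl.eq_or_lt with hkl' | hkl'
    · refine hP1 x i (fun a b ha hb => ?_)
      have h1 : ∀ c, c ≠ i → x c = x l := by
        intro c hc
        rcases hd.cases c with rfl | rfl | rfl | rfl
        · exact absurd rfl hc
        · linarith
        · linarith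
        · rfl
      rw [h1 a ha, h1 b hb]
      exact ⟨rfl, by linarith⟩
    · refine hE x i l e3 (fun u hu => ⟨fun a => ?_, fun a => ?_⟩)
      · rcases hd.cases a with rfl | rfl | rfl | rfl
        · exact le_rfl
        · exact mono hG hu (by linarith)
        · exact mono hG hu (by linarith)
        · exact mono hG hu (by linarith)
      · rcases hd.cases a with rfl | rfl | rfl | rfl
        · exact mono hG hu (by linarith)
        · exact mono hG hu (by linarith)
        · exact mono hG hu (by linarith)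
        · exact le_rfl

/-- The bad case. -/
theorem core_bad {x3 w : Fin 4 → ℝ} (h3 : (x3, w) ∈ G) {l0 : Fin 4} (hx3 : P3 x3 l0) {m : Fin 4}
    (hm : -w l0 < w m) : ∃ z : Fin 7 → Fin 4 → ℝ, ∀ q ∈ G, ∃ i, Works G q.1 (z i) := by
  have hb : ∀ y u, (y, u) ∈ G → ∀ b, -u b ≤ -w l0 := fun y u hu b => by
    have := (P3_spec hG h3 hx3 hu b).2; linarith
  have hw0 := (P3_spec hG h3 hx3 h3 l0).1
  have hws : ∑ a, w a = 0 := hG.sum2 _ h3
  refine ⟨![fun a => -(if a = 0 then 1 else 0), fun a => -(if a = 1 then 1 else 0), fun a => -(if a = 2 then 1 else 0),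
    fun a => -(if a = 3 then 1 else 0), fun a => (if a = 0 then 1 else 0) + (if a = 1 then 1 else 0),
    fun a => (if a = 2 then 1 else 0) + (if a = 3 then 1 else 0), 0], ?_⟩
  have hlow : ∀ x l, (∀ u, (x, u) ∈ G → u l < 0) → ∃ i, Works G x ((![fun a => -(if a = 0 then 1 else 0),
      fun a => -(if a = 1 then 1 else 0), fun a => -(if a = 2 then 1 else 0),
      fun a => -(if a = 3 then 1 else 0), fun a => (if a = 0 then 1 else 0) + (if a = 1 then 1 else 0),
      fun a => (if a = 2 then 1 else 0) + (if a = 3 then 1 else 0), 0] : Fin 7 → Fin 4 → ℝ) i) := by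
    intro x l hl
    fin_cases l
    · refine ⟨0, fun u hu => ?_⟩
      have := hl u hu
      simp at this ⊢
      linarith
    · refine ⟨1, fun u hu => ?_⟩
      have := hl u hu
      simp at this ⊢
      linarith
    · refine ⟨2, fun u hu => ?_⟩
      have := hl u hu
      simp at this ⊢
      linarith
    · refine ⟨3, fun u hu => ?_⟩
      have := hl u hu
      simp at this ⊢
      linarith
  rintro ⟨x, u0⟩ hxu
  obtain ⟨i, j, k, l, hd, hij, hjk, hkl⟩ := sorted x
  have hd' := hd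
  obtain ⟨e1, e2, e3, e4, e5, e6⟩ := hd'
  rcases hkl.eq_or_lt with hkl' | hkl'
  swap
  · refine hlow x l (fun u hu => ?_)
    by_contra hc
    push Not at hc
    refine nonneg_absurd hG hu (fun a => ?_)
    rcases hd.cases a with rfl | rfl | rfl | rfl
    · exact hc.trans (mono hG hu (by linarith))
    · exact hc.trans (mono hG hu (by linarith))
    · exact hc.trans (mono hG hu (by linarith))
    · exact hc
  rcases hjk.eq_or_lt with hjk' | hjk'
  swap
  · refine hlow x l (fun u hu => ?_)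
    by_contra hc
    push Not at hc
    -- the two other entries of `w`
    obtain ⟨m2, m3, hdm, hmm⟩ : ∃ m2 m3, Ds m m2 m3 l0 ∧ w m3 ≤ w m2 := by
      have hne : m ≠ l0 := by rintro rfl; linarith
      obtain ⟨p, q, hpq⟩ := Ds.two m l0 hne
      rcases le_total (w q) (w p) with h | h
      · refine ⟨p, q, ?_, h⟩
        clear hm h
        revert hpq; clear hne hws hw0 hb hx3; revert m l0 p q; decide
      · refine ⟨q, p, ?_, h⟩
        clear hm h
        revert hpq; clear hne hws hw0 hb hx3; revert m l0 p q; decide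
    rw [hdm.sum] at hws
    have hm3 : w m3 < 0 := by linarith
    have hus : ∑ a, u a = 0 := hG.sum2 _ hu
    have hxs : ∑ a, x a = 0 := hG.sum1 _ hu
    have hux : ∑ a, u a * x a = 1 := hG.one _ hu
    rw [hd.sum] at hus hxs hux
    have hj : u l ≤ u j := mono hG hu (by linarith)
    have hk := hb x u hu k
    obtain ⟨σ, hσ⟩ : ∃ σ : Equiv.Perm (Fin 4), σ 0 = i ∧ σ 1 = j ∧ σ 2 = k ∧ σ 3 = l := hd.exists_perm
    obtain ⟨τ, hτ⟩ : ∃ τ : Equiv.Perm (Fin 4), τ 0 = m ∧ τ 1 = m2 ∧ τ 2 = m3 ∧ τ 3 = l0 := hdm.exists_perm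
    have hle := le2 hG hu h3 σ τ
    rw [hσ.1, hσ.2.1, hσ.2.2.1, hσ.2.2.2, hτ.1, hτ.2.1, hτ.2.2.1, hτ.2.2.2] at hle
    -- `a = -w l0`
    have c1 : 1 ≤ (x i - x k) * (-w l0) := by
      have t1 : (x i - x j) * u i ≤ (x i - x j) * (-w l0) :=
        mul_le_mul_of_nonneg_left (by linarith) (by linarith)
      have t2 : (x j - x k) * (u i + u j) ≤ (x j - x k) * (-w l0) :=
        mul_le_mul_of_nonneg_left (by linarith) (by linarith)
      have t3 : u i * x i + u j * x j + u k * x k + u l * x l =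
          (x i - x j) * u i + (x j - x k) * (u i + u j) + x k * (u i + u j + u k + u l) := by
        rw [hkl']; ring
      rw [t3, hus] at hux
      linarith
    have c2 : (x i - x k) * (-w l0) < 1 := by
      have t1 : (x i - x j) * (-w l0) ≤ (x i - x j) * w m :=
        mul_le_mul_of_nonneg_left (by linarith) (by linarith)
      have t2 : (x j - x k) * (-w l0) < (x j - x k) * (w m + w m2) :=
        mul_lt_mul_of_pos_left (by linarith) (by linarith)
      have t3 : w m * x i + w m2 * x j + w m3 * x k + w l0 * x l =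
          (x i - x j) * w m + (x j - x k) * (w m + w m2) + x k * (w m + w m2 + w m3 + w l0) := by
        rw [hkl']; ring
      rw [t3, hws] at hle
      linarith
    linarith
  -- pure of level one
  have hij' : x j < x i := by
    rcases hij.eq_or_lt with h | h
    · exfalso
      have h1 : ∑ a, u0 a * x a = 1 := hG.one _ hxu
      have h2 : ∑ a, x a = 0 := hG.sum1 _ hxu
      rw [hd.sum] at h1 h2
      have h3 : x l = 0 := by linarith
      have h4 : x i = 0 := by linarith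
      have h5 : x j = 0 := by linarith
      have h6 : x k = 0 := by linarith
      rw [h3, h4, h5, h6] at h1
      linarith
    · exact h
  have hP : P1 x i := by
    intro a b ha hb
    have h1 : ∀ c, c ≠ i → x c = x l := by
      intro c hc
      rcases hd.cases c with rfl | rfl | rfl | rfl
      · exact absurd rfl hc
      · linarith
      · linarith
      · rfl
    rw [h1 a ha, h1 b hb]
    exact ⟨rfl, by linarith⟩
  have hpos : ∀ u, (x, u) ∈ G → ∀ a, 0 < u i + u a := by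
    intro u hu a
    have h1 := (P1_spec hG hu hP h3 m).2
    have h2 := hb x u hu a
    linarith
  show ∃ m, Works G x _
  fin_cases i
  · refine ⟨4, fun u hu => ?_⟩
    have := hpos u hu 1
    simp [Fin.sum_univ_four] at this ⊢
    linarith
  · refine ⟨4, fun u hu => ?_⟩
    have := hpos u hu 0
    simp [Fin.sum_univ_four] at this ⊢
    linarith
  · refine ⟨5, fun u hu => ?_⟩
    have := hpos u hu 3
    simp [Fin.sum_univ_four] at this ⊢
    linarith
  · refine ⟨5, fun u hu => ?_⟩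
    have := hpos u hu 2
    simp [Fin.sum_univ_four] at this ⊢
    linarith

/-- Eight vectors in the exceptional case. -/
theorem core_exc {x1 w : Fin 4 → ℝ} (h1 : (x1, w) ∈ G) {i0 : Fin 4} (hx1 : P1 x1 i0) (hQ : Q w) :
    ∃ z : Fin 8 → Fin 4 → ℝ, ∀ q ∈ G, ∃ i, Works G q.1 (z i) := by
  have hb : ∀ y u, (y, u) ∈ G → ∀ b, u b ≤ w i0 := fun y u hu b => (P1_spec hG h1 hx1 hu b).2
  have hw0 : 0 < w i0 := (P1_spec hG h1 hx1 h1 i0).1
  have hws : ∑ a, w a = 0 := hG.sum2 _ h1
  obtain ⟨p, q, r, s, hdw, hpq, hrs⟩ := hQ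
  rw [hdw.sum] at hws
  -- order the two values
  obtain ⟨p, q, r, s, hdw, hp, hq, hr, hs⟩ : ∃ p q r s, Ds p q r s ∧ w p = w i0 ∧ w q = w i0 ∧
      w r = -w i0 ∧ w s = -w i0 := by
    rcases hdw.cases i0 with h | h | h | h
    · refine ⟨p, q, r, s, hdw, ?_, ?_, ?_, ?_⟩ <;> rw [h] <;> linarith
    · refine ⟨p, q, r, s, hdw, ?_, ?_, ?_, ?_⟩ <;> rw [h] <;> linarith
    · refine ⟨r, s, p, q, hdw.flip, ?_, ?_, ?_, ?_⟩ <;> rw [h] <;> linarith
    · refine ⟨r, s, p, q, hdw.flip, ?_, ?_, ?_, ?_⟩ <;> rw [h] <;> linarith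
  obtain ⟨τ, hτ⟩ := hdw.exists_perm
  refine ⟨![fun a => if a = 0 then 1 else 0, fun a => if a = 1 then 1 else 0, fun a => if a = 2 then 1 else 0,
    fun a => if a = 3 then 1 else 0, fun a => -(if a = 0 then 1 else 0), fun a => -(if a = 1 then 1 else 0),
    fun a => -(if a = 2 then 1 else 0), fun a => -(if a = 3 then 1 else 0)], ?_⟩
  have hlow : ∀ x l, (∀ u, (x, u) ∈ G → u l < 0) → ∃ i, Works G x ((![fun a => if a = 0 then 1 else 0,
      fun a => if a = 1 then 1 else 0, fun a => if a = 2 then 1 else 0,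
      fun a => if a = 3 then 1 else 0, fun a => -(if a = 0 then 1 else 0), fun a => -(if a = 1 then 1 else 0),
      fun a => -(if a = 2 then 1 else 0), fun a => -(if a = 3 then 1 else 0)] : Fin 8 → Fin 4 → ℝ) i) := by
    intro x l hl
    fin_cases l
    · refine ⟨4, fun u hu => ?_⟩
      have := hl u hu
      simp at this ⊢
      linarith
    · refine ⟨5, fun u hu => ?_⟩
      have := hl u hu
      simp at this ⊢
      linarith
    · refine ⟨6, fun u hu => ?_⟩
      have := hl u hu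
      simp at this ⊢
      linarith
    · refine ⟨7, fun u hu => ?_⟩
      have := hl u hu
      simp at this ⊢
      linarith
  have hup : ∀ x l, (∀ u, (x, u) ∈ G → 0 < u l) → ∃ i, Works G x ((![fun a => if a = 0 then 1 else 0,
      fun a => if a = 1 then 1 else 0, fun a => if a = 2 then 1 else 0,
      fun a => if a = 3 then 1 else 0, fun a => -(if a = 0 then 1 else 0), fun a => -(if a = 1 then 1 else 0),
      fun a => -(if a = 2 then 1 else 0), fun a => -(if a = 3 then 1 else 0)] : Fin 8 → Fin 4 → ℝ) i) := by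
    intro x l hl
    fin_cases l
    · refine ⟨0, fun u hu => ?_⟩
      have := hl u hu
      simp at this ⊢
      linarith
    · refine ⟨1, fun u hu => ?_⟩
      have := hl u hu
      simp at this ⊢
      linarith
    · refine ⟨2, fun u hu => ?_⟩
      have := hl u hu
      simp at this ⊢
      linarith
    · refine ⟨3, fun u hu => ?_⟩
      have := hl u hu
      simp at this ⊢
      linarith
  rintro ⟨x, u0⟩ hxu
  obtain ⟨i, j, k, l, hd, hij, hjk, hkl⟩ := sorted x
  rcases hkl.eq_or_lt with hkl' | hkl'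
  swap
  · refine hlow x l (fun u hu => ?_)
    by_contra hc
    push Not at hc
    refine nonneg_absurd hG hu (fun a => ?_)
    rcases hd.cases a with rfl | rfl | rfl | rfl
    · exact hc.trans (mono hG hu (by linarith))
    · exact hc.trans (mono hG hu (by linarith))
    · exact hc.trans (mono hG hu (by linarith))
    · exact hc
  rcases hij.eq_or_lt with hij' | hij'
  swap
  · refine hup x i (fun u hu => ?_)
    by_contra hc
    push Not at hc
    refine nonpos_absurd hG hu (fun a => ?_)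
    rcases hd.cases a with rfl | rfl | rfl | rfl
    · exact hc
    · exact (mono hG hu (by linarith) : u _ ≤ u _).trans hc
    · exact (mono hG hu (by linarith) : u _ ≤ u _).trans hc
    · exact (mono hG hu (by linarith) : u _ ≤ u _).trans hc
  -- pure of level two
  refine hup x i (fun u hu => ?_)
  obtain ⟨σ, hσ⟩ := hd.exists_perm
  have hle := le2 hG hu h1 σ τ
  rw [hσ.1, hσ.2.1, hσ.2.2.1, hσ.2.2.2, hτ.1, hτ.2.1, hτ.2.2.1, hτ.2.2.2, hp, hq, hr, hs] at hle
  have hus : ∑ a, u a = 0 := hG.sum2 _ hu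
  have hxs : ∑ a, x a = 0 := hG.sum1 _ hu
  have hux : ∑ a, u a * x a = 1 := hG.one _ hu
  rw [hd.sum] at hus hxs hux
  have ej : x j = x i := by linarith
  have ek : x k = -x i := by linarith
  have el : x l = -x i := by linarith
  rw [ej, ek, el] at hle hux
  have hbj := hb x u hu j
  have e1 : x i * (2 * (u i + u j)) = 1 := by
    have : u k + u l = -(u i + u j) := by linarith
    nlinarith
  have hx0 : 0 < x i := by
    have h0 : 0 ≤ x i := by linarith
    rcases h0.eq_or_lt with h | h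
    · rw [← h] at e1; simp at e1
    · exact h
  by_contra hc
  push Not at hc
  have e2 : x i * (2 * (u i + u j)) ≤ x i * (2 * w i0) := by
    apply mul_le_mul_of_nonneg_left _ hx0.le
    linarith
  nlinarith [mul_pos hx0 hw0]

end families

/-- The mirror image. -/
def neg (G : Set ((Fin 4 → ℝ) × (Fin 4 → ℝ))) : Set ((Fin 4 → ℝ) × (Fin 4 → ℝ)) := {q | -q ∈ G}

theorem dual_neg {G : Set ((Fin 4 → ℝ) × (Fin 4 → ℝ))} (hG : Dual G) : Dual (neg G) where
  compact := (Homeomorph.neg ((Fin 4 → ℝ) × (Fin 4 → ℝ))).isCompact_preimage.2 hG.compact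
  sum1 := fun p hp => by
    have := hG.sum1 _ hp
    simpa using this
  sum2 := fun p hp => by
    have := hG.sum2 _ hp
    simpa using this
  one := fun p hp => by
    have := hG.one _ hp
    simpa using this
  le := fun p hp q hq σ => by
    have := hG.le _ hp _ hq σ
    simpa using this

theorem works_neg {G : Set ((Fin 4 → ℝ) × (Fin 4 → ℝ))} {N : ℕ}
    (h : ∃ z : Fin N → Fin 4 → ℝ, ∀ q ∈ neg G, ∃ i, Works (neg G) q.1 (z i)) :
    ∃ z : Fin N → Fin 4 → ℝ, ∀ q ∈ G, ∃ i, Works G q.1 (z i) := by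
  obtain ⟨z, hz⟩ := h
  refine ⟨fun i => -z i, fun q hq => ?_⟩
  obtain ⟨i, hi⟩ := hz (-q) (by simpa [neg] using hq)
  refine ⟨i, fun u hu => ?_⟩
  have := hi (-u) (by simpa [neg] using hu)
  simpa using this

theorem P1_neg {x : Fin 4 → ℝ} {i : Fin 4} (h : P1 (-x) i) : P3 x i := by
  intro a b ha hb
  obtain ⟨h1, h2⟩ := h a b ha hb
  simp only [Pi.neg_apply] at h1 h2
  exact ⟨by linarith, by linarith⟩

theorem P3_neg {x : Fin 4 → ℝ} {i : Fin 4} (h : P3 (-x) i) : P1 x i := by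
  intro a b ha hb
  obtain ⟨h1, h2⟩ := h a b ha hb
  simp only [Pi.neg_apply] at h1 h2
  exact ⟨by linarith, by linarith⟩

theorem Q_neg {u : Fin 4 → ℝ} (h : Q (-u)) : Q u := by
  obtain ⟨i, j, k, l, hd, h1, h2⟩ := h
  simp only [Pi.neg_apply] at h1 h2
  exact ⟨i, j, k, l, hd, by linarith, by linarith⟩

/-- The exceptional data. -/
def Exc (G : Set ((Fin 4 → ℝ) × (Fin 4 → ℝ))) : Prop :=
  ∃ x u i x' u' i', (x, u) ∈ G ∧ P1 x i ∧ Q u ∧ (x', u') ∈ G ∧ P3 x' i' ∧ Q u'

/-- Seven vectors, or the exceptional data. -/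
theorem core4 {G : Set ((Fin 4 → ℝ) × (Fin 4 → ℝ))} (hG : Dual G) :
    (∃ z : Fin 7 → Fin 4 → ℝ, ∀ q ∈ G, ∃ i, Works G q.1 (z i)) ∨ Exc G := by
  by_cases hA3 : ∀ x u, (x, u) ∈ G → ∀ i, P3 x i → ∀ a, u a ≤ -u i
  swap
  · push Not at hA3
    obtain ⟨x, u, hu, i, hx, a, ha⟩ := hA3
    exact Or.inl (core_bad hG hu hx ha)
  by_cases hA1 : ∀ x u, (x, u) ∈ G → ∀ i, P1 x i → ∀ a, -u a ≤ u i
  swap
  · push Not at hA1
    obtain ⟨x, u, hu, i, hx, a, ha⟩ := hA1
    refine Or.inl (works_neg (core_bad (dual_neg hG) (x3 := -x) (w := -u) (by simpa [neg] using hu)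
      (l0 := i) (P1_neg (by simpa using hx)) (m := a) ?_))
    simp only [Pi.neg_apply]
    linarith
  by_cases hQ3 : ∀ x u, (x, u) ∈ G → ∀ i, P3 x i → ¬ Q u
  · exact Or.inl (core_fam hG hA1 hA3 hQ3)
  by_cases hQ1 : ∀ x u, (x, u) ∈ G → ∀ i, P1 x i → ¬ Q u
  · refine Or.inl (works_neg (core_fam (dual_neg hG) ?_ ?_ ?_))
    · intro x u hu i hx a
      have := hA3 (-x) (-u) hu i (P1_neg (by simpa using hx)) a
      simp only [Pi.neg_apply] at this
      linarith
    · intro x u hu i hx a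
      have := hA1 (-x) (-u) hu i (P3_neg (by simpa using hx)) a
      simp only [Pi.neg_apply] at this
      linarith
    · intro x u hu i hx hq
      exact hQ1 (-x) (-u) hu i (P3_neg (by simpa using hx)) (Q_neg (by simpa using hq))
  push Not at hQ1 hQ3
  obtain ⟨x, u, hu, i, hx, hq⟩ := hQ1
  obtain ⟨x', u', hu', i', hx', hq'⟩ := hQ3
  exact Or.inr ⟨x, u, i, x', u', i', hu, hx, hq, hu', hx', hq'⟩

/-- Eight vectors always suffice. -/
theorem core8 {G : Set ((Fin 4 → ℝ) × (Fin 4 → ℝ))} (hG : Dual G) :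
    ∃ z : Fin 8 → Fin 4 → ℝ, ∀ q ∈ G, ∃ i, Works G q.1 (z i) := by
  rcases core4 hG with ⟨z, hz⟩ | ⟨x, u, i, x', u', i', hu, hx, hq, -⟩
  · refine ⟨Fin.snoc z 0, fun q hq => ?_⟩
    obtain ⟨i, hi⟩ := hz q hq
    exact ⟨i.castSucc, by simpa using hi⟩
  · exact core_exc hG hu hx hq

end Pool.Agent.Lib.MP_5e7226_co.SX.S4
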