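import Pool.Agent.Lib.MP_5e7226_co.SX.Gm1
import Pool.Agent.Lib.MP_5e7226_co.SX.S4

set_option autoImplicit false

/-! The exceptional case of `n = 4`: the cube and the octahedron. -/

namespace Pool.Agent.Lib.MP_5e7226_co.SX.S4

open Finset

/-- The space. -/
abbrev E3 := EuclideanSpace ℝ (Fin 3)

variable {b : AffineBasis (Fin 4) ℝ E3} {K : Set E3}

/-- The point with the coordinates `c` relative to the centre. -/
noncomputable def pt (b : AffineBasis (Fin 4) ℝ E3) (c : Fin 4 → ℝ) : E3 := cen b + ∑ i, c i • b i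

theorem pt_eq (b : AffineBasis (Fin 4) ℝ E3) (c : Fin 4 → ℝ) : pt b c = ∑ i, (1 / 4 + c i) • b i := by
  unfold pt cen
  rw [← sum_add_distrib]
  refine sum_congr rfl fun i _ => ?_
  rw [← add_smul]
  norm_num

theorem co_pt (b : AffineBasis (Fin 4) ℝ E3) {c : Fin 4 → ℝ} (hc : ∑ i, c i = 0) : co b (pt b c) = c := by
  funext j
  unfold co
  rw [pt_eq, Gm1_coord_sum b (w := fun i => 1 / 4 + c i)]
  · norm_num
  · rw [sum_add_distrib, hc]
    norm_num

theorem pt_co (b : AffineBasis (Fin 4) ℝ E3) (y : E3) : pt b (co b y) = y := by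
  rw [pt_eq]
  have h : ∀ i, (1 / 4 + co b y i : ℝ) = b.coord i y := fun i => by
    unfold co
    norm_num
  simp only [h]
  exact b.linear_combination_coord_eq_self y

theorem sym_pt (hK : SymBody b K) {c : Fin 4 → ℝ} (hc : ∑ i, c i = 0) (h : pt b c ∈ K) (σ : Equiv.Perm (Fin 4)) :
    pt b (fun i => c (σ i)) ∈ K := by
  have h1 : Gm1_A b σ⁻¹ (pt b c) ∈ K := hK.sym σ⁻¹ _ h
  have h2 : co b (Gm1_A b σ⁻¹ (pt b c)) = fun i => c (σ i) := by
    funext j
    have h3 := congrFun (co_pt b hc) (σ j)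
    unfold co at h3 ⊢
    rw [Gm1_coord_A, inv_inv]
    exact h3
  rw [← h2, pt_co]
  exact h1

/-- A functional of a dual pair is at most one on all images of the points of `K`. -/
theorem bound (hK : SymBody b K) {x u : Fin 4 → ℝ} (h : (x, u) ∈ GK b K) {y : E3} (hy : y ∈ K)
    (σ : Equiv.Perm (Fin 4)) : ∑ i, u i * co b y (σ i) ≤ 1 := by
  obtain ⟨p, hp, f, hf, hfp, hq⟩ := h
  have h1 : pt b (fun i => co b y (σ i)) ∈ K := sym_pt hK (sum_co b y) (by rw [pt_co]; exact hy) σ
  have h2 := hf _ h1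
  rw [pairing, co_pt b] at h2
  · rw [Prod.mk.injEq] at hq
    rw [hq.2]
    exact h2
  · rw [Equiv.sum_comp σ (co b y)]
    exact sum_co b y

/-- The numbers of a pure point with a normal of type `(1, 1, -1, -1)`. -/
theorem pq1 {x u : Fin 4 → ℝ} (hx : ∑ i, x i = 0) (hu : ∑ i, u i = 0) (h1 : ∑ i, u i * x i = 1) {i : Fin 4}
    (hP : P1 x i) (hQ : Q u) : ∃ β t : ℝ, 0 < β ∧ 0 < t ∧ 4 * β * t = 1 ∧ x i = 3 * β ∧ (∀ a, a ≠ i → x a = -β) ∧
      ∃ q r s, Ds i q r s ∧ u i = t ∧ u q = t ∧ u r = -t ∧ u s = -t := by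
  obtain ⟨q, r, s, hd, hq, hr, hs⟩ : ∃ q r s, Ds i q r s ∧ u q = u i ∧ u r = -u i ∧ u s = -u i := by
    obtain ⟨p, q, r, s, hd, h2, h3⟩ := hQ
    rw [hd.sum] at hu
    rcases hd.cases i with h | h | h | h
    · subst h
      exact ⟨q, r, s, hd, by linarith, by linarith, by linarith⟩
    · subst h
      refine ⟨p, r, s, ?_, by linarith, by linarith, by linarith⟩
      clear h1 hx hP hu h2 h3
      revert hd; revert p i r s; decide
    · subst h
      refine ⟨s, p, q, ?_, by linarith, by linarith, by linarith⟩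
      clear h1 hx hP hu h2 h3
      revert hd; revert p q i s; decide
    · subst h
      refine ⟨r, p, q, ?_, by linarith, by linarith, by linarith⟩
      clear h1 hx hP hu h2 h3
      revert hd; revert p q r i; decide
  have hd' := hd
  obtain ⟨e1, e2, e3, -, -, -⟩ := hd'
  have a1 := hP q r e1.symm e2.symm
  have a2 := hP q s e1.symm e3.symm
  rw [hd.sum] at h1 hx
  have b1 : x i = 3 * -x q := by linarith
  have b2 : 4 * -x q * u i = 1 := by
    rw [hq, hr, hs, ← a1.1, ← a2.1, b1] at h1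
    linarith
  have b3 : 0 ≤ -x q := by linarith [a1.2]
  have b4 : 0 < -x q := by
    rcases b3.eq_or_lt with h | h
    · rw [← h] at b2; simp at b2
    · exact h
  have b5 : 0 < u i := by
    by_contra hc
    push Not at hc
    nlinarith
  refine ⟨-x q, u i, b4, b5, b2, b1, fun a ha => ?_, q, r, s, hd, rfl, hq, hr, hs⟩
  rw [neg_neg]
  exact (hP a q ha e1.symm).1

/-- Three orthogonal directions. -/
noncomputable def V (β : ℝ) : Fin 3 → Fin 4 → ℝ := ![![β, β, -β, -β], ![β, -β, β, -β], ![β, -β, -β, β]]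

/-- The corresponding vectors. -/
noncomputable def vv (b : AffineBasis (Fin 4) ℝ E3) (β : ℝ) (m : Fin 3) : E3 := ∑ i, V β m i • b i

/-- The coordinates of a combination. -/
noncomputable def C (β a0 a1 a2 : ℝ) : Fin 4 → ℝ :=
  ![β * (a0 + a1 + a2), β * (a0 - a1 - a2), β * (-a0 + a1 - a2), β * (-a0 - a1 + a2)]

theorem sum_C (β a0 a1 a2 : ℝ) : ∑ i, C β a0 a1 a2 i = 0 := by
  simp [C, Fin.sum_univ_four]
  ring

theorem comb_eq (b : AffineBasis (Fin 4) ℝ E3) (β : ℝ) (α : Fin 3 → ℝ) :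
    cen b + ∑ m, α m • vv b β m = pt b (C β (α 0) (α 1) (α 2)) := by
  unfold pt vv
  congr 1
  simp only [Fin.sum_univ_three, Fin.sum_univ_four, V, C]
  simp only [Matrix.cons_val]
  module

theorem pt_comb (b : AffineBasis (Fin 4) ℝ E3) (s : ℝ) (c c' : Fin 4 → ℝ) :
    pt b (fun i => s * c i + (1 - s) * c' i) = s • pt b c + (1 - s) • pt b c' := by
  unfold pt
  simp only [Fin.sum_univ_four]
  module

theorem conv (hK : SymBody b K) {c c' : Fin 4 → ℝ} (h : pt b c ∈ K) (h' : pt b c' ∈ K) {s : ℝ} (h0 : 0 ≤ s)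
    (h1 : s ≤ 1) : pt b (fun i => s * c i + (1 - s) * c' i) ∈ K := by
  rw [pt_comb]
  exact hK.convex h h' h0 (by linarith) (by ring)

theorem linind (b : AffineBasis (Fin 4) ℝ E3) {β : ℝ} (hβ : 0 < β) : LinearIndependent ℝ (vv b β) := by
  rw [Fintype.linearIndependent_iff]
  intro g hg
  have h1 := comb_eq b β g
  rw [hg, add_zero] at h1
  have h2 : pt b 0 = cen b := by unfold pt; simp
  have h3 : C β (g 0) (g 1) (g 2) = 0 := by
    rw [← co_pt b (sum_C β (g 0) (g 1) (g 2)), ← h1, ← h2, co_pt b (by simp)]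
  have e0 := congrFun h3 0
  have e1 := congrFun h3 1
  have e2 := congrFun h3 2
  simp [C, hβ.ne'] at e0 e1 e2
  have f0 : g 0 = 0 := by linarith
  have f1 : g 1 = 0 := by linarith
  have f2 : g 2 = 0 := by linarith
  intro m
  fin_cases m
  · exact f0
  · exact f1
  · exact f2

theorem C_co (b : AffineBasis (Fin 4) ℝ E3) {β : ℝ} (hβ : 0 < β) (y : E3) :
    C β ((co b y 0 + co b y 1) / (2 * β)) ((co b y 0 + co b y 2) / (2 * β)) ((co b y 0 + co b y 3) / (2 * β)) =
      co b y := by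
  have h := sum_co b y
  rw [Fin.sum_univ_four] at h
  have h3 : co b y 3 = -co b y 0 - co b y 1 - co b y 2 := by linarith
  funext i
  fin_cases i <;> simp [C] <;> field_simp <;> linarith

theorem cube_of (hK : SymBody b K) {β : ℝ} (hβ : 0 < β)
    (hA : ∀ y ∈ K, ∀ i j, i ≠ j → co b y i + co b y j ≤ 2 * β)
    (h1 : ∀ j, pt b (fun a => if a = j then 3 * β else -β) ∈ K)
    (h3 : ∀ j, pt b (fun a => if a = j then -(3 * β) else β) ∈ K) :
    K = {x | ∃ c : Fin 3 → ℝ, (∀ i, |c i| ≤ 1) ∧ x = cen b + ∑ i, c i • vv b β i} := by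
  ext y
  constructor
  · intro hy
    have hs := sum_co b y
    rw [Fin.sum_univ_four] at hs
    refine ⟨![(co b y 0 + co b y 1) / (2 * β), (co b y 0 + co b y 2) / (2 * β), (co b y 0 + co b y 3) / (2 * β)],
      ?_, ?_⟩
    · have key : ∀ i j k l : Fin 4, Ds i j k l → |(co b y i + co b y j) / (2 * β)| ≤ 1 := by
        intro i j k l hd
        have hs' := sum_co b y
        rw [hd.sum] at hs'
        have c1 := hA y hy i j hd.1
        have c2 := hA y hy k l hd.2.2.2.2.2
        rw [abs_le, le_div_iff₀ (by linarith), div_le_iff₀ (by linarith)]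
        constructor <;> linarith
      intro m
      fin_cases m
      · exact key 0 1 2 3 (by decide)
      · exact key 0 2 1 3 (by decide)
      · exact key 0 3 1 2 (by decide)
    · rw [comb_eq]
      simp only [Matrix.cons_val]
      rw [C_co b hβ, pt_co]
  · rintro ⟨α, hα, rfl⟩
    rw [comb_eq]
    have hv : ∀ a0 a1 a2 : ℝ, (a0 = 1 ∨ a0 = -1) → (a1 = 1 ∨ a1 = -1) → (a2 = 1 ∨ a2 = -1) →
        pt b (C β a0 a1 a2) ∈ K := by
      rintro a0 a1 a2 (rfl | rfl) (rfl | rfl) (rfl | rfl)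
      · convert h1 0 using 2
        funext i; fin_cases i <;> simp [C] <;> ring
      · convert h3 3 using 2
        funext i; fin_cases i <;> simp [C] <;> ring
      · convert h3 2 using 2
        funext i; fin_cases i <;> simp [C] <;> ring
      · convert h1 1 using 2
        funext i; fin_cases i <;> simp [C] <;> ring
      · convert h3 1 using 2
        funext i; fin_cases i <;> simp [C] <;> ring
      · convert h1 2 using 2
        funext i; fin_cases i <;> simp [C] <;> ring
      · convert h1 3 using 2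
        funext i; fin_cases i <;> simp [C] <;> ring
      · convert h3 0 using 2
        funext i; fin_cases i <;> simp [C] <;> ring
    have hb : ∀ m, 0 ≤ (1 + α m) / 2 ∧ (1 + α m) / 2 ≤ 1 := fun m => by
      have := abs_le.1 (hα m)
      constructor <;> linarith
    have s2 : ∀ a0 a1 : ℝ, (a0 = 1 ∨ a0 = -1) → (a1 = 1 ∨ a1 = -1) → pt b (C β a0 a1 (α 2)) ∈ K := by
      intro a0 a1 h0 h1
      convert conv hK (hv a0 a1 1 h0 h1 (Or.inl rfl)) (hv a0 a1 (-1) h0 h1 (Or.inr rfl)) (hb 2).1 (hb 2).2 using 2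
      funext i; fin_cases i <;> simp [C] <;> ring
    have s1 : ∀ a0 : ℝ, (a0 = 1 ∨ a0 = -1) → pt b (C β a0 (α 1) (α 2)) ∈ K := by
      intro a0 h0
      convert conv hK (s2 a0 1 h0 (Or.inl rfl)) (s2 a0 (-1) h0 (Or.inr rfl)) (hb 1).1 (hb 1).2 using 2
      funext i; fin_cases i <;> simp [C] <;> ring
    convert conv hK (s1 1 (Or.inl rfl)) (s1 (-1) (Or.inr rfl)) (hb 0).1 (hb 0).2 using 2
    funext i; fin_cases i <;> simp [C] <;> ring

theorem oct_of (hK : SymBody b K) {t : ℝ} (ht : 0 < t) (hA : ∀ y ∈ K, ∀ a, |co b y a| ≤ t)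
    (hP : ∀ i j, i ≠ j → pt b (fun a => if a = i ∨ a = j then t else -t) ∈ K) :
    K = {x | ∃ c : Fin 3 → ℝ, ∑ i, |c i| ≤ 1 ∧ x = cen b + ∑ i, c i • vv b t i} := by
  ext y
  constructor
  · intro hy
    have hs := sum_co b y
    rw [Fin.sum_univ_four] at hs
    refine ⟨![(co b y 0 + co b y 1) / (2 * t), (co b y 0 + co b y 2) / (2 * t), (co b y 0 + co b y 3) / (2 * t)],
      ?_, ?_⟩
    · rw [Fin.sum_univ_three]
      simp only [Matrix.cons_val]
      rw [abs_div, abs_div, abs_div, ← add_div, ← add_div, abs_of_pos (show 0 < 2 * t by linarith),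
        div_le_one (by linarith)]
      have a0 := abs_le.1 (hA y hy 0)
      have a1 := abs_le.1 (hA y hy 1)
      have a2 := abs_le.1 (hA y hy 2)
      have a3 := abs_le.1 (hA y hy 3)
      rcases abs_cases (co b y 0 + co b y 1) with ⟨h1, -⟩ | ⟨h1, -⟩ <;>
      rcases abs_cases (co b y 0 + co b y 2) with ⟨h2, -⟩ | ⟨h2, -⟩ <;>
      rcases abs_cases (co b y 0 + co b y 3) with ⟨h3, -⟩ | ⟨h3, -⟩ <;>
      rw [h1, h2, h3] <;> linarith
    · rw [comb_eq]
      simp only [Matrix.cons_val]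
      rw [C_co b ht, pt_co]
  · rintro ⟨α, hα, rfl⟩
    have hv : ∀ (m : Fin 3) (s : ℝ), (s = 1 ∨ s = -1) → cen b + s • vv b t m ∈ K := by
      intro m s hs
      have h0 : ∀ (m : Fin 3) (s : ℝ), cen b + s • vv b t m =
          cen b + ∑ j, (fun j => if j = m then s else 0) j • vv b t j := by
        intro m s
        simp
      rw [h0, comb_eq]
      rcases hs with rfl | rfl <;> fin_cases m
      · convert hP 0 1 (by decide) using 2
        funext i; fin_cases i <;> simp [C]
      · convert hP 0 2 (by decide) using 2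
        funext i; fin_cases i <;> simp [C]
      · convert hP 0 3 (by decide) using 2
        funext i; fin_cases i <;> simp [C]
      · convert hP 2 3 (by decide) using 2
        funext i; fin_cases i <;> simp [C]
      · convert hP 1 3 (by decide) using 2
        funext i; fin_cases i <;> simp [C]
      · convert hP 1 2 (by decide) using 2
        funext i; fin_cases i <;> simp [C]
    have hc : cen b ∈ K := interior_subset (cen_mem_interior hK)
    have hsg : ∀ a : ℝ, ∃ s : ℝ, (s = 1 ∨ s = -1) ∧ |a| * s = a := by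
      intro a
      rcases le_total 0 a with h | h
      · exact ⟨1, Or.inl rfl, by rw [abs_of_nonneg h, mul_one]⟩
      · exact ⟨-1, Or.inr rfl, by rw [abs_of_nonpos h]; ring⟩
    obtain ⟨s0, hs0, e0⟩ := hsg (α 0)
    obtain ⟨s1, hs1, e1⟩ := hsg (α 1)
    obtain ⟨s2, hs2, e2⟩ := hsg (α 2)
    rw [Fin.sum_univ_three] at hα
    have hmem := hK.convex.sum_mem (t := (univ : Finset (Fin 4)))
      (w := ![|α 0|, |α 1|, |α 2|, 1 - (|α 0| + |α 1| + |α 2|)])
      (z := ![cen b + s0 • vv b t 0, cen b + s1 • vv b t 1, cen b + s2 • vv b t 2, cen b])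
      (by
        intro i _
        fin_cases i
        · exact abs_nonneg _
        · exact abs_nonneg _
        · exact abs_nonneg _
        · show 0 ≤ 1 - (|α 0| + |α 1| + |α 2|)
          linarith)
      (by
        simp [Fin.sum_univ_four])
      (by
        intro i _
        fin_cases i
        · exact hv 0 s0 hs0
        · exact hv 1 s1 hs1
        · exact hv 2 s2 hs2
        · exact hc)
    rw [Fin.sum_univ_four] at hmem
    simp only [Matrix.cons_val] at hmem
    convert hmem using 1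
    rw [Fin.sum_univ_three]
    simp only [smul_add, smul_smul, e0, e1, e2]
    module

/-- The exceptional data of the points: the body is a cube. -/
theorem cube_end4 (hK : SymBody b K) (h : Exc (GK b K)) : ∃ v : Fin 3 → E3, LinearIndependent ℝ v ∧
    K = {x | ∃ c : Fin 3 → ℝ, (∀ i, |c i| ≤ 1) ∧ x = cen b + ∑ i, c i • v i} := by
  obtain ⟨x, u, i, x', u', i', hxu, hP, hQ, hxu', hP', hQ'⟩ := h
  have hD := dual_GK hK
  have n1 : ∑ a, (-x') a = 0 := by
    have : ∑ a, x' a = 0 := hD.sum1 _ hxu'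
    simpa using this
  have n2 : ∑ a, (-u') a = 0 := by
    have : ∑ a, u' a = 0 := hD.sum2 _ hxu'
    simpa using this
  have n3 : ∑ a, (-u') a * (-x') a = 1 := by
    have : ∑ a, u' a * x' a = 1 := hD.one _ hxu'
    simpa using this
  obtain ⟨β, t, hβ, ht, hβt, hxi, hxa, q, r, s, hd, hui, huq, hur, hus⟩ :=
    pq1 (x := x) (u := u) (hD.sum1 _ hxu) (hD.sum2 _ hxu) (hD.one _ hxu) hP hQ
  obtain ⟨γ, t', hγ, ht', hγt, hxi', hxa', q', r', s', hd', hui', huq', hur', hus'⟩ :=
    pq1 n1 n2 n3 (i := i') (P3_neg (by simpa using hP')) (Q_neg (by simpa using hQ'))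
  simp only [Pi.neg_apply] at hxi' hxa' hui' huq' hur' hus'
  have hx : x = fun a => if a = i then 3 * β else -β := by
    funext a
    by_cases ha : a = i
    · rw [if_pos ha, ha, hxi]
    · rw [if_neg ha, hxa a ha]
  have hx' : x' = fun a => if a = i' then -(3 * γ) else γ := by
    funext a
    by_cases ha : a = i'
    · rw [if_pos ha, ha]; linarith
    · rw [if_neg ha]; linarith [hxa' a ha]
  have hp : pt b x ∈ K := by
    obtain ⟨p, hp, f, -, -, hq⟩ := hxu
    rw [Prod.mk.injEq] at hq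
    rw [hq.1, pt_co]
    exact hp
  have hp' : pt b x' ∈ K := by
    obtain ⟨p, hp, f, -, -, hq⟩ := hxu'
    rw [Prod.mk.injEq] at hq
    rw [hq.1, pt_co]
    exact hp
  have hxs : ∑ a, x a = 0 := hD.sum1 _ hxu
  have hxs' : ∑ a, x' a = 0 := hD.sum1 _ hxu'
  -- the bounds
  have hB : ∀ y ∈ K, ∀ a c, a ≠ c → co b y a + co b y c ≤ 2 * β := by
    intro y hy a c hac
    obtain ⟨k, l, hkl⟩ := Ds.two a c hac
    obtain ⟨σ, hσ⟩ := hd.exists_perm
    obtain ⟨τ, hτ⟩ := hkl.exists_perm
    have h1 := bound hK hxu hy (σ.symm.trans τ)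
    rw [← Equiv.sum_comp σ] at h1
    simp only [Equiv.trans_apply, Equiv.symm_apply_apply] at h1
    rw [Fin.sum_univ_four, hσ.1, hσ.2.1, hσ.2.2.1, hσ.2.2.2, hτ.1, hτ.2.1, hτ.2.2.1, hτ.2.2.2, hui, huq, hur,
      hus] at h1
    have h2 := sum_co b y
    rw [hkl.sum] at h2
    have h3 : t * (2 * (co b y a + co b y c)) ≤ t * (2 * (2 * β)) := by
      have : co b y k + co b y l = -(co b y a + co b y c) := by linarith
      nlinarith
    have h4 := le_of_mul_le_mul_left h3 ht
    linarith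
  have hB' : ∀ y ∈ K, ∀ a c, a ≠ c → co b y a + co b y c ≤ 2 * γ := by
    intro y hy a c hac
    obtain ⟨k, l, hkl⟩ := Ds.two a c hac
    obtain ⟨σ, hσ⟩ := hd'.flip.exists_perm
    obtain ⟨τ, hτ⟩ := hkl.exists_perm
    have h1 := bound hK hxu' hy (σ.symm.trans τ)
    rw [← Equiv.sum_comp σ] at h1
    simp only [Equiv.trans_apply, Equiv.symm_apply_apply] at h1
    rw [Fin.sum_univ_four, hσ.1, hσ.2.1, hσ.2.2.1, hσ.2.2.2, hτ.1, hτ.2.1, hτ.2.2.1, hτ.2.2.2] at h1
    have h2 := sum_co b y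
    rw [hkl.sum] at h2
    have g1 : u' i' = -t' := by linarith
    have g2 : u' q' = -t' := by linarith
    have g3 : u' r' = t' := by linarith
    have g4 : u' s' = t' := by linarith
    rw [g1, g2, g3, g4] at h1
    have h3 : t' * (2 * (co b y a + co b y c)) ≤ t' * (2 * (2 * γ)) := by
      have : co b y k + co b y l = -(co b y a + co b y c) := by linarith
      nlinarith
    have h4 := le_of_mul_le_mul_left h3 ht'
    linarith
  have hβγ : γ = β := by
    apply le_antisymm
    · have h1 := hB _ hp' q' r' hd'.2.2.2.1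
      rw [co_pt b hxs'] at h1
      linarith [hxa' q' hd'.1.symm, hxa' r' hd'.2.1.symm]
    · have h1 := hB' _ hp i q hd.1
      rw [co_pt b hxs] at h1
      linarith [hxa q hd.1.symm]
  subst hβγ
  refine ⟨vv b γ, linind b hγ, cube_of hK hγ hB ?_ ?_⟩
  · intro j
    have h1 := sym_pt hK hxs hp (Equiv.swap i j)
    convert h1 using 2
    funext a
    rw [hx]
    simp only [Equiv.swap_apply_eq_iff, Equiv.swap_apply_left]
  · intro j
    have h1 := sym_pt hK hxs' hp' (Equiv.swap i' j)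
    convert h1 using 2
    funext a
    rw [hx']
    simp only [Equiv.swap_apply_eq_iff, Equiv.swap_apply_left]

/-- The exceptional data of the normals: the body is an octahedron. -/
theorem cross_end4 (hK : SymBody b K) (h : Exc (swp (GK b K))) : ∃ v : Fin 3 → E3, LinearIndependent ℝ v ∧
    K = {x | ∃ c : Fin 3 → ℝ, ∑ i, |c i| ≤ 1 ∧ x = cen b + ∑ i, c i • v i} := by
  obtain ⟨x, u, i, x', u', i', hxu, hP, hQ, hxu', hP', hQ'⟩ := h
  have hD := dual_swp (dual_GK hK)
  have n1 : ∑ a, (-x') a = 0 := by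
    have : ∑ a, x' a = 0 := hD.sum1 _ hxu'
    simpa using this
  have n2 : ∑ a, (-u') a = 0 := by
    have : ∑ a, u' a = 0 := hD.sum2 _ hxu'
    simpa using this
  have n3 : ∑ a, (-u') a * (-x') a = 1 := by
    have : ∑ a, u' a * x' a = 1 := hD.one _ hxu'
    simpa using this
  obtain ⟨β, t, hβ, ht, hβt, hxi, hxa, q, r, s, hd, hui, huq, hur, hus⟩ :=
    pq1 (x := x) (u := u) (hD.sum1 _ hxu) (hD.sum2 _ hxu) (hD.one _ hxu) hP hQ
  obtain ⟨γ, t', hγ, ht', hγt, hxi', hxa', q', r', s', hd', hui', huq', hur', hus'⟩ :=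
    pq1 n1 n2 n3 (i := i') (P3_neg (by simpa using hP')) (Q_neg (by simpa using hQ'))
  simp only [Pi.neg_apply] at hxi' hxa' hui' huq' hur' hus'
  have hus0 : ∑ a, u a = 0 := hD.sum2 _ hxu
  have hus0' : ∑ a, u' a = 0 := hD.sum2 _ hxu'
  have hp : pt b u ∈ K := by
    obtain ⟨p, hp, f, -, -, hq⟩ := (show (u, x) ∈ GK b K from hxu)
    rw [Prod.mk.injEq] at hq
    rw [hq.1, pt_co]
    exact hp
  have hp' : pt b u' ∈ K := by
    obtain ⟨p, hp, f, -, -, hq⟩ := (show (u', x') ∈ GK b K from hxu')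
    rw [Prod.mk.injEq] at hq
    rw [hq.1, pt_co]
    exact hp
  -- the bounds
  have hB : ∀ y ∈ K, ∀ a, co b y a ≤ t := by
    intro y hy a
    have h1 := bound hK (show (u, x) ∈ GK b K from hxu) hy (Equiv.swap i a)
    have h2 : ∑ j, x j * co b y (Equiv.swap i a j) = 4 * β * co b y a := by
      have h3 : ∀ j, x j * co b y (Equiv.swap i a j) =
          -β * co b y (Equiv.swap i a j) + (if j = i then 4 * β * co b y a else 0) := by
        intro j
        by_cases hj : j = i
        · rw [if_pos hj, hj, hxi, Equiv.swap_apply_left]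
          ring
        · rw [if_neg hj, hxa j hj]
          ring
      rw [sum_congr rfl (fun j _ => h3 j), sum_add_distrib, ← mul_sum, Equiv.sum_comp (Equiv.swap i a) (co b y),
        sum_co, sum_ite_eq' univ i]
      simp
    rw [h2] at h1
    have h4 : 4 * β * co b y a ≤ 4 * β * t := by linarith
    exact le_of_mul_le_mul_left h4 (by linarith)
  have hB' : ∀ y ∈ K, ∀ a, -co b y a ≤ t' := by
    intro y hy a
    have h1 := bound hK (show (u', x') ∈ GK b K from hxu') hy (Equiv.swap i' a)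
    have h2 : ∑ j, x' j * co b y (Equiv.swap i' a j) = 4 * γ * (-co b y a) := by
      have h3 : ∀ j, x' j * co b y (Equiv.swap i' a j) =
          γ * co b y (Equiv.swap i' a j) + (if j = i' then 4 * γ * (-co b y a) else 0) := by
        intro j
        by_cases hj : j = i'
        · rw [if_pos hj, hj, show x' i' = -(3 * γ) by linarith, Equiv.swap_apply_left]
          ring
        · rw [if_neg hj, show x' j = γ by linarith [hxa' j hj]]
          ring
      rw [sum_congr rfl (fun j _ => h3 j), sum_add_distrib, ← mul_sum, Equiv.sum_comp (Equiv.swap i' a) (co b y),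
        sum_co, sum_ite_eq' univ i']
      simp
    rw [h2] at h1
    have h4 : 4 * γ * (-co b y a) ≤ 4 * γ * t' := by linarith
    exact le_of_mul_le_mul_left h4 (by linarith)
  have htt : t' = t := by
    apply le_antisymm
    · have h1 := hB _ hp' r'
      rw [co_pt b hus0'] at h1
      linarith
    · have h1 := hB' _ hp r
      rw [co_pt b hus0] at h1
      linarith
  subst htt
  refine ⟨vv b t', linind b ht', oct_of hK ht' (fun y hy a => abs_le.2 ⟨by linarith [hB' y hy a], hB y hy a⟩) ?_⟩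
  intro a c hac
  obtain ⟨k, l, hkl⟩ := Ds.two a c hac
  obtain ⟨σ, hσ⟩ := hd.exists_perm
  obtain ⟨τ, hτ⟩ := hkl.exists_perm
  have h1 := sym_pt hK hus0 hp (τ.symm.trans σ)
  convert h1 using 2
  funext j
  have key : ∀ m, j = τ m → u ((τ.symm.trans σ) j) = u (σ m) := by
    rintro m rfl
    simp
  rcases hkl.cases j with hj | hj | hj | hj
  · rw [if_pos (Or.inl hj), key 0 (by rw [hτ.1, hj]), hσ.1, hui]
  · rw [if_pos (Or.inr hj), key 1 (by rw [hτ.2.1, hj]), hσ.2.1, huq]
  · rw [if_neg (by rw [hj]; exact not_or.2 ⟨hkl.2.1.symm, hkl.2.2.2.1.symm⟩), key 2 (by rw [hτ.2.2.1, hj]),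
      hσ.2.2.1, hur]
  · rw [if_neg (by rw [hj]; exact not_or.2 ⟨hkl.2.2.1.symm, hkl.2.2.2.2.1.symm⟩), key 3 (by rw [hτ.2.2.2, hj]),
      hσ.2.2.2, hus]

end Pool.Agent.Lib.MP_5e7226_co.SX.S4
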