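import Pool.Agent.Lib.MP_5e7226_co.SX.Gm1

set_option autoImplicit false

/-! Row Gm2: illumination. -/

namespace Pool.Agent.Lib.MP_5e7226_co.SX

open Finset

variable {d n : ℕ}

/-- Gm2a. -/
theorem illum_dirs {b : AffineBasis (Fin n) ℝ (EuclideanSpace ℝ (Fin d))}
    {K : Set (EuclideanSpace ℝ (Fin d))} (hK : SymBody b K) {ι : Type} (z : ι → Fin n → ℝ)
    (hz : ∀ q ∈ GK b K, ∃ i, Works (GK b K) q.1 (z i)) :
    ∃ v : ι → EuclideanSpace ℝ (Fin d), ∀ q ∈ frontier K, ∃ i, ∃ t : ℝ, 0 < t ∧ q + t • v i ∈ interior K := by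
  have hc : cen b ∈ interior K := cen_mem_interior hK
  have hcl : closure (interior K) = K := by
    rw [hK.convex.closure_interior_eq_closure_of_nonempty_interior hK.int]
    exact hK.compact.isClosed.closure_eq
  -- a functional which is smaller than its value at `q` on the interior gives a dual pair
  have key : ∀ q ∈ K, ∀ f : EuclideanSpace ℝ (Fin d) →L[ℝ] ℝ, (∀ y ∈ interior K, f y < f q) →
      (co b q, fu b ((f q - f (cen b))⁻¹ • f)) ∈ GK b K := by
    intro q hq f hf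
    have h1 : 0 < f q - f (cen b) := sub_pos.2 (hf _ hc)
    have h2 : ∀ y ∈ K, f y ≤ f q := by
      intro y hy
      rw [← hcl] at hy
      have h3 : closure (interior K) ⊆ {y | f y ≤ f q} :=
        closure_minimal (fun z hz => (hf z hz).le) (isClosed_le f.continuous continuous_const)
      exact h3 hy
    refine ⟨q, hq, (f q - f (cen b))⁻¹ • f, ?_, ?_, rfl⟩
    · intro y hy
      have h3 := h2 y hy
      change (f q - f (cen b))⁻¹ * f y - (f q - f (cen b))⁻¹ * f (cen b) ≤ 1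
      rw [← mul_sub, inv_mul_le_iff₀ h1]
      linarith
    · change (f q - f (cen b))⁻¹ * f q - (f q - f (cen b))⁻¹ * f (cen b) = 1
      rw [← mul_sub]
      exact inv_mul_cancel₀ h1.ne'
  refine ⟨fun i => -∑ j, z i j • (b j - cen b), ?_⟩
  intro q hq
  have hqK : q ∈ K := hK.compact.isClosed.frontier_subset hq
  have hqi : q ∉ interior K := fun h => hq.2 h
  obtain ⟨f₀, hf₀⟩ := geometric_hahn_banach_open_point hK.convex.interior isOpen_interior hqi
  obtain ⟨i, hi⟩ := hz _ (key q hqK f₀ hf₀)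
  refine ⟨i, ?_⟩
  by_contra hcon
  obtain ⟨v, hv⟩ : ∃ v : EuclideanSpace ℝ (Fin d), v = -∑ j, z i j • (b j - cen b) := ⟨_, rfl⟩
  have hcon' : ∀ t : ℝ, 0 < t → q + t • v ∉ interior K := by
    intro t ht h
    rw [hv] at h
    exact hcon ⟨t, ht, h⟩
  have hray : Convex ℝ {y : EuclideanSpace ℝ (Fin d) | ∃ t : ℝ, 0 < t ∧ y = q + t • v} := by
    rintro _ ⟨s, hs, rfl⟩ _ ⟨t, ht, rfl⟩ α β hα hβ hαβ
    refine ⟨α * s + β * t, ?_, ?_⟩
    · rcases hα.eq_or_lt with h | h
      · subst h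
        have h1 : β = 1 := by linarith
        subst h1
        simpa using ht
      · have h1 : 0 < α * s := mul_pos h hs
        have h2 : 0 ≤ β * t := mul_nonneg hβ ht.le
        linarith
    · have h1 : α • (q + s • v) + β • (q + t • v) = (α + β) • q + (α * s + β * t) • v := by
        module
      rw [h1, hαβ, one_smul]
  have hdisj : Disjoint (interior K) {y : EuclideanSpace ℝ (Fin d) | ∃ t : ℝ, 0 < t ∧ y = q + t • v} := by
    rw [Set.disjoint_left]
    rintro _ h1 ⟨t, ht, rfl⟩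
    exact hcon' t ht h1
  obtain ⟨f, s, hf1, hf2⟩ := geometric_hahn_banach_open hK.convex.interior isOpen_interior hray hdisj
  have hf3 : ∀ t : ℝ, 0 < t → s ≤ f q + t * f v := by
    intro t ht
    have h1 := hf2 _ ⟨t, ht, rfl⟩
    rwa [map_add, map_smul, smul_eq_mul] at h1
  have hq1 : f q ≤ s := by
    have h3 : closure (interior K) ⊆ {y | f y ≤ s} :=
      closure_minimal (fun z hz => (hf1 z hz).le) (isClosed_le f.continuous continuous_const)
    rw [hcl] at h3
    exact h3 hqK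
  have hfv : 0 ≤ f v := by
    have h1 := hf3 1 one_pos
    linarith
  have hq2 : s ≤ f q := by
    refine le_of_forall_pos_le_add fun ε hε => ?_
    have h2 : 0 < f v + 1 := by linarith
    have h1 := hf3 (ε / (f v + 1)) (div_pos hε h2)
    have h3 : ε / (f v + 1) * f v ≤ ε := by
      rw [div_mul_eq_mul_div, div_le_iff₀ h2]
      nlinarith
    linarith
  have hqs : f q = s := le_antisymm hq1 hq2
  have hpair := key q hqK f (fun y hy => by rw [hqs]; exact hf1 y hy)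
  have h4 := hi _ hpair
  have h5 : 0 < f q - f (cen b) := by
    rw [hqs]
    exact sub_pos.2 (hf1 _ hc)
  have h6 : ∑ j, fu b ((f q - f (cen b))⁻¹ • f) j * z i j = -((f q - f (cen b))⁻¹ * f v) := by
    rw [hv, map_neg, map_sum, mul_neg, neg_neg, mul_sum]
    refine sum_congr rfl fun j _ => ?_
    rw [map_smul, map_sub, smul_eq_mul]
    change ((f q - f (cen b))⁻¹ * f (b j) - (f q - f (cen b))⁻¹ * f (cen b)) * z i j = _
    ring
  rw [h6] at h4
  have h7 : 0 ≤ (f q - f (cen b))⁻¹ * f v := mul_nonneg (inv_pos.2 h5).le hfv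
  linarith

/-- Gm2b. -/
theorem illum_points {K : Set (EuclideanSpace ℝ (Fin d))} (hd : 0 < d) (hK : IsCompact K) {ι : Type} [Fintype ι]
    {v : ι → EuclideanSpace ℝ (Fin d)}
    (h : ∀ q ∈ frontier K, ∃ i, ∃ t : ℝ, 0 < t ∧ q + t • v i ∈ interior K) {N : ℕ} (hN : Fintype.card ι ≤ N) :
    ∃ p : Fin N → EuclideanSpace ℝ (Fin d), (∀ i, p i ∉ K) ∧
      ∀ q ∈ frontier K, ∃ i, ∃ s : ℝ, 0 < s ∧ q + s • (q - p i) ∈ interior K := by
  classical
  obtain ⟨e0, he0⟩ : ∃ e : EuclideanSpace ℝ (Fin d), e ≠ 0 := by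
    refine ⟨EuclideanSpace.single ⟨0, hd⟩ 1, ?_⟩
    intro h0
    have h1 := congrArg (fun x : EuclideanSpace ℝ (Fin d) => x ⟨0, hd⟩) h0
    simp at h1
  obtain ⟨g⟩ : Nonempty (ι ↪ Fin N) := Function.Embedding.nonempty_of_card_le (by simpa using hN)
  obtain ⟨w, hw0, hw⟩ : ∃ w : Fin N → EuclideanSpace ℝ (Fin d), (∀ k, w k ≠ 0) ∧
      ∀ i, v i ≠ 0 → w (g i) = v i := by
    refine ⟨fun k => if hk : ∃ i, g i = k ∧ v i ≠ 0 then v hk.choose else e0, ?_, ?_⟩
    · intro k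
      by_cases hk : ∃ i, g i = k ∧ v i ≠ 0
      · simp only [hk, dif_pos]
        exact hk.choose_spec.2
      · simp only [hk, dif_neg, not_false_eq_true]
        exact he0
    · intro i hi
      have hk : ∃ i', g i' = g i ∧ v i' ≠ 0 := ⟨i, rfl, hi⟩
      simp only [hk, dif_pos]
      rw [g.injective hk.choose_spec.1]
  have h' : ∀ q ∈ frontier K, ∃ k, ∃ t : ℝ, 0 < t ∧ q + t • w k ∈ interior K := by
    intro q hq
    obtain ⟨i, t, ht, hi⟩ := h q hq
    have hv : v i ≠ 0 := by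
      intro h0
      rw [h0, smul_zero, add_zero] at hi
      exact hq.2 hi
    exact ⟨g i, t, ht, by rw [hw i hv]; exact hi⟩
  have hfr : IsCompact (frontier K) := hK.of_isClosed_subset isClosed_frontier hK.isClosed.frontier_subset
  have hev : ∀ᶠ δ in nhds (0 : ℝ), ∀ q ∈ frontier K, ∃ k, ∃ t : ℝ, 0 < t ∧
      q + (t * δ) • q + t • w k ∈ interior K := by
    refine IsCompact.eventually_forall_of_forall_eventually hfr ?_
    intro q₀ hq₀
    obtain ⟨k, t, ht, hk⟩ := h' q₀ hq₀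
    have hcont : Continuous (fun z : ℝ × EuclideanSpace ℝ (Fin d) => z.2 + (t * z.1) • z.2 + t • w k) := by
      fun_prop
    have hmem : (fun z : ℝ × EuclideanSpace ℝ (Fin d) => z.2 + (t * z.1) • z.2 + t • w k) (0, q₀) ∈
        interior K := by
      simpa using hk
    filter_upwards [hcont.continuousAt.preimage_mem_nhds (isOpen_interior.mem_nhds hmem)] with z hz
    exact ⟨k, t, ht, hz⟩
  obtain ⟨M, hM0, hM⟩ : ∃ M : ℝ, 0 < M ∧ ∀ x ∈ K, ‖x‖ ≤ M := by
    obtain ⟨M, hM⟩ := hK.isBounded.exists_norm_le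
    exact ⟨max M 1, lt_max_of_lt_right one_pos, fun x hx => (hM x hx).trans (le_max_left _ _)⟩
  have hev2 : ∀ᶠ δ in nhdsWithin (0 : ℝ) (Set.Ioi 0), ∀ k, -(δ⁻¹ • w k) ∉ K := by
    rw [Filter.eventually_all]
    intro k
    have hwk : 0 < ‖w k‖ := norm_pos_iff.2 (hw0 k)
    filter_upwards [Ioo_mem_nhdsGT (div_pos hwk hM0)] with δ hδ hmem
    have h1 := hM _ hmem
    rw [norm_neg, norm_smul, norm_inv, Real.norm_eq_abs, abs_of_pos hδ.1, inv_mul_le_iff₀ hδ.1] at h1
    have h2 := hδ.2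
    rw [lt_div_iff₀ hM0] at h2
    linarith
  have hev3 : ∀ᶠ δ in nhdsWithin (0 : ℝ) (Set.Ioi 0), 0 < δ := self_mem_nhdsWithin
  obtain ⟨δ, hδ1, hδ2, hδ0⟩ := ((hev.filter_mono nhdsWithin_le_nhds).and (hev2.and hev3)).exists
  refine ⟨fun k => -(δ⁻¹ • w k), hδ2, ?_⟩
  intro q hq
  obtain ⟨k, t, ht, hk⟩ := hδ1 q hq
  refine ⟨k, t * δ, mul_pos ht hδ0, ?_⟩
  have h1 : q + (t * δ) • (q - -(δ⁻¹ • w k)) = q + (t * δ) • q + t • w k := by
    rw [sub_neg_eq_add, smul_add, smul_smul, mul_assoc, mul_inv_cancel₀ hδ0.ne', mul_one, add_assoc]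
  rw [h1]
  exact hk

end Pool.Agent.Lib.MP_5e7226_co.SX
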