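import Pool.Agent.Lib.MP_5e7226_co.SX.Gm1

set_option autoImplicit false

/-! Row Gm3: separation of the faces. -/

namespace Pool.Agent.Lib.MP_5e7226_co.SX

open Finset

variable {d n : ℕ}

theorem coord_cen (b : AffineBasis (Fin n) ℝ (EuclideanSpace ℝ (Fin d))) (j : Fin n) :
    b.coord j (cen b) = 1 / n := by
  have hn : (n : ℝ) ≠ 0 := by exact_mod_cast (n_pos b).ne'
  have hs : ∑ _i : Fin n, (1 / (n : ℝ)) = 1 := by
    simp only [sum_const, card_univ, Fintype.card_fin, nsmul_eq_mul]
    field_simp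
  have h := Finset.affineCombination_eq_linear_combination (univ : Finset (Fin n)) (⇑b) (fun _ => 1 / (n : ℝ)) hs
  have h2 := b.coord_apply_combination_of_mem (s := univ) (mem_univ j) (w := fun _ => 1 / (n : ℝ)) hs
  rw [h] at h2
  exact h2

/-- The separating functional of a vector `z`. -/
noncomputable def wz (b : AffineBasis (Fin n) ℝ (EuclideanSpace ℝ (Fin d))) (z : Fin n → ℝ) :
    EuclideanSpace ℝ (Fin d) →L[ℝ] ℝ :=
  LinearMap.toContinuousLinearMap (∑ j, z j • (b.coord j).linear)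

theorem wz_apply (b : AffineBasis (Fin n) ℝ (EuclideanSpace ℝ (Fin d))) (z : Fin n → ℝ)
    (p : EuclideanSpace ℝ (Fin d)) : wz b z (p - cen b) = ∑ j, co b p j * z j := by
  unfold wz
  rw [LinearMap.coe_toContinuousLinearMap', LinearMap.sum_apply]
  refine sum_congr rfl fun j _ => ?_
  have h : (b.coord j).linear (p - cen b) = b.coord j p - b.coord j (cen b) := by
    have := (b.coord j).linearMap_vsub p (cen b)
    simpa using this
  rw [LinearMap.smul_apply, h, coord_cen, smul_eq_mul, co]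
  ring

theorem fu_smul (b : AffineBasis (Fin n) ℝ (EuclideanSpace ℝ (Fin d)))
    (f : EuclideanSpace ℝ (Fin d) →L[ℝ] ℝ) (c : ℝ) : fu b (c • f) = fun i => c * fu b f i := by
  funext i
  simp only [fu, FunLike.coe_smul, Pi.smul_apply, smul_eq_mul]
  ring

/-- A nonzero functional is not maximal at the centre. -/
theorem lt_max {b : AffineBasis (Fin n) ℝ (EuclideanSpace ℝ (Fin d))}
    {K : Set (EuclideanSpace ℝ (Fin d))} (hK : SymBody b K) {f : EuclideanSpace ℝ (Fin d) →L[ℝ] ℝ}
    (hf : f ≠ 0) {p : EuclideanSpace ℝ (Fin d)} (hp : ∀ y ∈ K, f y ≤ f p) : f (cen b) < f p := by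
  have hc := cen_mem_interior hK
  obtain ⟨v, hv⟩ : ∃ v, f v ≠ 0 := by
    by_contra hcon
    push Not at hcon
    exact hf (by ext v; simpa using hcon v)
  obtain ⟨v, hv⟩ : ∃ v, 0 < f v := by
    rcases lt_or_gt_of_ne hv with h | h
    · exact ⟨-v, by rw [map_neg]; linarith⟩
    · exact ⟨v, h⟩
  rw [mem_interior_iff_mem_nhds] at hc
  have hcont : Continuous (fun t : ℝ => cen b + t • v) := by fun_prop
  have h0 : (fun t : ℝ => cen b + t • v) 0 = cen b := by simp
  have hev : ∀ᶠ t : ℝ in nhds 0, cen b + t • v ∈ K := by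
    have := hcont.continuousAt (x := (0 : ℝ))
    unfold ContinuousAt at this
    rw [h0] at this
    exact this hc
  have hev' : ∀ᶠ t : ℝ in nhdsWithin 0 (Set.Ioi 0), cen b + t • v ∈ K := hev.filter_mono nhdsWithin_le_nhds
  obtain ⟨t, ht, hpos⟩ := (hev'.and self_mem_nhdsWithin).exists
  have h1 := hp _ ht
  rw [map_add, map_smul, smul_eq_mul] at h1
  have h2 : 0 < t * f v := mul_pos hpos hv
  linarith

/-- PROOF. `Sep.of_fintype` with the functionals `w i` with `w i x = ∑ j, z i j * (b.coord j (x + cen b) - 1 / n) ` (linear: the linear part of the affine map `∑ j, z i j • b.coord j`; continuous in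
finite dimension), so `w i (p - cen b) = ∑ j, z i j * co b p j`. For `f ≠ 0` let `s = max_K f`, `s > f (cen b)` (`cen_mem_interior`), `f' = (s - f (cen b))⁻¹ • f`; for every point `p - cen b` of the face
`(co b p, fu b f') ∈ GK b K`; the face is not empty. -/
theorem sep_of_works {b : AffineBasis (Fin n) ℝ (EuclideanSpace ℝ (Fin d))}
    {K : Set (EuclideanSpace ℝ (Fin d))} (hK : SymBody b K) {ι : Type} [Fintype ι] (z : ι → Fin n → ℝ)
    (hz : ∀ q ∈ swp (GK b K), ∃ i, Works (swp (GK b K)) q.1 (z i)) {N : ℕ} (hN : Fintype.card ι ≤ N) :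
    Sep ((fun x => x - cen b) '' K) N := by
  refine Sep.of_fintype (fun i => wz b (z i)) ?_ hN
  intro f hf
  have hne : K.Nonempty := hK.int.mono interior_subset
  obtain ⟨p₀, hp₀, hmax⟩ := hK.compact.exists_isMaxOn hne f.continuous.continuousOn
  have hmax' : ∀ y ∈ K, f y ≤ f p₀ := fun y hy => hmax hy
  have hlt := lt_max hK hf hmax'
  set c : ℝ := (f p₀ - f (cen b))⁻¹ with hc
  have hc0 : 0 < c := inv_pos.2 (by linarith)
  have hcm : c * (f p₀ - f (cen b)) = 1 := inv_mul_cancel₀ (by linarith)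
  have key : ∀ p ∈ K, f p = f p₀ → (co b p, fu b (c • f)) ∈ GK b K := by
    intro p hp hfp
    refine ⟨p, hp, c • f, ?_, ?_, rfl⟩
    · intro y hy
      simp only [FunLike.coe_smul, Pi.smul_apply, smul_eq_mul]
      have := mul_le_mul_of_nonneg_left (hmax' y hy) hc0.le
      linarith
    · simp only [FunLike.coe_smul, Pi.smul_apply, smul_eq_mul]
      rw [hfp]
      linarith
  have hq : (fu b (c • f), co b p₀) ∈ swp (GK b K) := key p₀ hp₀ rfl
  obtain ⟨i, hi⟩ := hz _ hq
  refine ⟨i, ?_⟩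
  rintro x ⟨⟨p, hp, rfl⟩, hm⟩
  have hfp : f p = f p₀ := by
    apply le_antisymm (hmax' p hp)
    have := hm (p₀ - cen b) ⟨p₀, hp₀, rfl⟩
    simp only [map_sub] at this
    linarith
  have h3 := hi (co b p) (key p hp hfp)
  rw [show (fun x => x - cen b) p = p - cen b from rfl, wz_apply]
  exact h3

end Pool.Agent.Lib.MP_5e7226_co.SX
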