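import Pool.Agent.Lib.MP_5e7226_co.SX.Defs

set_option autoImplicit false

/-! Row Bi: the parameters and the count. -/

namespace Pool.Agent.Lib.MP_5e7226_co.SX

open Finset

namespace Bi



/-- partial row sums of Pascal's triangle -/
private def P (n k : ℕ) : ℕ := ∑ s ∈ range k, n.choose s

private theorem P_succ (n k : ℕ) : P n (k + 1) = P n k + n.choose k := by
  unfold P; rw [sum_range_succ]

private theorem P_pascal (n k : ℕ) : P (n + 1) (k + 1) = P n (k + 1) + P n k := by
  induction k with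
  | zero => simp [P]
  | succ k ih =>
    rw [P_succ (n + 1) (k + 1), ih, P_succ n (k + 1), P_succ n k, Nat.choose_succ_succ]
    ring

private theorem P_step (n j : ℕ) (h : n + 1 ≤ 5 * (j + 2)) : P (n + 3) (j + 3) ≤ 8 * P n (j + 2) := by
  have e : P (n + 3) (j + 3) = P n (j + 3) + 3 * P n (j + 2) + 3 * P n (j + 1) + P n j := by
    rw [show n + 3 = (n + 1 + 1) + 1 by ring, show j + 3 = (j + 2) + 1 by ring,
      P_pascal (n + 1 + 1) (j + 2), show j + 2 = (j + 1) + 1 by ring,
      P_pascal (n + 1) (j + 1 + 1), P_pascal (n + 1) (j + 1), P_pascal n (j + 1 + 1),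
      P_pascal n (j + 1), P_pascal n j]
    ring
  have h1 : P n (j + 3) = P n (j + 2) + n.choose (j + 2) := P_succ n (j + 2)
  have h2 : P n (j + 2) = P n (j + 1) + n.choose (j + 1) := P_succ n (j + 1)
  have h3 : P n (j + 1) = P n j + n.choose j := P_succ n j
  have h4 : n.choose (j + 2) ≤ 4 * n.choose (j + 1) := by
    have h5 := Nat.choose_succ_right_eq n (j + 1)
    have h6 : n - (j + 1) ≤ 4 * (j + 1 + 1) := by omega
    have h7 : n.choose (j + 1 + 1) * (j + 1 + 1) ≤ 4 * n.choose (j + 1) * (j + 1 + 1) := by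
      rw [h5]
      calc n.choose (j + 1) * (n - (j + 1)) ≤ n.choose (j + 1) * (4 * (j + 1 + 1)) :=
            Nat.mul_le_mul_left _ h6
        _ = _ := by ring
    exact Nat.le_of_mul_le_mul_right h7 (by omega)
  omega

private theorem central_step (n : ℕ) : (n + 1).choose ((n + 1) / 2) ≤ 2 * n.choose (n / 2) := by
  rcases Nat.eq_zero_or_pos ((n + 1) / 2) with h | h
  · rw [h]; simp
    have := Nat.choose_pos (n := n) (k := n / 2) (Nat.div_le_self _ _)
    omega
  · obtain ⟨m, hm⟩ : ∃ m, (n + 1) / 2 = m + 1 := ⟨(n + 1) / 2 - 1, by omega⟩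
    rw [hm, Nat.choose_succ_succ]
    have h1 := Nat.choose_le_middle m n
    have h2 := Nat.choose_le_middle (m + 1) n
    simp only [Nat.succ_eq_add_one] at *
    omega

/-- number of sets used, plus two -/
private def H (n : ℕ) : ℕ := P n (n / 3 + 1) + P n ((n + 2) / 3) + n.choose (n / 2)

private theorem H_step (n : ℕ) (hn : 4 ≤ n) : H (n + 3) ≤ 8 * H n := by
  unfold H
  have a1 : P (n + 3) ((n + 3) / 3 + 1) ≤ 8 * P n (n / 3 + 1) := by
    obtain ⟨j, hj⟩ : ∃ j, n / 3 + 1 = j + 2 := ⟨n / 3 - 1, by omega⟩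
    rw [show (n + 3) / 3 + 1 = j + 3 by omega, hj]
    exact P_step n j (by omega)
  have a2 : P (n + 3) ((n + 3 + 2) / 3) ≤ 8 * P n ((n + 2) / 3) := by
    obtain ⟨j, hj⟩ : ∃ j, (n + 2) / 3 = j + 2 := ⟨(n + 2) / 3 - 2, by omega⟩
    rw [show (n + 3 + 2) / 3 = j + 3 by omega, hj]
    exact P_step n j (by omega)
  have c1 := central_step n
  have c2 := central_step (n + 1)
  have c3 := central_step (n + 1 + 1)
  have e3 : n + 1 + 1 + 1 = n + 3 := by ring
  rw [e3] at c3
  omega

private theorem H_le (n : ℕ) (hn : 11 ≤ n) : H n ≤ 2 ^ (n - 1) := by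
  induction n using Nat.strong_induction_on with
  | _ n ih =>
    by_cases h : n < 14
    · interval_cases n <;> decide
    · have h1 := ih (n - 3) (by omega) (by omega)
      have h2 := H_step (n - 3) (by omega)
      rw [show n - 3 + 3 = n by omega] at h2
      have h3 : 2 ^ (n - 1) = 8 * 2 ^ (n - 3 - 1) := by
        rw [show n - 1 = (n - 3 - 1) + 3 by omega, pow_add]; ring
      omega

/-- the two filtered sums -/
private theorem low_eq (n : ℕ) : ∑ s ∈ (range (n + 1)).filter (fun s => 3 * s ≤ n), n.choose s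
    = P n (n / 3 + 1) := by
  unfold P
  apply sum_congr _ (fun _ _ => rfl)
  ext s; simp only [mem_filter, mem_range]; omega

private theorem high_eq (n : ℕ) : ∑ s ∈ (range (n + 1)).filter (fun s => 2 * n < 3 * s), n.choose s
    = P n ((n + 2) / 3) := by
  unfold P
  refine sum_nbij' (fun s => n - s) (fun s => n - s) ?_ ?_ ?_ ?_ ?_
  · intro s hs; simp only [mem_filter, mem_range] at *; omega
  · intro s hs; simp only [mem_filter, mem_range] at *; omega
  · intro s hs; simp only [mem_filter, mem_range] at *; omega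
  · intro s hs; simp only [mem_range] at *; omega
  · intro s hs; simp only [mem_filter, mem_range] at *
    exact (Nat.choose_symm (by omega)).symm

private theorem count_le (n : ℕ) (hn : 11 ≤ n) :
    ∑ s ∈ (range (n + 1)).filter (fun s => 3 * s ≤ n), n.choose s
      + ∑ s ∈ (range (n + 1)).filter (fun s => 2 * n < 3 * s), n.choose s
      + n.choose (n / 2) ≤ 2 ^ (n - 1) := by
  rw [low_eq, high_eq]; exact H_le n hn


end Bi

/-- PROOF. `omega` for (a), (b); (c): `b' = p + q - b` satisfies `p < b' < q`; `3 p > n`, `3 q ≤ 2 n`, so `2 p > b'`.., precisely `b b' < p n` since `p n - b b' = ...`: with `s = b - p > 0`, `t = q - b > 0`,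
`b b' = (p + s)(p + t) = p (p + s + t) + s t = p q + s t`, and `p (n - q) ≥ p n / 3 > n² / 9`, `s t ≤ ((q - p)/2)² < (n / 6)²`. -/
theorem par_gen {n : ℕ} (hn : 11 ≤ n) : Par n (n / 3) (2 * n / 3 + 1) := by
  refine ⟨by omega, fun b c h1 h2 h3 h4 => by omega, fun b c p h1 h2 h3 h4 => by omega, ?_⟩
  intro p b q h1 h2 h3 h4
  obtain ⟨s, rfl⟩ : ∃ s, b = p + s := ⟨b - p, by omega⟩
  obtain ⟨t, rfl⟩ : ∃ t, q = p + s + t := ⟨q - (p + s), by omega⟩
  obtain ⟨m, rfl⟩ : ∃ m, n = p + s + t + m := ⟨n - (p + s + t), by omega⟩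
  have e : p + (p + s + t) - (p + s) = p + t := by omega
  rw [e]
  have hs : s < p := by omega
  have ht : t ≤ m := by omega
  have hm : 0 < m := by omega
  have h5 : s * t < p * m := lt_of_le_of_lt (Nat.mul_le_mul_left s ht) (Nat.mul_lt_mul_of_pos_right hs hm)
  nlinarith

theorem par_ten : Par 10 2 7 := by
  refine ⟨by omega, fun b c h1 h2 h3 h4 => by omega, fun b c p h1 h2 h3 h4 => by omega, ?_⟩
  intro p b q h1 h2 h3 h4
  have hp : p < 7 := by omega
  have hb : b < 7 := by omega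
  interval_cases p <;> interval_cases b <;> interval_cases q <;> omega

/-- PROOF. `H(n) = ∑_{s ≤ n/3} C(n,s) + ∑_{2n/3 < s ≤ n} C(n,s) + C(n, n/2)` satisfies `H(n + 3) ≤ 8 H(n)`: three steps of Pascal; the first sum: `A(n+3) = 8 A(n) + C(n,k+1) - 4 C(n,k) - C(n,k-1)`
(`k = n/3`), and `C(n,k+1) ≤ 2 C(n,k)`; the second is `∑_{3 s < n} C(n, s)`, similar; `C(n+3, (n+3)/2) ≤ 8 C(n, n/2)` as `C(m+1, j) ≤ 2 C(m, m/2)`. `H(11) = 926`, `H(12) = 2017`, `H(13) = 3902`. -/
theorem cnt_gen {n : ℕ} (hn : 11 ≤ n) : cnt n (n / 3) (2 * n / 3 + 1) ≤ 2 ^ (n - 1) - 1 := by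
  have h := Bi.count_le n hn
  have e1 : ∑ s ∈ (range (n + 1)).filter (fun s => 3 * s ≤ n), n.choose s
      = 1 + ∑ s ∈ Ico 1 (n / 3 + 1), n.choose s := by
    have h1 : (range (n + 1)).filter (fun s => 3 * s ≤ n) = insert 0 (Ico 1 (n / 3 + 1)) := by
      ext s
      simp only [mem_filter, mem_range, mem_insert, mem_Ico]
      omega
    rw [h1, sum_insert (by simp), Nat.choose_zero_right]
  have e2 : ∑ s ∈ (range (n + 1)).filter (fun s => 2 * n < 3 * s), n.choose s
      = 1 + ∑ s ∈ Ico (2 * n / 3 + 1) n, n.choose s := by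
    have h1 : (range (n + 1)).filter (fun s => 2 * n < 3 * s) = insert n (Ico (2 * n / 3 + 1) n) := by
      ext s
      simp only [mem_filter, mem_range, mem_insert, mem_Ico]
      omega
    rw [h1, sum_insert (by simp), Nat.choose_self]
  rw [e1, e2] at h
  unfold cnt
  omega

theorem cnt_ten : cnt 10 2 7 ≤ 2 ^ 9 - 1 := by
  decide

end Pool.Agent.Lib.MP_5e7226_co.SX
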