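import Pool.Agent.Lib.MP_5e7226_co.SX.Sm1

set_option autoImplicit false

/-! Small dimensions, row Sm61: `n = 6`, case 1 (SXsmall section 6). -/

namespace Pool.Agent.Lib.MP_5e7226_co.SX

open Finset

/-- The six triples `aa'b, aa'b', bb'c, bb'c', cc'a, cc'a'` (pairs `01`, `23`, `45`). -/
def tri : Fin 6 → Finset (Fin 6) := ![{0, 1, 2}, {0, 1, 3}, {2, 3, 4}, {2, 3, 5}, {4, 5, 0}, {4, 5, 1}]

/-- Sm61a. -/
theorem tri_cover : ∀ P : Finset (Fin 6), P.card = 4 → ∃ t, tri t ⊆ P ∧ (tri t).card = 3 := by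
  decide

/-- Sm61b. `(*)` PROOF. SXsmall, Case 1, (*): if `V p ≤ V 1`: `V ≥ V p` on `[1, p]` (`U_mid`), `V ≤ V p` from `p` on (`U_le_after`): `1 ≤ V p * T x`, `V p * T x' ≤ 1`; `U' > U' p'` on `(p', p'+3]`
(`U_gt_after`), `≤` before `p'` (`U_le_before`): `U' p' * T x < 1 ≤ U' p' * T x'`. `V p, U' p' > 0` (`U_pos`). -/
theorem star {G : Set ((Fin 6 → ℝ) × (Fin 6 → ℝ))} (hG : Dual G) {x' u' : Fin 6 → ℝ} {p' : ℕ} (h' : (x', u') ∈ G)
    (hp1 : 1 ≤ p') (hp2 : p' ≤ 2) (hx' : PM 0 (p' + 1) x') (hU' : U u' p' < U u' (p' + 3)) {x v : Fin 6 → ℝ} {p : ℕ}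
    (h : (x, v) ∈ G) (hp : p = 3 ∨ p = 4) (hx : PM (p - 1) 5 x) : U v 1 < U v p := by
  by_contra hcon
  push Not at hcon
  have hTx := T_pos hG h
  have hTx' := T_pos hG h'
  have hA : 1 ≤ U v p * T x := one_le hG h (fun c hc hD => by
    have h1 := hx c hc hD
    exact U_le_after (s := 1) (by omega) (by omega) (by omega) hcon)
  have hB : U v p * T x' ≤ 1 := le_one' hG h h' (fun c hc hD => by
    have h1 := hx' c hc hD
    have h2 := U_mid (u := v) (s := 1) (c := c) (t := p) (by omega) (by omega) (by omega)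
    rwa [min_eq_right hcon] at h2)
  have hC : U u' p' * T x < 1 := lt_one' hG h' h (fun c hc hD => by
    have h1 := hx c hc hD
    exact U_gt_after (t := p' + 3) (by omega) (by omega) (by omega) hU')
  have hD : 1 ≤ U u' p' * T x' := one_le hG h' (fun c hc hD => by
    have h1 := hx' c hc hD
    exact U_le_before (t := p' + 3) (by omega) (by omega) (by omega) hU'.le)
  have hv : 0 < U v p := by
    by_contra hc
    push Not at hc
    nlinarith
  have hu : 0 < U u' p' := by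
    by_contra hc
    push Not at hc
    nlinarith
  have e1 : T x' ≤ T x := le_of_mul_le_mul_left (hB.trans hA) hv
  have e2 : T x < T x' := lt_of_mul_lt_mul_left (hC.trans_le hD) hu.le
  exact absurd e1 (not_le.2 e2)

/-- Sm61c. The vector of an arc. -/
noncomputable def arcz (ε : ℝ) (i k : Fin 6) : Fin 6 → ℝ := fun j => ind {i, k} j + ε * ind {i} j

theorem sum_arcz (ε : ℝ) (i k : Fin 6) (u : Fin 6 → ℝ) :
    ∑ j, u j * arcz ε i k j = su u {i, k} + ε * su u {i} := by
  unfold arcz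
  rw [← sum_ind u {i, k}, ← sum_ind u {i}, mul_sum, ← sum_add_distrib]
  refine sum_congr rfl fun j _ => ?_
  ring

/-- Sm61d. Every pair is an arc in one direction at least; out-degree 3: every 4-set containing `i` contains an out-neighbour of `i`. Arcs `i → i + 1 + t`, `t : Fin 3`. -/
theorem arc_pair : ∀ S : Finset (Fin 6), S.card = 2 → ∃ i : Fin 6, ∃ t : Fin 3, S = {i, i + 1 + (t.castLE (by decide) : Fin 6)} := by
  decide

theorem arc_out : ∀ P : Finset (Fin 6), P.card = 4 → ∀ i ∈ P, ∃ t : Fin 3, i + 1 + (t.castLE (by decide) : Fin 6) ∈ P := by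
  decide

theorem Sm61_closed_ex {X ι : Type*} [TopologicalSpace X] [Finite ι] {p : ι → Prop} {A : ι → Set X}
    (h : ∀ i, IsClosed (A i)) : IsClosed {q | ∃ i, p i ∧ q ∈ A i} := by
  have h1 : {q | ∃ i, p i ∧ q ∈ A i} = ⋃ i ∈ {i | p i}, A i := by
    ext q
    simp
  rw [h1]
  exact (Set.toFinite _).isClosed_biUnion (fun i _ => h i)

/-- The pairs which are strictly served by `ind S`. -/
def Sm61_C (S : Finset (Fin 6)) : Set ((Fin 6 → ℝ) × (Fin 6 → ℝ)) :=
  {q | Top q.2 S} ∪ ({q | ∃ A : Finset (Fin 6) × Finset (Fin 6), (A.1.card = 1 ∧ A.2.card = 3 ∧ A.1 ⊆ S ∧ S ⊆ A.2) ∧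
    q ∈ {q : (Fin 6 → ℝ) × (Fin 6 → ℝ) | Top q.2 A.1} ∩ {q | Top q.2 A.2}} ∪
    {q | ∃ P : Finset (Fin 6), (P.card = 3 ∧ S ⊆ P) ∧
    q ∈ {q : (Fin 6 → ℝ) × (Fin 6 → ℝ) | PM 2 5 q.1} ∩ {q | Top q.2 P}})

theorem Sm61_closed_C (S : Finset (Fin 6)) : IsClosed (Sm61_C S) := by
  refine (closed_top S).union (IsClosed.union ?_ ?_)
  · exact Sm61_closed_ex (fun A => (closed_top A.1).inter (closed_top A.2))
  · exact Sm61_closed_ex (fun A => (closed_pm 2 5).inter (closed_top A))

/-- Sm61e. Case 1. PROOF. Family: `fam 6 0 5` (the six 5-sets; `card_fam` gives 6), `Fin 6 × Fin 3` (arcs, `ε` small), `Fin 6` (triples). For `x` with a level `5`: `fam`. Else `PM 0 5 x`; cases on the levels: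
 2 is a level: `su u S = U 2 > 0` for the strict top set `S` of size 2 (closed set `Top u S`), `arc_pair S`; 
 1 and 3 are levels: `S` between (`mid_pos'`: ℓ = 0, r = 5, b = 2, `2*(1+3-2) < 6` - use `su_mid_ge` and concavity directly, `U 2 ≤ 2 U 1`, `U 2 ≤ (4/3) U 3`), closed set `Top u P`, `Top u Q`;
 least level 3: `S` inside the strict top set of size 3: `su u S ≥ U 3 - U 1 > 0` (`su_sub_ge`, `star` p = 3; closed set `PM 2 5 x`, `Top u P`);
 `{4}`: a triple in the top set (`star` p = 4), no `ε`; `{1}`: `i` the top element: `su u {i, k} ≥ U 1 - U 5 ≥ 0` (`su_sup_ge`, `hW`) and `su u {i} = U 1 > 0`, any `ε > 0`; `{1, 4}`: `arc_out`, `su_mid_ge`: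
 `≥ U 1 + U 4 - U 3 ≥ 0` (`U 3 ≤ 3 U 1`, `U 3 ≤ (3/2) U 4`), `su u {i} > 0`, any `ε > 0`. `ε`: minimum over finitely many compact sets (`eps_unif` with `f > 0`). -/
theorem six_1 {G : Set ((Fin 6 → ℝ) × (Fin 6 → ℝ))} (hG : Dual G)
    (hW : ∀ x u y w, (x, u) ∈ G → PM 0 2 x → (y, w) ∈ G → U w 5 ≤ U u 1) {x' u' : Fin 6 → ℝ} {p' : ℕ}
    (h' : (x', u') ∈ G) (hp1 : 1 ≤ p') (hp2 : p' ≤ 2) (hx' : PM 0 (p' + 1) x') (hU' : U u' p' < U u' (p' + 3)) :
    Served G 30 := by
  classical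
  have hsu : ∀ A : Finset (Fin 6), Continuous fun p : (Fin 6 → ℝ) × (Fin 6 → ℝ) => su p.2 A := by
    intro A
    unfold su
    fun_prop
  -- positivity on `Sm61_C`
  have hC : ∀ S : Finset (Fin 6), S.card = 2 → ∀ x u, (x, u) ∈ G → (x, u) ∈ Sm61_C S → 0 < su u S := by
    intro S hS x u h hq
    have hu : ∑ i, u i = 0 := hG.sum2 _ h
    have h0 := u_ne hG h
    rcases hq with hq | ⟨A, ⟨hA1, hA2, hA3, hA4⟩, hq1, hq2⟩ | ⟨P, ⟨hP1, hP2⟩, hq1, hq2⟩
    · rw [su_top hq, hS]
      exact U_pos hu h0 (by norm_num) (by norm_num)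
    · have h1 := su_mid_ge hq1 hq2 hA3 hA4
      simp only at h1
      rw [hA1, hA2, hS] at h1
      have h2 := U_concave u (a := 0) (b := 1) (c := 2) (by norm_num) (by norm_num) (by norm_num)
      have h3 := U_concave u (a := 2) (b := 3) (c := 6) (by norm_num) (by norm_num) (by norm_num)
      rw [U_zero] at h2
      rw [U_full hu] at h3
      have h4 : 0 < U u 2 := U_pos hu h0 (by norm_num) (by norm_num)
      norm_num at h1 h2 h3
      linarith
    · have h1 := su_sub_ge hq2 hP2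
      rw [hP1, hS] at h1
      have h2 := star hG h' hp1 hp2 hx' hU' h (Or.inl rfl) hq1
      norm_num at h1
      linarith
  -- the choice of `ε`
  have hε : ∀ a : Fin 6 × Fin 3, ∃ ε₀ : ℝ, 0 < ε₀ ∧ ∀ ε, 0 < ε → ε ≤ ε₀ → ∀ x u, (x, u) ∈ G →
      (x, u) ∈ Sm61_C {a.1, a.1 + 1 + (a.2.castLE (by decide) : Fin 6)} →
        0 < su u {a.1, a.1 + 1 + (a.2.castLE (by decide) : Fin 6)} + ε * su u {a.1} := by
    intro a
    have hcard : ({a.1, a.1 + 1 + (a.2.castLE (by decide) : Fin 6)} : Finset (Fin 6)).card = 2 := by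
      revert a
      decide
    obtain ⟨e, he, he'⟩ := eps_unif (hG.compact.inter_right
      (Sm61_closed_C {a.1, a.1 + 1 + (a.2.castLE (by decide) : Fin 6)})) (hsu _) (hsu {a.1})
      (fun q hq => (hC _ hcard q.1 q.2 hq.1 hq.2).le)
      (fun q hq h0 => absurd h0 (hC _ hcard q.1 q.2 hq.1 hq.2).ne')
    exact ⟨e, he, fun ε h1 h2 x u h hq => he' ε h1 h2 (x, u) ⟨h, hq⟩⟩
  choose e he he' using hε
  obtain ⟨ε, hε, hεe⟩ := exists_le_all e he
  refine ⟨(fam 6 0 5) ⊕ ((Fin 6 × Fin 3) ⊕ Fin 6), inferInstance, ?_,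
    Sum.elim (fun S => ind S.1) (Sum.elim (fun a => arcz ε a.1 (a.1 + 1 + (a.2.castLE (by decide) : Fin 6)))
      (fun t => ind (tri t))), ?_⟩
  · rw [Fintype.card_sum, Fintype.card_sum, Fintype.card_prod, Fintype.card_coe, Fintype.card_fin, Fintype.card_fin]
    have h1 := card_fam 6 0 5
    have h2 : (∑ s ∈ Ico 1 (0 + 1), Nat.choose 6 s) + (∑ s ∈ Ico 5 6, Nat.choose 6 s) = 6 := by decide
    omega
  rintro ⟨x, u0⟩ hxu
  show ∃ i, Works G x _
  -- arcs
  have harcC : ∀ S : Finset (Fin 6), S.card = 2 → (∀ u, (x, u) ∈ G → (x, u) ∈ Sm61_C S) →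
      ∃ i, Works G x ((Sum.elim (fun S => ind S.1)
        (Sum.elim (fun a => arcz ε a.1 (a.1 + 1 + (a.2.castLE (by decide) : Fin 6))) (fun t => ind (tri t))) :
        (fam 6 0 5) ⊕ ((Fin 6 × Fin 3) ⊕ Fin 6) → Fin 6 → ℝ) i) := by
    intro S hS hu
    obtain ⟨i, t, hit⟩ := arc_pair S hS
    refine ⟨Sum.inr (Sum.inl (i, t)), fun u h => ?_⟩
    simp only [Sum.elim_inr, Sum.elim_inl]
    rw [sum_arcz]
    exact he' (i, t) ε hε (hεe _) x u h (by rw [← hit]; exact hu u h)
  by_cases hx : PM 0 5 x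
  swap
  · simp only [PM, not_forall] at hx
    obtain ⟨c, hc, hD, hc'⟩ := hx
    rw [mem_Ico] at hc
    obtain ⟨S, hSc, hS⟩ := (D_pos_iff hc.1 hc.2).1 hD
    refine ⟨Sum.inl ⟨S, mem_fam.2 (by omega)⟩, fun u' hu' => ?_⟩
    rw [Sum.elim_inl, sum_ind, su_top (top_of_stop hG hu' hS), hSc]
    exact U_pos (hG.sum2 _ hu') (u_ne hG hu') hc.1 hc.2
  by_cases h2 : 0 < D x 2
  · obtain ⟨S, hSc, hS⟩ := (D_pos_iff (by norm_num) (by norm_num)).1 h2
    exact harcC S hSc (fun u h => Or.inl (top_of_stop hG h hS))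
  by_cases h1 : 0 < D x 1
  · obtain ⟨P, hPc, hP⟩ := (D_pos_iff (by norm_num) (by norm_num)).1 h1
    obtain ⟨a, rfl⟩ := card_eq_one.1 hPc
    by_cases h3 : 0 < D x 3
    · obtain ⟨Q, hQc, hQ⟩ := (D_pos_iff (by norm_num) (by norm_num)).1 h3
      have haQ : {a} ⊆ Q := stop_nested hP hQ (by rw [hPc, hQc]; norm_num)
      obtain ⟨S, hS1, hS2, hS3⟩ := exists_subsuperset_card_eq haQ (n := 2) (by rw [hPc]; norm_num)
        (by rw [hQc]; norm_num)
      exact harcC S hS3 (fun u h => Or.inr (Or.inl ⟨({a}, Q), ⟨hPc, hQc, hS1, hS2⟩,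
        top_of_stop hG h hP, top_of_stop hG h hQ⟩))
    · -- any `ε > 0`
      have hany : ∀ t : Fin 3, (∀ u, (x, u) ∈ G → 0 ≤ su u {a, a + 1 + (t.castLE (by decide) : Fin 6)}) →
          ∃ i, Works G x ((Sum.elim (fun S => ind S.1)
            (Sum.elim (fun a => arcz ε a.1 (a.1 + 1 + (a.2.castLE (by decide) : Fin 6))) (fun t => ind (tri t))) :
            (fam 6 0 5) ⊕ ((Fin 6 × Fin 3) ⊕ Fin 6) → Fin 6 → ℝ) i) := by
        intro t hu
        refine ⟨Sum.inr (Sum.inl (a, t)), fun u h => ?_⟩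
        simp only [Sum.elim_inr, Sum.elim_inl]
        rw [sum_arcz]
        have h5 := hu u h
        have h6 : 0 < su u {a} := by
          rw [su_top (top_of_stop hG h hP), hPc]
          exact U_pos (hG.sum2 _ h) (u_ne hG h) (by norm_num) (by norm_num)
        positivity
      by_cases h4 : 0 < D x 4
      · obtain ⟨Q, hQc, hQ⟩ := (D_pos_iff (by norm_num) (by norm_num)).1 h4
        have haQ : {a} ⊆ Q := stop_nested hP hQ (by rw [hPc, hQc]; norm_num)
        obtain ⟨t, ht⟩ := arc_out Q hQc a (haQ (mem_singleton_self a))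
        refine hany t (fun u h => ?_)
        have hu : ∑ i, u i = 0 := hG.sum2 _ h
        have hsub : ({a, a + 1 + (t.castLE (by decide) : Fin 6)} : Finset (Fin 6)) ⊆ Q := by
          intro b hb
          rw [mem_insert, mem_singleton] at hb
          rcases hb with rfl | rfl
          · exact haQ (mem_singleton_self _)
          · exact ht
        have hcard : ({a, a + 1 + (t.castLE (by decide) : Fin 6)} : Finset (Fin 6)).card = 2 := by
          clear hany ht hsub haQ hPc hP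
          revert a t
          decide
        have h5 := su_mid_ge (top_of_stop hG h hP) (top_of_stop hG h hQ)
          (S := {a, a + 1 + (t.castLE (by decide) : Fin 6)}) (by simp) hsub
        rw [hPc, hQc, hcard] at h5
        have h6 := U_concave u (a := 0) (b := 1) (c := 3) (by norm_num) (by norm_num) (by norm_num)
        have h7 := U_concave u (a := 3) (b := 4) (c := 6) (by norm_num) (by norm_num) (by norm_num)
        rw [U_zero] at h6
        rw [U_full hu] at h7
        norm_num at h5 h6 h7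
        linarith
      · have hx2 : PM 0 2 x := by
          intro c hc hD
          have h5 := hx c hc hD
          have h6 : c ≠ 2 := by rintro rfl; exact h2 hD
          have h7 : c ≠ 3 := by rintro rfl; exact h3 hD
          have h8 : c ≠ 4 := by rintro rfl; exact h4 hD
          omega
        refine hany 0 (fun u h => ?_)
        have hcard : ({a, a + 1 + ((0 : Fin 3).castLE (by decide) : Fin 6)} : Finset (Fin 6)).card = 2 := by
          clear hany hPc hP
          revert a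
          decide
        have h5 := su_sup_ge (hG.sum2 _ h) (top_of_stop hG h hP)
          (S := {a, a + 1 + ((0 : Fin 3).castLE (by decide) : Fin 6)}) (by simp)
        rw [hPc, hcard] at h5
        have h6 := hW x u x u h hx2 h
        rw [show 1 + (6 - 2) = 5 from rfl] at h5
        linarith
  · by_cases h3 : 0 < D x 3
    · obtain ⟨Q, hQc, hQ⟩ := (D_pos_iff (by norm_num) (by norm_num)).1 h3
      obtain ⟨S, hS1, hS2⟩ := exists_subset_card_eq (s := Q) (n := 2) (by rw [hQc]; norm_num)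
      have hx2 : PM 2 5 x := by
        intro c hc hD
        have h5 := hx c hc hD
        have h6 : c ≠ 2 := by rintro rfl; exact h2 hD
        have h7 : c ≠ 1 := by rintro rfl; exact h1 hD
        omega
      exact harcC S hS2 (fun u h => Or.inr (Or.inr ⟨Q, ⟨hQc, hS1⟩, hx2, top_of_stop hG h hQ⟩))
    · have hx3 : PM 3 5 x := by
        intro c hc hD
        have h5 := hx c hc hD
        have h6 : c ≠ 2 := by rintro rfl; exact h2 hD
        have h7 : c ≠ 1 := by rintro rfl; exact h1 hD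
        have h8 : c ≠ 3 := by rintro rfl; exact h3 hD
        omega
      obtain ⟨c, hc, hD⟩ := exists_D_pos' hG hxu
      have hc4 : c = 4 := by
        have := hx3 c hc hD
        omega
      subst hc4
      obtain ⟨P, hPc, hP⟩ := (D_pos_iff (by norm_num) (by norm_num)).1 hD
      obtain ⟨t, ht, htc⟩ := tri_cover P hPc
      refine ⟨Sum.inr (Sum.inr t), fun u h => ?_⟩
      simp only [Sum.elim_inr]
      rw [sum_ind]
      have h5 := su_sub_ge (top_of_stop hG h hP) ht
      rw [hPc, htc] at h5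
      have h6 := star hG h' hp1 hp2 hx' hU' h (Or.inr rfl) hx3
      norm_num at h5
      linarith

end Pool.Agent.Lib.MP_5e7226_co.SX
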