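import Pool.Agent.Lib.MP_5e7226_co.SX.Sm1

set_option autoImplicit false

/-! Small dimensions, row Sm62: `n = 6`, case 2 (SXsmall section 6). -/

namespace Pool.Agent.Lib.MP_5e7226_co.SX

open Finset

private theorem Sm62_conc (u : Fin 6 → ℝ) {c : ℕ} (hc : c + 2 ≤ 6) : U u c + U u (c + 2) ≤ 2 * U u (c + 1) := by
  have h := U_concave u (show c ≤ c + 1 by omega) (show c + 1 ≤ c + 2 by omega) hc
  push_cast at h
  linarith

private theorem Sm62_all {u : Fin 6 → ℝ} (hu : ∑ i, u i = 0) :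
    U u 2 ≤ 2 * U u 1 ∧ U u 1 + U u 3 ≤ 2 * U u 2 ∧ U u 2 + U u 4 ≤ 2 * U u 3 ∧ U u 3 + U u 5 ≤ 2 * U u 4 ∧
      U u 4 ≤ 2 * U u 5 := by
  have h0 := Sm62_conc u (c := 0) (by omega)
  have h1 := Sm62_conc u (c := 1) (by omega)
  have h2 := Sm62_conc u (c := 2) (by omega)
  have h3 := Sm62_conc u (c := 3) (by omega)
  have h4 := Sm62_conc u (c := 4) (by omega)
  have e0 := U_zero u
  have e6 := U_full hu
  norm_num at h0 h1 h2 h3 h4
  refine ⟨by linarith, by linarith, by linarith, by linarith, by linarith⟩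

/-- Sm62a. `(**)`. -/
theorem star2 {G : Set ((Fin 6 → ℝ) × (Fin 6 → ℝ))} (hG : Dual G) {y w : Fin 6 → ℝ} (hy : (y, w) ∈ G)
    (hyP : PM 3 5 y) (hw : U w 4 < U w 1) {x u : Fin 6 → ℝ} {p : ℕ} (h : (x, u) ∈ G) (hp : p = 2 ∨ p = 3)
    (hx : PM 0 (p + 1) x) : U u (p + 2) ≤ U u p := by
  by_contra hcon
  push Not at hcon
  have hTx := T_pos hG h
  have hTy := T_pos hG hy
  have hlev : ∀ c ∈ Ico 1 6, 0 < D y c → c = 4 := by
    intro c hc hD
    have := hyP c hc hD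
    omega
  have h1 : 1 ≤ U u p * T x := by
    refine one_le hG h fun c hc hD => ?_
    have h2 := hx c hc hD
    exact U_le_before (show c ≤ p by omega) (show p < p + 2 by omega) (by omega) hcon.le
  have hUp : 0 < U u p := by
    by_contra hc
    push Not at hc
    have := mul_nonpos_of_nonpos_of_nonneg hc hTx.le
    linarith
  have h2 : U u p * T y < 1 := by
    refine lt_one' hG h hy fun c hc hD => ?_
    rw [hlev c hc hD]
    exact U_gt_after (show p < 4 by omega) (show 4 ≤ p + 2 by omega) (by omega) hcon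
  have h3 : T y < T x := by
    have : U u p * T y < U u p * T x := lt_of_lt_of_le h2 h1
    exact lt_of_mul_lt_mul_left this hUp.le
  have h4 : U w 4 * T x < 1 := by
    refine lt_one' hG hy h fun c hc hD => ?_
    have h5 := hx c hc hD
    exact U_gt_before (show 1 ≤ c by omega) (show c < 4 by omega) (by omega) hw
  have h5 : 1 ≤ U w 4 * T y := one_le hG hy fun c hc hD => by rw [hlev c hc hD]
  have hW4 : 0 < U w 4 := by
    by_contra hc
    push Not at hc
    have := mul_nonpos_of_nonpos_of_nonneg hc hTy.le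
    linarith
  have h6 : T x < T y := by
    have : U w 4 * T x < U w 4 * T y := lt_of_lt_of_le h4 h5
    exact lt_of_mul_lt_mul_left this hW4.le
  exact lt_asymm h3 h6

/-- The vector of a chain. -/
noncomputable def z2 (ε : ℝ) (S : ℕ → Finset (Fin 6)) : Fin 6 → ℝ := fun i =>
  (ind (S 4) i + (1 / 2) * ind (S 1) i) + ε * (ind (S 2) i + ind (S 3) i)

theorem sum_z2 (ε : ℝ) (S : ℕ → Finset (Fin 6)) (u : Fin 6 → ℝ) :
    ∑ i, u i * z2 ε S i = (su u (S 4) + (1 / 2) * su u (S 1)) + ε * (su u (S 2) + su u (S 3)) := by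
  rw [← sum_ind u (S 4), ← sum_ind u (S 1), ← sum_ind u (S 2), ← sum_ind u (S 3), mul_sum, ← sum_add_distrib,
    ← sum_add_distrib, mul_sum, ← sum_add_distrib]
  refine sum_congr rfl fun i _ => ?_
  unfold z2
  ring

/-- Sm62b. The four lines of case 2 (for one chain). `S p` is the largest strict top set of `x`, so `Top u (S p)`. -/
theorem lines2 {G : Set ((Fin 6 → ℝ) × (Fin 6 → ℝ))} (hG : Dual G) {y w : Fin 6 → ℝ} (hy : (y, w) ∈ G)
    (hyP : PM 3 5 y) (hw : U w 4 < U w 1) {S : ℕ → Finset (Fin 6)}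
    (hSc : ∀ j, j ≤ 6 → (S j).card = j) (hSm : ∀ i j, i ≤ j → j ≤ 6 → S i ⊆ S j) {x u : Fin 6 → ℝ} (h : (x, u) ∈ G)
    {p : ℕ} (hp1 : 1 ≤ p) (hp4 : p ≤ 4) (hx : PM 0 (p + 1) x) (hT : Top u (S p)) :
    0 ≤ su u (S 4) + (1 / 2) * su u (S 1) ∧
      (su u (S 4) + (1 / 2) * su u (S 1) = 0 → 0 < su u (S 2) + su u (S 3)) := by
  have hu : ∑ i, u i = 0 := hG.sum2 _ h
  have h0 : u ≠ 0 := u_ne hG h
  obtain ⟨k0, k1, k2, k3, k4⟩ := Sm62_all hu
  have q1 := U_pos hu h0 (c := 1) (by omega) (by omega)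
  have q2 := U_pos hu h0 (c := 2) (by omega) (by omega)
  have q3 := U_pos hu h0 (c := 3) (by omega) (by omega)
  have q4 := U_pos hu h0 (c := 4) (by omega) (by omega)
  have c1 : (S 1).card = 1 := hSc 1 (by omega)
  have c2 : (S 2).card = 2 := hSc 2 (by omega)
  have c3 : (S 3).card = 3 := hSc 3 (by omega)
  have c4 : (S 4).card = 4 := hSc 4 (by omega)
  have s12 : S 1 ⊆ S 2 := hSm 1 2 (by omega) (by omega)
  have s13 : S 1 ⊆ S 3 := hSm 1 3 (by omega) (by omega)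
  have s14 : S 1 ⊆ S 4 := hSm 1 4 (by omega) (by omega)
  have s23 : S 2 ⊆ S 3 := hSm 2 3 (by omega) (by omega)
  have s24 : S 2 ⊆ S 4 := hSm 2 4 (by omega) (by omega)
  have s34 : S 3 ⊆ S 4 := hSm 3 4 (by omega) (by omega)
  have hp : p = 1 ∨ p = 2 ∨ p = 3 ∨ p = 4 := by omega
  rcases hp with rfl | rfl | rfl | rfl
  · -- level 1
    have a1 : su u (S 1) = U u 1 := by rw [su_top hT, c1]
    have a4 := su_sup_ge hu hT s14
    rw [c1, c4] at a4
    norm_num at a4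
    have b1 := pure_max hG (p := 1) h hx hy
    have b4 := pure_max hG (p := 4) hy hyP h
    have hpos : 0 < su u (S 4) + (1 / 2) * su u (S 1) := by
      rw [a1]
      linarith
    exact ⟨hpos.le, fun h => absurd h hpos.ne'⟩
  · -- level 2
    have a2 : su u (S 2) = U u 2 := by rw [su_top hT, c2]
    have a1 := su_sub_ge hT s12
    have a4 := su_sup_ge hu hT s24
    have a3 := su_sup_ge hu hT s23
    rw [c1, c2] at a1
    rw [c2, c4] at a4
    rw [c2, c3] at a3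
    norm_num at a1 a3 a4
    have b := star2 hG hy hyP hw h (Or.inl rfl) hx
    norm_num at b
    rcases le_or_gt (U u 1) (U u 2) with ht | ht
    · refine ⟨by linarith, fun _ => ?_⟩
      rw [a2]
      linarith
    · have hpos : 0 < su u (S 4) + (1 / 2) * su u (S 1) := by linarith
      exact ⟨hpos.le, fun h => absurd h hpos.ne'⟩
  · -- level 3
    have a3 : su u (S 3) = U u 3 := by rw [su_top hT, c3]
    have a1 := su_sub_ge hT s13
    have a2 := su_sub_ge hT s23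
    have a4 := su_sup_ge hu hT s34
    rw [c1, c3] at a1
    rw [c2, c3] at a2
    rw [c3, c4] at a4
    norm_num at a1 a2 a4
    have b := star2 hG hy hyP hw h (Or.inr rfl) hx
    norm_num at b
    rcases le_or_gt (U u 2) (U u 3) with ht | ht
    · refine ⟨by linarith, fun _ => ?_⟩
      rw [a3]
      linarith
    · have hpos : 0 < su u (S 4) + (1 / 2) * su u (S 1) := by linarith
      exact ⟨hpos.le, fun h => absurd h hpos.ne'⟩
  · -- level 4
    have a4 : su u (S 4) = U u 4 := by rw [su_top hT, c4]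
    have a1 := su_sub_ge hT s14
    rw [c1, c4] at a1
    norm_num at a1
    have hpos : 0 < su u (S 4) + (1 / 2) * su u (S 1) := by
      rw [a4]
      linarith
    exact ⟨hpos.le, fun h => absurd h hpos.ne'⟩

private theorem six2_cont (S : Finset (Fin 6)) :
    Continuous (fun q : (Fin 6 → ℝ) × (Fin 6 → ℝ) => su q.2 S) := by
  unfold su
  fun_prop

/-- Sm62c. Case 2. PROOF. Family `fam 6 0 5 ⊕ Fin (Nat.choose 6 3)`, `chain_cover 6`; `eps_unif` for every chain and `p`, compact set `G ∩ {PM 0 (p+1)} ∩ {Top (S p)}`. -/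
theorem six_2 {G : Set ((Fin 6 → ℝ) × (Fin 6 → ℝ))} (hG : Dual G) {y w : Fin 6 → ℝ} (hy : (y, w) ∈ G)
    (hyP : PM 3 5 y) (hw : U w 4 < U w 1) : Served G 26 := by
  classical
  obtain ⟨S, hSc, hSm, hcov⟩ := chain_cover 6
  refine ⟨(fam 6 0 5) ⊕ Fin (Nat.choose 6 (6 / 2)), inferInstance, ?_, ?_⟩
  · rw [Fintype.card_sum, Fintype.card_coe, Fintype.card_fin]
    have h1 := card_fam 6 0 5
    have h2 : (∑ s ∈ Ico 1 (0 + 1), Nat.choose 6 s) + (∑ s ∈ Ico 5 6, Nat.choose 6 s) = 6 := by decide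
    have h3 : Nat.choose 6 (6 / 2) = 20 := by decide
    omega
  have hK : ∀ (c : Fin (Nat.choose 6 (6 / 2))) (p : Fin 4), ∃ ε₀ : ℝ, 0 < ε₀ ∧ ∀ ε, 0 < ε → ε ≤ ε₀ →
      ∀ q ∈ G ∩ ({q | PM 0 ((p : ℕ) + 2) q.1} ∩ {q | Top q.2 (S c ((p : ℕ) + 1))}),
        0 < (su q.2 (S c 4) + (1 / 2) * su q.2 (S c 1)) + ε * (su q.2 (S c 2) + su q.2 (S c 3)) := by
    intro c p
    refine eps_unif (hG.compact.inter_right ((closed_pm _ _).inter (closed_top _)))
      ((six2_cont _).add (continuous_const.mul (six2_cont _))) ((six2_cont _).add (six2_cont _)) ?_ ?_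
    · rintro ⟨x, u⟩ ⟨h1, h2, h3⟩
      exact (lines2 hG hy hyP hw (hSc c) (hSm c) h1 (p := (p : ℕ) + 1) (by omega) (by omega) h2 h3).1
    · rintro ⟨x, u⟩ ⟨h1, h2, h3⟩
      exact (lines2 hG hy hyP hw (hSc c) (hSm c) h1 (p := (p : ℕ) + 1) (by omega) (by omega) h2 h3).2
  choose e he he' using hK
  obtain ⟨ε, hε, hεe⟩ := exists_le_all (fun i : Fin (Nat.choose 6 (6 / 2)) × Fin 4 => e i.1 i.2)
    (fun i => he i.1 i.2)
  refine ⟨Sum.elim (fun S => ind S.1) (fun c => z2 ε (S c)), ?_⟩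
  rintro ⟨x, u⟩ hq
  by_cases hx : PM 0 5 x
  swap
  · simp only [PM, not_forall] at hx
    obtain ⟨c, hc, hD, hc'⟩ := hx
    rw [mem_Ico] at hc
    obtain ⟨S, hSc, hS⟩ := (D_pos_iff hc.1 hc.2).1 hD
    refine ⟨Sum.inl ⟨S, mem_fam.2 (by omega)⟩, fun u' hu' => ?_⟩
    rw [Sum.elim_inl, sum_ind, su_top (top_of_stop hG hu' hS), hSc]
    exact U_pos (hG.sum2 _ hu') (u_ne hG hu') hc.1 hc.2
  · -- the largest level
    have hne : ((Ico 1 6).filter (fun c => 0 < D x c)).Nonempty := by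
      obtain ⟨c, hc, hD⟩ := exists_D_pos' hG hq
      exact ⟨c, mem_filter.2 ⟨hc, hD⟩⟩
    obtain ⟨p, hp, hmax⟩ := exists_max_image _ (fun c : ℕ => c) hne
    rw [mem_filter, mem_Ico] at hp
    have hp5 := hx p (mem_Ico.2 hp.1) hp.2
    obtain ⟨P, hPc, hP⟩ := (D_pos_iff hp.1.1 hp.1.2).1 hp.2
    obtain ⟨c, hc⟩ := hcov P
    rw [hPc] at hc
    have hp1 : p - 1 + 1 = p := by omega
    have hp2 : p - 1 + 2 = p + 1 := by omega
    have hPM : PM 0 (p + 1) x := by
      intro d hd hD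
      have h1 := hmax d (mem_filter.2 ⟨hd, hD⟩)
      rw [mem_Ico] at hd
      omega
    refine ⟨Sum.inr c, fun u' hu' => ?_⟩
    rw [Sum.elim_inr, sum_z2]
    refine he' c ⟨p - 1, by omega⟩ ε hε (hεe (c, ⟨p - 1, by omega⟩)) (x, u') ⟨hu', ?_, ?_⟩
    · show PM 0 (p - 1 + 2) x
      rw [hp2]; exact hPM
    · show Top u' (S c (p - 1 + 1))
      rw [hp1, hc]; exact top_of_stop hG hu' hP

end Pool.Agent.Lib.MP_5e7226_co.SX
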