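import Pool.Agent.Lib.MP_5e7226_co.SX.Sm1

set_option autoImplicit false

/-! Small dimensions, row Sm63: `n = 6`, case 3 (SXsmall section 6). -/

namespace Pool.Agent.Lib.MP_5e7226_co.SX

open Finset

/-- The 24 chains: `fl t i = [i, ..]` (first four elements), `t : Fin 4`, `i : Fin 6`. -/
def fl (c : Fin 4 × Fin 6) : List (Fin 6) :=
  match c with
  | (0, i) => [i, i + 1, i + 5, i + 3]
  | (1, i) => [i, i + 2, i + 3, i + 1]
  | (2, i) => [i, i + 2, i + 4, i + 1]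
  | (3, i) => [i, i + 3, i + 4, i + 1]

/-- The sets of the chain `c`. -/
def ff (c : Fin 4 × Fin 6) (j : ℕ) : Finset (Fin 6) := ((fl c).take j).toFinset

theorem ff_card : ∀ c, ∀ j : Fin 5, (ff c j).card = j := by decide

theorem ff_mono : ∀ c, ∀ i j : Fin 5, i ≤ j → ff c i ⊆ ff c j := by decide

theorem ff_cover : ∀ A : Finset (Fin 6), 1 ≤ A.card → A.card ≤ 4 → ∃ c, ff c A.card = A := by decide

theorem ff_R : ∀ P : Finset (Fin 6), P.card = 4 → ∀ i ∈ P, ∃ c, ff c 1 = {i} ∧ ff c 3 ⊆ P := by decide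

/-- The weights of case 3: `(λ₁, λ₂, λ₄)`. -/
def W3 (G : Set ((Fin 6 → ℝ) × (Fin 6 → ℝ))) (a b c : ℝ) : Prop :=
  (a = 1 ∧ b = 1 / 4 ∧ c = 1 ∧ ∀ x u, (x, u) ∈ G → PM 0 3 x → U u 5 = U u 2 → ∀ j, 2 ≤ j → j ≤ 5 → U u j = U u 2) ∨
  (a = 1 ∧ b = 1 ∧ c = 1 / 2 ∧ ∀ x u, (x, u) ∈ G → PM 3 5 x → U u 1 = U u 4 → ∀ j, 1 ≤ j → j ≤ 4 → U u j = U u 4)

/-- Sm63a. C1 / C2. PROOF. If every pure 4 `(y, w)` with `W 1 = W 4` is constant on `[1, 4]`: second. Else some `(y, w)` is not (so `W > W 4` at 2, 3: `U_gt_between`, and `W 4` is pure). First: let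
`U 5 = U 2` not constant on `[2, 5]`: `U 3, U 4 > U 2`, `U 1 ≤ U 2`: `1 ≤ U 2 * T x`, `U 2 * T y < U 4 * T y ≤ 1` (`T y < T x`); `W 4 * T x ≤ 1 = W 4 * T y` (`one_le`). Contradiction. -/
theorem W3_or {G : Set ((Fin 6 → ℝ) × (Fin 6 → ℝ))} (hG : Dual G) :
    ∃ a b c : ℝ, 0 < a ∧ 0 < b ∧ 0 < c ∧ W3 G a b c := by
  classical
  by_cases h : ∀ x u, (x, u) ∈ G → PM 3 5 x → U u 1 = U u 4 → ∀ j, 1 ≤ j → j ≤ 4 → U u j = U u 4
  · exact ⟨1, 1, 1 / 2, one_pos, one_pos, by norm_num, Or.inr ⟨rfl, rfl, rfl, h⟩⟩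
  · refine ⟨1, 1 / 4, 1, one_pos, by norm_num, one_pos, Or.inl ⟨rfl, rfl, rfl, ?_⟩⟩
    push Not at h
    obtain ⟨y, w, hy, hyp, hw, j₀, hj1, hj2, hj3⟩ := h
    intro x u hx hxp hU
    by_contra hcon
    have hnc : ¬ ∀ c, 2 ≤ c → c ≤ 5 → U u c = U u 5 := by
      intro h1
      apply hcon
      intro j h2 h3
      rw [h1 j h2 h3, hU]
    have g4 : U u 5 < U u 4 := U_gt_between (s := 2) (t := 5) (by norm_num) hU.symm hnc (by norm_num) (by norm_num)
    rw [hU] at g4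
    have a1 := one_le hG hx (a := U u 2) (fun c hc hD => by
      have := hxp c hc hD
      exact U_le_before (t := 4) (by omega) (by norm_num) (by norm_num) g4.le)
    have a2 := le_one' hG hx hy (a := U u 4) (fun c hc hD => by
      have := hyp c hc hD
      have hc4 : c = 4 := by omega
      rw [hc4])
    have a3 := le_one' hG hy hx (a := U w 4) (fun c hc hD => by
      have := hxp c hc hD
      have := U_mid (u := w) (s := 1) (c := c) (t := 4) (by omega) (by omega) (by norm_num)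
      rwa [hw, min_self] at this)
    have a4 := one_le hG hy (a := U w 4) (fun c hc hD => by
      have := hyp c hc hD
      have hc4 : c = 4 := by omega
      rw [hc4])
    have t1 := T_pos hG hx
    have t2 := T_pos hG hy
    have p1 : 0 < U u 2 := U_pos (hG.sum2 _ hx) (u_ne hG hx) (by norm_num) (by norm_num)
    have p2 : 0 < U w 4 := U_pos (hG.sum2 _ hy) (u_ne hG hy) (by norm_num) (by norm_num)
    have c1 : T x ≤ T y := le_of_mul_le_mul_left (a3.trans a4) p2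
    have c2 : U u 2 * T y < U u 4 * T y := mul_lt_mul_of_pos_right g4 t2
    have c3 : T y < T x := lt_of_mul_lt_mul_left (show U u 2 * T y < U u 2 * T x by linarith) p1.le
    linarith

/-- The vector of a chain. -/
noncomputable def z3 (a b c ε : ℝ) (S : ℕ → Finset (Fin 6)) : Fin 6 → ℝ := fun i =>
  ind (S 3) i + ε * (a * ind (S 1) i + b * ind (S 2) i + c * ind (S 4) i)

theorem sum_z3 (a b c ε : ℝ) (S : ℕ → Finset (Fin 6)) (u : Fin 6 → ℝ) :
    ∑ i, u i * z3 a b c ε S i = su u (S 3) + ε * (a * su u (S 1) + b * su u (S 2) + c * su u (S 4)) := by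
  rw [← sum_ind u (S 3), ← sum_ind u (S 1), ← sum_ind u (S 2), ← sum_ind u (S 4)]
  simp only [mul_sum, ← sum_add_distrib]
  refine sum_congr rfl fun i _ => ?_
  unfold z3
  ring

private theorem be_su_sdiff {u : Fin 6 → ℝ} {A B : Finset (Fin 6)} (h : A ⊆ B) :
    su u B = su u A + su u (B \ A) := by
  unfold su
  rw [add_comm]
  exact (sum_sdiff h).symm

/-- One more element. -/
private theorem be_step {u : Fin 6 → ℝ} {A B : Finset (Fin 6)} (h : A ⊆ B) (hc : B.card = A.card + 1) :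
    ∃ v ∈ B, v ∉ A ∧ su u B = su u A + u v := by
  have h1 : (B \ A).card = 1 := by rw [card_sdiff_of_subset h]; omega
  obtain ⟨v, hv⟩ := card_eq_one.1 h1
  have hv' : v ∈ B \ A := by rw [hv]; exact mem_singleton_self v
  rw [mem_sdiff] at hv'
  refine ⟨v, hv'.1, hv'.2, ?_⟩
  rw [be_su_sdiff h, hv]
  unfold su
  rw [sum_singleton]

private theorem be_compl {u : Fin 6 → ℝ} (hu : ∑ i, u i = 0) (A : Finset (Fin 6)) : su u Aᶜ = - su u A := by
  have := sum_add_sum_compl A u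
  unfold su
  rw [hu] at this
  linarith

private theorem be_entry {u : Fin 6 → ℝ} (hu : ∑ i, u i = 0) (v : Fin 6) : -U u 5 ≤ u v := by
  have := su_ge hu {v}
  rw [card_singleton] at this
  unfold su at this
  rwa [sum_singleton] at this

/-- The two-element bound. -/
private theorem be_two {u : Fin 6 → ℝ} {A : Finset (Fin 6)} (hA : A.card = 2) {v : Fin 6} (h : ∀ j ∈ A, u j ≤ u v) :
    su u A ≤ 2 * u v := by
  have h1 : su u A ≤ A.card • u v := sum_le_card_nsmul A u (u v) h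
  rw [hA, nsmul_eq_mul] at h1
  exact_mod_cast h1

/-- Sm63b. Line {1, 4}. -/
theorem line14 {G : Set ((Fin 6 → ℝ) × (Fin 6 → ℝ))} (hG : Dual G) {a b c : ℝ} (hw : W3 G a b c)
    {S : ℕ → Finset (Fin 6)} (hSc : ∀ j, j ≤ 4 → (S j).card = j) (hSm : ∀ i j, i ≤ j → j ≤ 4 → S i ⊆ S j)
    {u : Fin 6 → ℝ} (hu : ∑ i, u i = 0) (h0 : u ≠ 0) (hT : Top u (S 1)) {P : Finset (Fin 6)} (hP : P.card = 4)
    (hSP : S 3 ⊆ P) (hTP : Top u P) :
    0 ≤ su u (S 3) ∧ (su u (S 3) = 0 → 0 < a * su u (S 1) + b * su u (S 2) + c * su u (S 4)) := by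
  have c1 := hSc 1 (by norm_num)
  have c2 := hSc 2 (by norm_num)
  have c3 := hSc 3 (by norm_num)
  have c4 := hSc 4 (by norm_num)
  have h1 := su_mid_ge hT hTP (hSm 1 3 (by norm_num) (by norm_num)) hSP
  rw [c1, hP, c3] at h1
  norm_num at h1
  have k1 := U_concave u (a := 0) (b := 1) (c := 2) (by norm_num) (by norm_num) (by norm_num)
  have k2 := U_concave u (a := 2) (b := 4) (c := 6) (by norm_num) (by norm_num) (by norm_num)
  have k3 := U_concave u (a := 2) (b := 4) (c := 5) (by norm_num) (by norm_num) (by norm_num)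
  rw [U_zero] at k1
  rw [U_full hu] at k2
  push_cast at k1 k2 k3
  have hU2 := U_pos hu h0 (c := 2) (by norm_num) (by norm_num)
  refine ⟨by linarith, fun h2 => ?_⟩
  have e1 : U u 1 = U u 2 / 2 := by linarith
  have e4 : U u 4 = U u 2 / 2 := by linarith
  have s1 : su u (S 1) = U u 2 / 2 := by rw [su_top hT, c1, e1]
  obtain ⟨v, -, -, hv⟩ := be_step (u := u) (hSm 1 2 (by norm_num) (by norm_num)) (by rw [c1, c2])
  obtain ⟨w, -, -, hw4⟩ := be_step (u := u) (hSm 3 4 (by norm_num) (by norm_num)) (by rw [c3, c4])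
  have hv5 := be_entry hu v
  have hw5 := be_entry hu w
  have s2 : 0 ≤ su u (S 2) := by rw [hv]; linarith
  have s4 : -(U u 2 / 4) ≤ su u (S 4) := by rw [hw4]; linarith
  rcases hw with ⟨rfl, rfl, rfl, -⟩ | ⟨rfl, rfl, rfl, -⟩ <;> linarith

/-- Sm63c. Line {4}: all levels are 4. -/
theorem line4 {G : Set ((Fin 6 → ℝ) × (Fin 6 → ℝ))} (hG : Dual G)
    (hn2 : ∀ x u, (x, u) ∈ G → PM 3 5 x → U u 1 ≤ U u 4) {a b c : ℝ} (hw : W3 G a b c)
    {S : ℕ → Finset (Fin 6)} (hSc : ∀ j, j ≤ 4 → (S j).card = j) (hSm : ∀ i j, i ≤ j → j ≤ 4 → S i ⊆ S j)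
    {x u : Fin 6 → ℝ} (h : (x, u) ∈ G) (hx : PM 3 5 x) (hT : Top u (S 4)) :
    0 ≤ su u (S 3) ∧ (su u (S 3) = 0 → 0 < a * su u (S 1) + b * su u (S 2) + c * su u (S 4)) := by
  have c1 := hSc 1 (by norm_num)
  have c2 := hSc 2 (by norm_num)
  have c3 := hSc 3 (by norm_num)
  have c4 := hSc 4 (by norm_num)
  have hu := hG.sum2 _ h
  have h0 := u_ne hG h
  have hle := hn2 x u h hx
  obtain ⟨t1, t2⟩ := typeII hu h0 hT (hSm 3 4 (by norm_num) (by norm_num)) (by rw [c3]; norm_num)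
    (by rw [c3, c4]; norm_num) (by rw [c4]; norm_num) (by rw [c3, c4]; exact hle)
  refine ⟨t1, fun h2 => ?_⟩
  obtain ⟨q1, -, -, q4, -, q6⟩ := t2 h2
  rw [c3, c4] at q1 q6
  norm_num at q1 q6
  have m1 : S 1 ⊆ S 3 := hSm 1 3 (by norm_num) (by norm_num)
  have m2 : S 2 ⊆ S 3 := hSm 2 3 (by norm_num) (by norm_num)
  rcases hw with ⟨rfl, rfl, rfl, -⟩ | ⟨rfl, rfl, rfl, hcst⟩
  · -- entries of `S 4` are at least `-U 4 / 2`
    have hent : ∀ v ∈ S 4, -su u (S 4) ≤ 2 * u v := by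
      intro v hv
      rw [← be_compl hu]
      refine be_two ?_ ?_
      · rw [card_compl, c4, Fintype.card_fin]
      · intro j hj
        exact hT v hv j (mem_compl.1 hj)
    have m0 : S 0 ⊆ S 1 := hSm 0 1 (by norm_num) (by norm_num)
    have c0 := hSc 0 (by norm_num)
    have s0 : su u (S 0) = 0 := by rw [card_eq_zero.1 c0]; unfold su; rw [sum_empty]
    obtain ⟨v, hv1, -, hv⟩ := be_step (u := u) m0 (by rw [c0, c1])
    obtain ⟨w, hw1, -, hw⟩ := be_step (u := u) (hSm 1 2 (by norm_num) (by norm_num)) (by rw [c1, c2])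
    have e1 := hent v (hSm 1 4 (by norm_num) (by norm_num) hv1)
    have e2 := hent w (hSm 2 4 (by norm_num) (by norm_num) hw1)
    rw [s0] at hv
    rw [hw, hv]
    linarith
  · have hc := q6 (hcst x u h hx q1)
    rw [hc _ m1, hc _ m2]
    linarith

/-- Sm63d. Line {1}. -/
theorem line1 {G : Set ((Fin 6 → ℝ) × (Fin 6 → ℝ))} (hG : Dual G)
    (hn1 : ∀ x u p, (x, u) ∈ G → 1 ≤ p → p ≤ 2 → PM 0 (p + 1) x → U u (p + 3) ≤ U u p) {a b c : ℝ} (hw : W3 G a b c)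
    {S : ℕ → Finset (Fin 6)} (hSc : ∀ j, j ≤ 4 → (S j).card = j) (hSm : ∀ i j, i ≤ j → j ≤ 4 → S i ⊆ S j)
    {x u : Fin 6 → ℝ} (h : (x, u) ∈ G) (hx : PM 0 2 x) (hT : Top u (S 1)) :
    0 ≤ su u (S 3) ∧ (su u (S 3) = 0 → 0 < a * su u (S 1) + b * su u (S 2) + c * su u (S 4)) := by
  have c1 := hSc 1 (by norm_num)
  have c2 := hSc 2 (by norm_num)
  have c3 := hSc 3 (by norm_num)
  have c4 := hSc 4 (by norm_num)
  have hu := hG.sum2 _ h
  have h0 := u_ne hG h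
  have hle := hn1 x u 1 h (by norm_num) (by norm_num) hx
  norm_num at hle
  have m13 : S 1 ⊆ S 3 := hSm 1 3 (by norm_num) (by norm_num)
  obtain ⟨t1, t2⟩ := typeIII hu h0 hT m13 (by rw [c1]; norm_num)
    (by rw [c3, c1]; norm_num) (by rw [c3]; norm_num) (by rw [c3, c1]; exact hle)
  refine ⟨t1, fun h2 => ?_⟩
  obtain ⟨q1, q2, -, q4, -, -⟩ := t2 h2
  rw [c3, c1] at q1
  norm_num at q1
  have s2 : 0 ≤ su u (S 2) := q2 _ (hSm 1 2 (by norm_num) (by norm_num)) (hSm 2 3 (by norm_num) (by norm_num))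
  -- `S 1 ∪ (S 3)ᶜ` is a top set
  have hdis : Disjoint (S 1) (S 3)ᶜ := by
    rw [disjoint_left]
    intro i hi hi'
    exact (mem_compl.1 hi') (m13 hi)
  have hsum : su u (S 1 ∪ (S 3)ᶜ) = su u (S 1) := by
    have e1 : su u (S 1 ∪ (S 3)ᶜ) = su u (S 1) + su u (S 3)ᶜ := by unfold su; exact sum_union hdis
    rw [e1, be_compl hu, h2]; ring
  have hcard : (S 1 ∪ (S 3)ᶜ).card = 4 := by
    rw [card_union_of_disjoint hdis, card_compl, c1, c3, Fintype.card_fin]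
  have htop : Top u (S 1 ∪ (S 3)ᶜ) := top_of_eq (by rw [hsum, hcard, q1, su_top hT, c1])
  obtain ⟨v, -, hv3, hv⟩ := be_step (u := u) (hSm 3 4 (by norm_num) (by norm_num)) (by rw [c3, c4])
  have hsd : su u (S 3 \ S 1) = - su u (S 1) := by
    have := be_su_sdiff (u := u) m13
    linarith
  have hv2 : -su u (S 1) ≤ 2 * u v := by
    rw [← hsd]
    refine be_two ?_ ?_
    · rw [card_sdiff_of_subset m13, c3, c1]
    · intro j hj
      rw [mem_sdiff] at hj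
      refine htop v (mem_union_right _ (mem_compl.2 hv3)) j ?_
      rw [mem_union, mem_compl]
      push Not
      exact ⟨hj.2, hj.1⟩
  rw [h2, zero_add] at hv
  rcases hw with ⟨rfl, rfl, rfl, -⟩ | ⟨rfl, rfl, rfl, -⟩ <;> rw [hv] <;> linarith

/-- Sm63e. Line max 2. -/
theorem line2 {G : Set ((Fin 6 → ℝ) × (Fin 6 → ℝ))} (hG : Dual G)
    (hn1 : ∀ x u p, (x, u) ∈ G → 1 ≤ p → p ≤ 2 → PM 0 (p + 1) x → U u (p + 3) ≤ U u p) {a b c : ℝ} (hw : W3 G a b c)
    {S : ℕ → Finset (Fin 6)} (hSc : ∀ j, j ≤ 4 → (S j).card = j) (hSm : ∀ i j, i ≤ j → j ≤ 4 → S i ⊆ S j)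
    {x u : Fin 6 → ℝ} (h : (x, u) ∈ G) (hx : PM 0 3 x) (hT : Top u (S 2)) :
    0 ≤ su u (S 3) ∧ (su u (S 3) = 0 → 0 < a * su u (S 1) + b * su u (S 2) + c * su u (S 4)) := by
  have c1 := hSc 1 (by norm_num)
  have c2 := hSc 2 (by norm_num)
  have c3 := hSc 3 (by norm_num)
  have c4 := hSc 4 (by norm_num)
  have hu := hG.sum2 _ h
  have h0 := u_ne hG h
  have hle := hn1 x u 2 h (by norm_num) (by norm_num) hx
  norm_num at hle
  have m23 : S 2 ⊆ S 3 := hSm 2 3 (by norm_num) (by norm_num)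
  have m34 : S 3 ⊆ S 4 := hSm 3 4 (by norm_num) (by norm_num)
  obtain ⟨t1, t2⟩ := typeIII hu h0 hT m23 (by rw [c2]; norm_num)
    (by rw [c3, c2]; norm_num) (by rw [c3]; norm_num) (by rw [c3, c2]; exact hle)
  refine ⟨t1, fun h2 => ?_⟩
  obtain ⟨q1, -, q3, q4, q5, q6⟩ := t2 h2
  have s1 := q3 _ (hSm 1 2 (by norm_num) (by norm_num))
  have s4 := q5 _ m34
  rw [c3, c4] at s4
  rw [c3, c2] at q1 q6
  norm_num at q1 q6 s4
  rcases hw with ⟨rfl, rfl, rfl, hcst⟩ | ⟨rfl, rfl, rfl, -⟩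
  · have hc := q6 (hcst x u h hx q1)
    rw [hc _ m34]
    linarith
  · linarith

end Pool.Agent.Lib.MP_5e7226_co.SX
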