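import Pool.Agent.Lib.MP_5e7226_co.SX.Sm2
import Pool.Agent.Lib.MP_5e7226_co.SX.Sm63

set_option autoImplicit false

/-! Small dimensions, row Sm63f: `n = 6`, case 3, assembly. -/

namespace Pool.Agent.Lib.MP_5e7226_co.SX

open Finset

private theorem f_card (c : Fin 4 × Fin 6) {j : ℕ} (h : j ≤ 4) : (ff c j).card = j := by
  have := ff_card c ⟨j, by omega⟩
  exact this

private theorem f_mono (c : Fin 4 × Fin 6) {i j : ℕ} (h1 : i ≤ j) (h2 : j ≤ 4) : ff c i ⊆ ff c j :=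
  ff_mono c ⟨i, by omega⟩ ⟨j, by omega⟩ (by exact h1)

theorem six_3 {G : Set ((Fin 6 → ℝ) × (Fin 6 → ℝ))} (hG : Dual G)
    (hn1 : ∀ x u p, (x, u) ∈ G → 1 ≤ p → p ≤ 2 → PM 0 (p + 1) x → U u (p + 3) ≤ U u p)
    (hn2 : ∀ x u, (x, u) ∈ G → PM 3 5 x → U u 1 ≤ U u 4) : Served G 30 := by
  classical
  obtain ⟨a, b, d, ha, hb, hd, hw⟩ := W3_or hG
  refine ⟨(fam 6 0 5) ⊕ (Fin 4 × Fin 6), inferInstance, ?_, ?_⟩
  · rw [Fintype.card_sum, Fintype.card_coe, Fintype.card_prod, Fintype.card_fin, Fintype.card_fin]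
    have h1 := card_fam 6 0 5
    have h2 : (∑ s ∈ Ico 1 (0 + 1), (6 : ℕ).choose s) + (∑ s ∈ Ico 5 6, (6 : ℕ).choose s) = 6 := by decide
    omega
  set f : Fin 4 × Fin 6 → (Fin 6 → ℝ) → ℝ := fun c u => su u (ff c 3) with hf
  set g : Fin 4 × Fin 6 → (Fin 6 → ℝ) → ℝ :=
    fun c u => a * su u (ff c 1) + b * su u (ff c 2) + d * su u (ff c 4) with hg
  have hsc : ∀ A : Finset (Fin 6), Continuous fun p : (Fin 6 → ℝ) × (Fin 6 → ℝ) => su p.2 A := continuous_su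
  have hfc : ∀ c, Continuous fun p : (Fin 6 → ℝ) × (Fin 6 → ℝ) => f c p.2 := fun c => hsc _
  have hgc : ∀ c, Continuous fun p : (Fin 6 → ℝ) × (Fin 6 → ℝ) => g c p.2 := fun c =>
    ((continuous_const.mul (hsc _)).add (continuous_const.mul (hsc _))).add (continuous_const.mul (hsc _))
  -- 3 is a level
  have kA : ∀ c : Fin 4 × Fin 6, ∃ e : ℝ, 0 < e ∧ ∀ ε, 0 < ε → ε ≤ e → ∀ x u, (x, u) ∈ G → PM 0 5 x →
      Top u (ff c 3) → 0 < f c u + ε * g c u := by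
    intro c
    obtain ⟨e, he, h⟩ := eps_one hG 0 5 (ff c 3) (ff c 3) (hfc c) (hgc c) (fun x u hx _ hP _ => by
      have h3 : su u (ff c 3) = U u 3 := by rw [su_top hP, f_card c (by norm_num)]
      have h4 : 0 < f c u := by
        show 0 < su u (ff c 3)
        rw [h3]
        exact U_pos (hG.sum2 _ hx) (u_ne hG hx) (by norm_num) (by norm_num)
      exact ⟨h4.le, fun h0 => absurd h0 h4.ne'⟩)
    exact ⟨e, he, fun ε h1 h2 x u hx hp hP => h ε h1 h2 x u hx hp hP hP⟩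
  -- 2 and 4 are levels
  have kB : ∀ t : (Fin 4 × Fin 6) × (Finset (Fin 6) × Finset (Fin 6)), ∃ e : ℝ, 0 < e ∧ ∀ ε, 0 < ε → ε ≤ e →
      ∀ x u, (x, u) ∈ G → PM 0 5 x → t.2.1.card = 2 → t.2.2.card = 4 → t.2.1 ⊆ ff t.1 3 → ff t.1 3 ⊆ t.2.2 →
      Top u t.2.1 → Top u t.2.2 → 0 < f t.1 u + ε * g t.1 u := by
    rintro ⟨c, P, Q⟩
    by_cases hcond : P.card = 2 ∧ Q.card = 4 ∧ P ⊆ ff c 3 ∧ ff c 3 ⊆ Q
    · obtain ⟨c1, c2, c3, c4⟩ := hcond
      obtain ⟨e, he, h⟩ := eps_one hG 0 5 P Q (hfc c) (hgc c) (fun x u hx _ hP hQ => by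
        have hu := hG.sum2 _ hx
        have h3 := su_mid_ge hP hQ c3 c4
        rw [c1, c2, f_card c (by norm_num)] at h3
        norm_num at h3
        have k1 := U_concave u (show 0 ≤ 2 by norm_num) (show 2 ≤ 3 by norm_num) (by norm_num)
        have k2 := U_concave u (show 3 ≤ 4 by norm_num) (show 4 ≤ 6 by norm_num) (by norm_num)
        rw [U_zero] at k1
        have h6 : U u 6 = 0 := U_full hu
        rw [h6] at k2
        push_cast at k1 k2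
        have hp3 : 0 < U u 3 := U_pos hu (u_ne hG hx) (by norm_num) (by norm_num)
        have h4 : 0 < f c u := by
          show 0 < su u (ff c 3)
          linarith
        exact ⟨h4.le, fun h0 => absurd h0 h4.ne'⟩)
      exact ⟨e, he, fun ε h1 h2 x u hx hp _ _ _ _ hP hQ => h ε h1 h2 x u hx hp hP hQ⟩
    · exact ⟨1, one_pos, fun ε _ _ x u _ _ h1 h2 h3 h4 _ _ => absurd ⟨h1, h2, h3, h4⟩ hcond⟩
  -- levels 1 and 4
  have kC : ∀ t : (Fin 4 × Fin 6) × Finset (Fin 6), ∃ e : ℝ, 0 < e ∧ ∀ ε, 0 < ε → ε ≤ e →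
      ∀ x u, (x, u) ∈ G → PM 0 5 x → t.2.card = 4 → ff t.1 3 ⊆ t.2 →
      Top u (ff t.1 1) → Top u t.2 → 0 < f t.1 u + ε * g t.1 u := by
    rintro ⟨c, Q⟩
    by_cases hcond : Q.card = 4 ∧ ff c 3 ⊆ Q
    · obtain ⟨c1, c2⟩ := hcond
      obtain ⟨e, he, h⟩ := eps_one hG 0 5 (ff c 1) Q (hfc c) (hgc c) (fun x u hx _ hP hQ =>
        line14 hG hw (S := ff c) (fun j hj => f_card c hj) (fun i j h1 h2 => f_mono c h1 h2) (hG.sum2 _ hx)
          (u_ne hG hx) hP c1 c2 hQ)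
      exact ⟨e, he, fun ε h1 h2 x u hx hp _ _ hP hQ => h ε h1 h2 x u hx hp hP hQ⟩
    · exact ⟨1, one_pos, fun ε _ _ x u _ _ h1 h2 _ _ => absurd ⟨h1, h2⟩ hcond⟩
  have kD : ∀ c : Fin 4 × Fin 6, ∃ e : ℝ, 0 < e ∧ ∀ ε, 0 < ε → ε ≤ e → ∀ x u, (x, u) ∈ G → PM 3 5 x →
      Top u (ff c 4) → 0 < f c u + ε * g c u := by
    intro c
    obtain ⟨e, he, h⟩ := eps_one hG 3 5 (ff c 4) (ff c 4) (hfc c) (hgc c) (fun x u hx hp hP _ =>
      line4 hG hn2 hw (S := ff c) (fun j hj => f_card c hj) (fun i j h1 h2 => f_mono c h1 h2) hx hp hP)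
    exact ⟨e, he, fun ε h1 h2 x u hx hp hP => h ε h1 h2 x u hx hp hP hP⟩
  have kE : ∀ c : Fin 4 × Fin 6, ∃ e : ℝ, 0 < e ∧ ∀ ε, 0 < ε → ε ≤ e → ∀ x u, (x, u) ∈ G → PM 0 2 x →
      Top u (ff c 1) → 0 < f c u + ε * g c u := by
    intro c
    obtain ⟨e, he, h⟩ := eps_one hG 0 2 (ff c 1) (ff c 1) (hfc c) (hgc c) (fun x u hx hp hP _ =>
      line1 hG hn1 hw (S := ff c) (fun j hj => f_card c hj) (fun i j h1 h2 => f_mono c h1 h2) hx hp hP)
    exact ⟨e, he, fun ε h1 h2 x u hx hp hP => h ε h1 h2 x u hx hp hP hP⟩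
  have kF : ∀ c : Fin 4 × Fin 6, ∃ e : ℝ, 0 < e ∧ ∀ ε, 0 < ε → ε ≤ e → ∀ x u, (x, u) ∈ G → PM 0 3 x →
      Top u (ff c 2) → 0 < f c u + ε * g c u := by
    intro c
    obtain ⟨e, he, h⟩ := eps_one hG 0 3 (ff c 2) (ff c 2) (hfc c) (hgc c) (fun x u hx hp hP _ =>
      line2 hG hn1 hw (S := ff c) (fun j hj => f_card c hj) (fun i j h1 h2 => f_mono c h1 h2) hx hp hP)
    exact ⟨e, he, fun ε h1 h2 x u hx hp hP => h ε h1 h2 x u hx hp hP hP⟩
  choose eA pA qA using kA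
  choose eB pB qB using kB
  choose eC pC qC using kC
  choose eD pD qD using kD
  choose eE pE qE using kE
  choose eF pF qF using kF
  obtain ⟨εA, hA0, hA1⟩ := exists_le_all eA pA
  obtain ⟨εB, hB0, hB1⟩ := exists_le_all eB pB
  obtain ⟨εC, hC0, hC1⟩ := exists_le_all eC pC
  obtain ⟨εD, hD0, hD1⟩ := exists_le_all eD pD
  obtain ⟨εE, hE0, hE1⟩ := exists_le_all eE pE
  obtain ⟨εF, hF0, hF1⟩ := exists_le_all eF pF
  obtain ⟨ε, hε, hall⟩ := exists_le_all (fun i : Fin 6 => ![εA, εB, εC, εD, εE, εF] i) (by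
    intro i
    fin_cases i <;> assumption)
  have lA : ε ≤ εA := hall 0
  have lB : ε ≤ εB := hall 1
  have lC : ε ≤ εC := hall 2
  have lD : ε ≤ εD := hall 3
  have lE : ε ≤ εE := hall 4
  have lF : ε ≤ εF := hall 5
  refine ⟨Sum.elim (fun S => ind S.1) (fun c => z3 a b d ε (ff c)), fun q hq => ?_⟩
  obtain ⟨x, u⟩ := q
  by_cases hx : PM 0 5 x
  swap
  · obtain ⟨S, hSf, hS⟩ := out_block hG hx
    exact ⟨Sum.inl ⟨S, hSf⟩, hS⟩
  by_cases h3 : 0 < D x 3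
  · obtain ⟨P, hPc, hP⟩ := exists_stop (x := x) (c := 3) (by decide) h3
    obtain ⟨c, hc⟩ := ff_cover P (by omega) (by omega)
    rw [hPc] at hc
    refine ⟨Sum.inr c, fun w hw' => ?_⟩
    rw [Sum.elim_inr, sum_z3]
    exact qA c ε hε (lA.trans (hA1 _)) x w hw' hx (by rw [hc]; exact top_of_stop hG hw' hP)
  obtain ⟨m, hmI, hmD, hm0, hm5, hmpm⟩ := largest_level hG hq hx
  have hm3 : m ≠ 3 := by rintro rfl; exact h3 hmD
  obtain ⟨Q, hQc, hQ⟩ := exists_stop hmI hmD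
  obtain hm | hm | hm : m = 1 ∨ m = 2 ∨ m = 4 := by omega
  · subst hm
    obtain ⟨c, hc⟩ := ff_cover Q (by omega) (by omega)
    rw [hQc] at hc
    refine ⟨Sum.inr c, fun w hw' => ?_⟩
    rw [Sum.elim_inr, sum_z3]
    exact qE c ε hε (lE.trans (hE1 _)) x w hw' hmpm (by rw [hc]; exact top_of_stop hG hw' hQ)
  · subst hm
    obtain ⟨c, hc⟩ := ff_cover Q (by omega) (by omega)
    rw [hQc] at hc
    refine ⟨Sum.inr c, fun w hw' => ?_⟩
    rw [Sum.elim_inr, sum_z3]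
    exact qF c ε hε (lF.trans (hF1 _)) x w hw' hmpm (by rw [hc]; exact top_of_stop hG hw' hQ)
  · subst hm
    by_cases h2 : 0 < D x 2
    · obtain ⟨P, hPc, hP⟩ := exists_stop (x := x) (c := 2) (by decide) h2
      obtain ⟨B, hPB, hBQ, hBc⟩ := exists_subsuperset_card_eq (stop_nested hP hQ (by omega))
        (show P.card ≤ 3 by omega) (show 3 ≤ Q.card by omega)
      obtain ⟨c, hc⟩ := ff_cover B (by omega) (by omega)
      rw [hBc] at hc
      refine ⟨Sum.inr c, fun w hw' => ?_⟩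
      rw [Sum.elim_inr, sum_z3]
      exact qB (c, (P, Q)) ε hε (lB.trans (hB1 _)) x w hw' hx hPc hQc (by show P ⊆ ff c 3; rw [hc]; exact hPB)
        (by show ff c 3 ⊆ Q; rw [hc]; exact hBQ) (top_of_stop hG hw' hP) (top_of_stop hG hw' hQ)
    · by_cases h1 : 0 < D x 1
      · obtain ⟨P, hPc, hP⟩ := exists_stop (x := x) (c := 1) (by decide) h1
        obtain ⟨i, hi⟩ := card_eq_one.1 hPc
        have hPQ := stop_nested hP hQ (by omega)
        obtain ⟨c, hc1, hc3⟩ := ff_R Q hQc i (hPQ (by rw [hi]; exact mem_singleton_self i))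
        refine ⟨Sum.inr c, fun w hw' => ?_⟩
        rw [Sum.elim_inr, sum_z3]
        exact qC (c, Q) ε hε (lC.trans (hC1 _)) x w hw' hx hQc hc3
          (by show Top w (ff c 1); rw [hc1, ← hi]; exact top_of_stop hG hw' hP) (top_of_stop hG hw' hQ)
      · have hx4 : PM 3 5 x := by
          intro c hc hD
          have h5 := hx c hc hD
          have : c ≠ 1 := by rintro rfl; exact h1 hD
          have : c ≠ 2 := by rintro rfl; exact h2 hD
          have : c ≠ 3 := by rintro rfl; exact h3 hD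
          omega
        obtain ⟨c, hc⟩ := ff_cover Q (by omega) (by omega)
        rw [hQc] at hc
        refine ⟨Sum.inr c, fun w hw' => ?_⟩
        rw [Sum.elim_inr, sum_z3]
        exact qD c ε hε (lD.trans (hD1 _)) x w hw' hx4 (by rw [hc]; exact top_of_stop hG hw' hQ)

end Pool.Agent.Lib.MP_5e7226_co.SX
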