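import Pool.Agent.Lib.MP_5e7226_co.SX.SmN

set_option autoImplicit false

/-! Small dimensions, row SmN7: `n = 7`. -/

namespace Pool.Agent.Lib.MP_5e7226_co.SX

open Finset

/-- The alternative (T3), weak. -/
def T3 (G : Set ((Fin 7 → ℝ) × (Fin 7 → ℝ))) : Prop := ∃ x' u', (x', u') ∈ G ∧ PM 1 3 x' ∧ U u' 2 ≤ U u' 6

/-- SmN7a. Block `2..5`. PROOF. `block_or` with `ℓ = 1`, `r = 6` (as `eight_a`). The alternative: `b = 3`: only `p = 5`, `p' = 2`: the witness `(x', u')` has `PM 1 3 x'`, `U' 2 ≤ U' (7-3+2) = U' 6`: `T3 G`;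
`b = 4`: never; `b = 5`: `p = 5`: `(x, u)` is pure 5 with `U 5 < U 1`: `(-x, -u)` gives `T3 (ng G)` (`PM_neg`, `U_neg`). -/
theorem seven_a {G : Set ((Fin 7 → ℝ) × (Fin 7 → ℝ))} (hG : Dual G) : Served G 49 ∨ T3 G ∨ T3 (ng G) := by
  rcases block_or hG (ℓ := 1) (r := 6) (by norm_num) (by norm_num) (by
    intro b p q h1 h2 h3 h4
    have : p ≤ 3 := by omega
    have : q ≤ 5 := by omega
    have : b ≤ 4 := by omega
    interval_cases p <;> interval_cases b <;> interval_cases q <;> omega) with h | h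
  · exact Or.inl (h.mono (by decide))
  · right
    obtain ⟨b, p, p', x, u, x', u', h1, h2, hxu, h3, h4, hx, hU, hxu', h5, h6, hx', hU', hn⟩ := h
    by_cases hb : b = 3 ∧ p = 5
    · obtain ⟨rfl, rfl⟩ := hb
      have hp' : p' = 2 := by omega
      subst hp'
      exact Or.inl ⟨x', u', hxu', hx', hU'⟩
    · by_cases hb' : b = 5
      · subst hb'
        have hp : p = 5 := by omega
        subst hp
        right
        have hu0 : ∑ i, u i = 0 := hG.sum2 _ hxu
        refine ⟨-x, -u, ?_, ?_, ?_⟩
        · rw [mem_ng, neg_neg, neg_neg]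
          exact hxu
        · exact PM_neg (ℓ := 4) (r := 6) (x := -x) (by norm_num) (by rw [neg_neg]; exact hx)
        · have e2 : U (-u) 2 = U u 5 := U_neg hu0 (c := 2) (by norm_num)
          have e6 : U (-u) 6 = U u 1 := U_neg hu0 (c := 6) (by norm_num)
          rw [e2, e6]
          exact hU.le
      · exact absurd ⟨hx'.mono (by omega) le_rfl, hx.mono le_rfl (by omega)⟩ hn

/-- SmN7b. Block `3..6`. -/
theorem seven_b {G : Set ((Fin 7 → ℝ) × (Fin 7 → ℝ))} (hG : Dual G) (h : T3 G) : Served G 63 := by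
  obtain ⟨x', u', hx', hxp', hU'⟩ := h
  rcases block_or hG (ℓ := 2) (r := 7) (by norm_num) (by norm_num) (by
    intro b p q h1 h2 h3 h4
    have : p ≤ 4 := by omega
    have : q ≤ 6 := by omega
    have : b ≤ 5 := by omega
    interval_cases p <;> interval_cases b <;> interval_cases q <;> omega) with h | h
  · exact h.mono (by decide)
  exfalso
  obtain ⟨b, p, p', y, w, x₁, u₁, h1, h2, hy, h3, h4, hyp, hW, -, h5, h6, hx1, -, hn⟩ := h
  -- pure 6 with `W 6 < W 2` is impossible
  have key : PM 5 7 y → U w 6 < U w 2 → False := by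
    intro hy6 h7
    have e1 : U u' 6 ≤ U w 6 := pure_max hG hy (p := 6) hy6 hx'
    have e2 : U w 2 ≤ U u' 2 := pure_max hG hx' (p := 2) hxp' hy
    linarith
  by_cases hb6 : b = 6
  · subst hb6
    have hp : p = 6 := by omega
    subst hp
    exact key hyp (U_gt_before (s := 1) (by norm_num) (by norm_num) (by norm_num) hW)
  by_cases hb5 : b = 5
  · subst hb5
    by_cases hp : p = 6
    · subst hp
      exact key hyp hW
    have hp : p = 5 := by omega
    subst hp
    norm_num at hW hyp
    have e2 : U w 2 ≤ U u' 2 := pure_max hG hx' (p := 2) hxp' hy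
    have e3 : U w 5 < U w 2 := U_gt_before (s := 1) (by norm_num) (by norm_num) (by norm_num) hW
    have a1 := one_le hG hy (a := U w 5) (fun c hc hD => by
      have := hyp c hc hD
      exact U_le_after (s := 1) (by norm_num) (by omega) (by omega) hW.le)
    have a2 := le_one' hG hx' hy (a := U u' 2) (fun c hc hD => by
      have := hyp c hc hD
      have := U_mid (u := u') (s := 2) (c := c) (t := 6) (by omega) (by omega) (by norm_num)
      rwa [min_eq_left hU'] at this)
    have t1 := T_pos hG hy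
    have : U u' 2 ≤ U w 5 := le_of_mul_le_mul_right (a2.trans a1) t1
    linarith
  · exact hn ⟨hx1.mono (by omega) le_rfl, hyp.mono le_rfl (by omega)⟩

/-- SmN7. -/
theorem seven {G : Set ((Fin 7 → ℝ) × (Fin 7 → ℝ))} (hG : Dual G) : Served G 63 := by
  rcases seven_a hG with h | h | h
  · exact h.mono (by norm_num)
  · exact seven_b hG h
  · exact served_ng (seven_b (dual_ng hG) h)

end Pool.Agent.Lib.MP_5e7226_co.SX
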