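import Pool.Agent.Lib.MP_5e7226_co.SX.SmN5
import Pool.Agent.Lib.MP_5e7226_co.SX.SmN7
import Pool.Agent.Lib.MP_5e7226_co.SX.Sm61
import Pool.Agent.Lib.MP_5e7226_co.SX.Sm62
import Pool.Agent.Lib.MP_5e7226_co.SX.Sm63f
import Pool.Agent.Lib.MP_5e7226_co.SX.Bi

set_option autoImplicit false

/-! Small dimensions, row SmF: all `n ≥ 5`. -/

namespace Pool.Agent.Lib.MP_5e7226_co.SX

open Finset

/-- `n = 6` under (W). -/
theorem six_W {G : Set ((Fin 6 → ℝ) × (Fin 6 → ℝ))} (hG : Dual G)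
    (hW : ∀ x u y w, (x, u) ∈ G → PM 0 2 x → (y, w) ∈ G → U w 5 ≤ U u 1) : Served G 31 := by
  by_cases h1 : ∀ x u p, (x, u) ∈ G → 1 ≤ p → p ≤ 2 → PM 0 (p + 1) x → U u (p + 3) ≤ U u p
  · by_cases h2 : ∀ x u, (x, u) ∈ G → PM 3 5 x → U u 1 ≤ U u 4
    · exact (six_3 hG h1 h2).mono (by norm_num)
    · push Not at h2
      obtain ⟨y, w, hy, hyP, hw⟩ := h2
      exact (six_2 hG hy hyP hw).mono (by norm_num)
  · push Not at h1
    obtain ⟨x, u, p, hx, hp1, hp2, hxP, hU⟩ := h1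
    exact (six_1 hG hW hx hp1 hp2 hxP hU).mono (by norm_num)

/-- `n = 6`. -/
theorem six {G : Set ((Fin 6 → ℝ) × (Fin 6 → ℝ))} (hG : Dual G) : Served G 31 := by
  by_cases h1 : ∀ x u y w, (x, u) ∈ G → PM 0 2 x → (y, w) ∈ G → U w 5 ≤ U u 1
  · exact six_W hG h1
  refine served_ng (six_W (dual_ng hG) ?_)
  push Not at h1
  obtain ⟨x, u, y, w, hx, hxp, hy, hlt⟩ := h1
  intro x' u' y' w' hx' hxp' hy'
  by_contra hcon
  rw [not_le] at hcon
  rw [mem_ng] at hx' hy'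
  have hu0 : ∑ i, (-u') i = 0 := hG.sum2 _ hx'
  have hw0 : ∑ i, (-w') i = 0 := hG.sum2 _ hy'
  have hxq : PM 4 6 (-x') := by
    have := PM_neg (ℓ := 0) (r := 2) (x := -x') (by norm_num) (by rw [neg_neg]; exact hxp')
    exact this
  have e1 : U u' 1 = U (-u') 5 := by
    have := U_neg hu0 (c := 1) (by norm_num)
    rw [neg_neg] at this
    exact this
  have e2 : U w' 5 = U (-w') 1 := by
    have := U_neg hw0 (c := 5) (by norm_num)
    rw [neg_neg] at this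
    exact this
  rw [e1, e2] at hcon
  have h2 : U (-w') 1 ≤ U u 1 := pure_max hG hx (p := 1) hxp hy'
  have h3 : U w 5 ≤ U (-u') 5 := pure_max hG hx' (p := 5) hxq hy
  linarith

/-- All `n ≥ 5`. -/
theorem all_n {n : ℕ} (hn : 5 ≤ n) {G : Set ((Fin n → ℝ) × (Fin n → ℝ))} (hG : Dual G) :
    Served G (2 ^ (n - 1) - 1) := by
  rcases Nat.lt_or_ge n 11 with h | h
  · interval_cases n
    · exact (five hG).mono (by norm_num)
    · exact (six hG).mono (by norm_num)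
    · exact (seven hG).mono (by norm_num)
    · exact (eight hG).mono (by norm_num)
    · exact (nine hG).mono (by norm_num)
    · obtain ⟨ι, i1, h1, h2⟩ := core par_ten (by norm_num) hG
      exact ⟨ι, i1, h1.trans cnt_ten, h2⟩
  · obtain ⟨ι, i1, h1, h2⟩ := core (par_gen h) (by omega) hG
    exact ⟨ι, i1, h1.trans (cnt_gen h), h2⟩

end Pool.Agent.Lib.MP_5e7226_co.SX
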