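import Pool.Agent.Lib.MP_5e7226_co.SX.P1

set_option autoImplicit false

/-! Row P3: inequalities for sets in relation to top sets (all follow from P1). -/

namespace Pool.Agent.Lib.MP_5e7226_co.SX

open Finset

variable {n : ℕ}

private theorem su_sdiff_add {u : Fin n → ℝ} {P S : Finset (Fin n)} (h : S ⊆ P) :
    su u (P \ S) + su u S = su u P := by
  unfold su
  exact Finset.sum_sdiff h

/-- P3a. PROOF. `su u S = su u P - su u (P \ S)`, `su_top`, `su_le_U`. -/
theorem su_sub_ge {u : Fin n → ℝ} {P S : Finset (Fin n)} (hP : Top u P) (h : S ⊆ P) :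
    U u P.card - U u (P.card - S.card) ≤ su u S := by
  have h1 := su_sdiff_add (u := u) h
  have h2 := su_top hP
  have h3 := su_le_U u (P \ S)
  rw [Finset.card_sdiff_of_subset h] at h3
  linarith

/-- P3b. PROOF. `su u S = - su u Sᶜ`, `su u (P ∪ Sᶜ) ≤ U`. -/
theorem su_sup_ge {u : Fin n → ℝ} (hu : ∑ i, u i = 0) {P S : Finset (Fin n)} (hP : Top u P) (h : P ⊆ S) :
    U u P.card - U u (P.card + (n - S.card)) ≤ su u S := by
  have h1 := su_sdiff_add (u := u) h
  have h2 := su_top hP
  have h3 := su_ge hu (S \ P)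
  rw [Finset.card_sdiff_of_subset h] at h3
  have h4 : S.card ≤ n := by
    have := Finset.card_le_univ S
    simpa using this
  have h5 : P.card ≤ S.card := Finset.card_le_card h
  have h6 : n - (S.card - P.card) = P.card + (n - S.card) := by omega
  rw [h6] at h3
  linarith

/-- P3c. PROOF. `su u S = su u P + su u Q - su u (P ∪ (Q \ S))`. -/
theorem su_mid_ge {u : Fin n → ℝ} {P S Q : Finset (Fin n)} (hP : Top u P) (hQ : Top u Q) (h1 : P ⊆ S)
    (h2 : S ⊆ Q) : U u P.card + U u Q.card - U u (P.card + Q.card - S.card) ≤ su u S := by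
  have e1 := su_sdiff_add (u := u) h2
  have e2 := su_top hP
  have e3 := su_top hQ
  have hd : Disjoint P (Q \ S) := by
    rw [Finset.disjoint_left]
    intro x hx hx'
    exact (Finset.mem_sdiff.1 hx').2 (h1 hx)
  have e4 : su u (P ∪ (Q \ S)) = su u P + su u (Q \ S) := by
    unfold su
    exact Finset.sum_union hd
  have e5 := su_le_U u (P ∪ (Q \ S))
  have h3 : S.card ≤ Q.card := Finset.card_le_card h2
  rw [Finset.card_union_of_disjoint hd, Finset.card_sdiff_of_subset h2] at e5
  have h6 : P.card + (Q.card - S.card) = P.card + Q.card - S.card := by omega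
  rw [h6] at e5
  linarith

/-- P3d. PROOF. P3c, `U_concave` for `0 ≤ p ≤ b'` and `b' ≤ q ≤ n` (`U u 0 = 0`, `U u n = 0`), `U_pos`, `Par.c`; if `S.card = P.card` or `S.card = Q.card` then `S` is `P` or `Q`. -/
theorem su_mid_pos {ℓ r : ℕ} (hp : Par n ℓ r) {u : Fin n → ℝ} (hu : ∑ i, u i = 0) (h0 : u ≠ 0)
    {P S Q : Finset (Fin n)} (hP : Top u P) (hQ : Top u Q) (h1 : P ⊆ S) (h2 : S ⊆ Q)
    (hPm : ℓ < P.card) (hQm : Q.card < r) : 0 < su u S := by
  have hr := hp.hr
  have c1 : P.card ≤ S.card := Finset.card_le_card h1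
  have c2 : S.card ≤ Q.card := Finset.card_le_card h2
  rcases Nat.lt_or_ge P.card S.card with h3 | h3
  · rcases Nat.lt_or_ge S.card Q.card with h4 | h4
    · have h5 := su_mid_ge hP hQ h1 h2
      obtain ⟨p, hpe⟩ : ∃ p, P.card = p := ⟨_, rfl⟩
      obtain ⟨q, hqe⟩ : ∃ q, Q.card = q := ⟨_, rfl⟩
      obtain ⟨b, hbe⟩ : ∃ b, P.card + Q.card - S.card = b := ⟨_, rfl⟩
      rw [hpe] at hPm
      rw [hqe] at hQm
      have hpb : p < b := by omega
      have hbq : b < q := by omega
      have hc := hp.c p b q hPm hpb hbq hQm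
      have h6 : 0 < U u b := U_pos hu h0 (by omega) (by omega)
      have k1 := U_concave u (Nat.zero_le p) hpb.le (by omega : b ≤ n)
      have k2 := U_concave u hbq.le (by omega : q ≤ n) le_rfl
      have hU0 : U u 0 = 0 := by unfold U; simp
      have hUn : U u n = 0 := by rw [U_n, hu]
      rw [hU0] at k1
      rw [hUn] at k2
      rw [hbe, hpe, hqe] at h5
      have hcR : (b : ℝ) * ((p : ℝ) + q - b) < p * n := by
        have hsub : ((p + q - b : ℕ) : ℝ) = (p : ℝ) + q - b := by
          rw [Nat.cast_sub (by omega)]; push_cast; ring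
        have : ((b * (p + q - b) : ℕ) : ℝ) < ((p * n : ℕ) : ℝ) := by exact_mod_cast hc
        rw [Nat.cast_mul, Nat.cast_mul, hsub] at this
        exact this
      have hb0 : (0 : ℝ) < b := by
        have : 0 < b := by omega
        exact_mod_cast this
      have hnb : (0 : ℝ) < (n : ℝ) - b := by
        have : b < n := by omega
        have : (b : ℝ) < n := by exact_mod_cast this
        linarith
      have m1 : (p : ℝ) * U u b ≤ b * U u p := by
        have := k1
        push_cast at this
        linarith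
      have m2 : ((n : ℝ) - q) * U u b ≤ ((n : ℝ) - b) * U u q := by linarith
      have m3 : ((n : ℝ) - b) * ((p : ℝ) * U u b) ≤ ((n : ℝ) - b) * (b * U u p) :=
        mul_le_mul_of_nonneg_left m1 hnb.le
      have m4 : (b : ℝ) * (((n : ℝ) - q) * U u b) ≤ b * (((n : ℝ) - b) * U u q) :=
        mul_le_mul_of_nonneg_left m2 hb0.le
      have m5 : 0 < U u b * ((p : ℝ) * n - b * ((p : ℝ) + q - b)) :=
        mul_pos h6 (by linarith)
      have m6 : 0 < ((b : ℝ) * ((n : ℝ) - b)) * (U u p + U u q - U u b) := by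
        nlinarith [m3, m4, m5]
      have m7 : 0 < U u p + U u q - U u b :=
        (pos_iff_pos_of_mul_pos m6).1 (mul_pos hb0 hnb)
      linarith
    · have hSQ : S = Q := Finset.eq_of_subset_of_card_le h2 h4
      rw [hSQ, su_top hQ]
      exact U_pos hu h0 (by omega) (by omega)
  · have hPS : P = S := Finset.eq_of_subset_of_card_le h1 h3
    rw [← hPS, su_top hP]
    exact U_pos hu h0 (by omega) (by omega)

end Pool.Agent.Lib.MP_5e7226_co.SX
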