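import Pool.Agent.Lib.MP_5e7226_co.SX.P2
import Pool.Agent.Lib.MP_5e7226_co.SX.P3

set_option autoImplicit false

/-! Row C1: the bad point with the least last level (section 3 of the paper proof). -/

namespace Pool.Agent.Lib.MP_5e7226_co.SX

open Finset

variable {n : ℕ}

/-- `x` is a point whose last level is `b`, and `w` shows that no set of size `r` works for it. -/
structure Bad (G : Set ((Fin n → ℝ) × (Fin n → ℝ))) (ℓ r b : ℕ) (x w : Fin n → ℝ) : Prop where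
  mem : (x, w) ∈ G
  pm : PM ℓ r x
  hb : ℓ < b ∧ b < r ∧ 1 ≤ b
  pos : 0 < D x b
  zero : ∀ c, b < c → c < n → D x c = 0
  reach : U w b ≤ U w (b + (n - r))

private theorem exists_D_pos {G : Set ((Fin n → ℝ) × (Fin n → ℝ))} (hG : Dual G)
    {x u : Fin n → ℝ} (h : (x, u) ∈ G) : ∃ c ∈ Ico 1 n, 0 < D x c := by
  by_contra hcon
  push Not at hcon
  have h0 : ∑ c ∈ Ico 1 n, D x c * U u c = 0 := by
    refine sum_eq_zero fun c hc => ?_
    have h1 := D_nonneg x (mem_Ico.1 hc).1 (mem_Ico.1 hc).2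
    have h2 := hcon c hc
    have : D x c = 0 := le_antisymm h2 h1
    rw [this, zero_mul]
  have := pair_self hG h
  rw [h0] at this
  exact zero_ne_one this

/-- C1a. PROOF. `x ≠ 0` (as `∑ u x = 1`), so some `D x c > 0`: let `b` be the largest such `c`, `P` the strict top set of size `b`, `S ⊇ P` with `|S| = r`; `S` does not work, so there is `w` with
`(x, w) ∈ G` and `su w S ≤ 0`; `su_sup_ge` (`P.card + (n - S.card) = b + (n - r)`), `top_of_stop`. -/
theorem exists_bad {ℓ r : ℕ} (hp : Par n ℓ r) {G : Set ((Fin n → ℝ) × (Fin n → ℝ))} (hG : Dual G)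
    {x u : Fin n → ℝ} (h : (x, u) ∈ G) (hx : PM ℓ r x)
    (hbad : ∀ S : Finset (Fin n), S.card = r → ∃ w, (x, w) ∈ G ∧ su w S ≤ 0) : ∃ b w, Bad G ℓ r b x w := by
  classical
  obtain ⟨c₀, hc₀, hc₀pos⟩ := exists_D_pos hG h
  set F : Finset ℕ := (Ico 1 n).filter (fun c => 0 < D x c) with hF
  have hFne : F.Nonempty := ⟨c₀, by rw [hF, mem_filter]; exact ⟨hc₀, hc₀pos⟩⟩
  have hbF : F.max' hFne ∈ F := max'_mem F hFne
  set b := F.max' hFne with hbdef
  rw [hF, mem_filter] at hbF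
  obtain ⟨hbI, hbpos⟩ := hbF
  obtain ⟨hb1, hbn⟩ := mem_Ico.1 hbI
  obtain ⟨P, hPc, hPt⟩ := (D_pos_iff hb1 hbn).1 hbpos
  have hbM := hx b hbI hbpos
  obtain ⟨S, hPS, hSc⟩ := exists_superset_card_eq (s := P) (n := r) (by omega)
    (by rw [Fintype.card_fin]; exact hp.hr.le)
  obtain ⟨w, hw, hwS⟩ := hbad S hSc
  refine ⟨b, w, hw, hx, ⟨hbM.1, hbM.2, hb1⟩, hbpos, ?_, ?_⟩
  · intro c hbc hcn
    by_contra hne
    have h1 := D_nonneg x (c := c) (by omega) hcn
    have h2 : 0 < D x c := lt_of_le_of_ne h1 (Ne.symm hne)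
    have h3 : c ∈ F := by
      rw [hF, mem_filter, mem_Ico]
      exact ⟨⟨by omega, hcn⟩, h2⟩
    have h4 := le_max' F c h3
    omega
  · have h1 := su_sup_ge (hG.sum2 _ hw) (top_of_stop hG hw hPt) hPS
    rw [hPc, hSc] at h1
    linarith

/-- C1b. PROOF. `U w c ≥ U w b` for `b ≤ c < r` and `U w c ≤ U w b` for `c ≤ b` (`U_concave`, `Bad.reach`, `Par.a`, `n - r ≥ 1`). `1 = ∑ D x₀ c * U w c ≤ T x₀ * U w b` (`pair_self`),
so `U w b > 0`; `1 ≥ ∑ D x c * U w c ≥ T x * U w b` (`pair_le_one`). -/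
theorem spread_le {ℓ r b : ℕ} (hp : Par n ℓ r) {G : Set ((Fin n → ℝ) × (Fin n → ℝ))} (hG : Dual G)
    {x₀ w : Fin n → ℝ} (hB : Bad G ℓ r b x₀ w) {x u : Fin n → ℝ} (h : (x, u) ∈ G) (hx : PM ℓ r x)
    (hxb : ∀ c ∈ Ico 1 n, 0 < D x c → b ≤ c) : T x ≤ T x₀ := by
  obtain ⟨hlb, hbr, hb1⟩ := hB.hb
  have hrn := hp.hr
  have he1 : (0 : ℝ) < (((b + (n - r) : ℕ) : ℝ) - b) := by
    have : b < b + (n - r) := by omega
    have : (b : ℝ) < ((b + (n - r) : ℕ) : ℝ) := by exact_mod_cast this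
    linarith
  -- the two comparisons
  have hup : ∀ c, ℓ < c → c < r → b ≤ c → U w b ≤ U w c := by
    intro c h1 h2 h3
    have h4 : c ≤ b + (n - r) := hp.a b c hlb hbr h1 h2
    have h5 := U_concave w h3 h4 (by omega)
    have h6 : (0 : ℝ) ≤ (c : ℝ) - b := by
      have : (b : ℝ) ≤ c := by exact_mod_cast h3
      linarith
    have h7 := mul_le_mul_of_nonneg_left hB.reach h6
    have h8 : (((b + (n - r) : ℕ) : ℝ) - b) * U w b ≤ (((b + (n - r) : ℕ) : ℝ) - b) * U w c := by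
      nlinarith
    exact le_of_mul_le_mul_left h8 he1
  have hdown : ∀ c, c ≤ b → U w c ≤ U w b := by
    intro c h3
    have h5 := U_concave w h3 (show b ≤ b + (n - r) by omega) (by omega)
    have h6 : (0 : ℝ) ≤ (b : ℝ) - c := by
      have : (c : ℝ) ≤ b := by exact_mod_cast h3
      linarith
    have h7 := mul_le_mul_of_nonneg_left hB.reach h6
    have h8 : (((b + (n - r) : ℕ) : ℝ) - b) * U w c ≤ (((b + (n - r) : ℕ) : ℝ) - b) * U w b := by
      nlinarith
    exact le_of_mul_le_mul_left h8 he1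
  have hT0 : 1 ≤ T x₀ * U w b := by
    rw [← pair_self hG hB.mem, T, sum_mul]
    refine sum_le_sum fun c hc => ?_
    obtain ⟨h1, h2⟩ := mem_Ico.1 hc
    rcases le_or_gt c b with hcb | hcb
    · exact mul_le_mul_of_nonneg_left (hdown c hcb) (D_nonneg x₀ h1 h2)
    · rw [hB.zero c hcb h2, zero_mul, zero_mul]
  have hT1 : T x * U w b ≤ 1 := by
    refine le_trans ?_ (pair_le_one hG hB.mem h)
    rw [T, sum_mul]
    refine sum_le_sum fun c hc => ?_
    obtain ⟨h1, h2⟩ := mem_Ico.1 hc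
    rcases (D_nonneg x h1 h2).eq_or_lt with hz | hz
    · rw [← hz, zero_mul, zero_mul]
    · have h3 := hx c hc hz
      exact mul_le_mul_of_nonneg_left (hup c h3.1 h3.2 (hxb c hc hz)) hz.le
  have hT0nn : 0 ≤ T x₀ := sum_nonneg fun c hc => D_nonneg x₀ (mem_Ico.1 hc).1 (mem_Ico.1 hc).2
  have hUpos : 0 < U w b := by
    by_contra hcon
    push Not at hcon
    have := mul_nonpos_of_nonneg_of_nonpos hT0nn hcon
    linarith
  exact le_of_mul_le_mul_right (le_trans hT1 hT0) hUpos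

/-- C1c. PROOF. `D x c = 0` for `1 ≤ c < P.card` (`D_zero`). Let `p = P.card` and suppose `U u (p - b) > U u p`. Then `U u c > U u p` for `p - b ≤ c < p` and `U u c ≤ U u p` for `p ≤ c ≤ n` (`U_concave`).
`1 = ∑ D x c * U u c ≤ T x * U u p ≤ T x₀ * U u p` (`spread_le`; `U u p > 0`, or `p = n` is impossible as `∑ x = 0`, `x ≠ 0`). For `D x₀ c > 0`: `c ≤ b < p` (`Bad.zero`) and `p ≤ b + c`: `Par.b` for
`b, c` and the least `c'` with `D x c' > 0` (`p ≤ c' < r`). So `∑ D x₀ c * U u c > T x₀ * U u p ≥ 1`, against `pair_le_one`. -/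
theorem key_le {ℓ r b : ℕ} (hp : Par n ℓ r) {G : Set ((Fin n → ℝ) × (Fin n → ℝ))} (hG : Dual G)
    {x₀ w : Fin n → ℝ} (hB : Bad G ℓ r b x₀ w) {x u : Fin n → ℝ} (h : (x, u) ∈ G) (hx : PM ℓ r x)
    {P : Finset (Fin n)} (hPb : b < P.card) (hPx : ∀ i ∈ P, ∀ j, x j ≤ x i) (hPu : Top u P) :
    U u (P.card - b) ≤ U u P.card := by
  obtain ⟨hlb, hbr, hb1⟩ := hB.hb
  have hrn := hp.hr
  by_contra hcon
  push Not at hcon
  set p := P.card with hpdef
  have hDz : ∀ c, 1 ≤ c → c < p → D x c = 0 := fun c h1 h2 => D_zero hPx h1 h2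
  obtain ⟨c', hc', hc'pos⟩ := exists_D_pos hG h
  obtain ⟨hc'1, hc'n⟩ := mem_Ico.1 hc'
  have hpc' : p ≤ c' := by
    by_contra hlt
    push Not at hlt
    have := hDz c' hc'1 hlt
    linarith
  have hc'M := hx c' hc' hc'pos
  have hpn : p ≤ n := by omega
  have hbpos : (0 : ℝ) < b := by exact_mod_cast hb1
  have hcast : ((p - b : ℕ) : ℝ) = (p : ℝ) - b := by
    rw [Nat.cast_sub hPb.le]
  have hgt : ∀ c, p - b ≤ c → c < p → U u p < U u c := by
    intro c h1 h2
    have h3 := U_concave u h1 h2.le hpn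
    rw [hcast] at h3
    have h4 : (0 : ℝ) < (p : ℝ) - c := by
      have : (c : ℝ) < p := by exact_mod_cast h2
      linarith
    have h5 := mul_lt_mul_of_pos_left hcon h4
    have h6 : (b : ℝ) * U u p < b * U u c := by nlinarith
    exact lt_of_mul_lt_mul_left h6 hbpos.le
  have hle : ∀ c, p ≤ c → c ≤ n → U u c ≤ U u p := by
    intro c h1 h2
    have h3 := U_concave u (show p - b ≤ p by omega) h1 h2
    rw [hcast] at h3
    have h4 : (0 : ℝ) ≤ (c : ℝ) - p := by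
      have : (p : ℝ) ≤ c := by exact_mod_cast h1
      linarith
    have h5 := mul_le_mul_of_nonneg_left hcon.le h4
    have h6 : (b : ℝ) * U u c ≤ b * U u p := by nlinarith
    exact le_of_mul_le_mul_left h6 hbpos
  have hT1 : 1 ≤ T x * U u p := by
    rw [← pair_self hG h, T, sum_mul]
    refine sum_le_sum fun c hc => ?_
    obtain ⟨h1, h2⟩ := mem_Ico.1 hc
    rcases lt_or_ge c p with hcp | hcp
    · rw [hDz c h1 hcp, zero_mul, zero_mul]
    · exact mul_le_mul_of_nonneg_left (hle c hcp h2.le) (D_nonneg x h1 h2)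
  have hTnn : 0 ≤ T x := sum_nonneg fun c hc => D_nonneg x (mem_Ico.1 hc).1 (mem_Ico.1 hc).2
  have hUpos : 0 < U u p := by
    by_contra hc
    push Not at hc
    have := mul_nonpos_of_nonneg_of_nonpos hTnn hc
    linarith
  have hspread : T x ≤ T x₀ := by
    refine spread_le hp hG hB h hx fun c hc hcpos => ?_
    obtain ⟨h1, h2⟩ := mem_Ico.1 hc
    by_contra hlt
    push Not at hlt
    have := hDz c h1 (by omega)
    linarith
  have hT0 : 1 ≤ T x₀ * U u p := le_trans hT1 (mul_le_mul_of_nonneg_right hspread hUpos.le)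
  have hlow : ∀ c ∈ Ico 1 n, 0 < D x₀ c → U u p < U u c := by
    intro c hc hcpos
    obtain ⟨h1, h2⟩ := mem_Ico.1 hc
    have hcb : c ≤ b := by
      by_contra hlt
      push Not at hlt
      have := hB.zero c hlt h2
      linarith
    have h3 := hB.pm c hc hcpos
    have h4 : c' ≤ b + c := hp.b b c c' h3.1 hcb (by omega) hc'M.2
    exact hgt c (by omega) (by omega)
  have hfin : T x₀ * U u p < ∑ c ∈ Ico 1 n, D x₀ c * U u c := by
    rw [T, sum_mul]
    refine sum_lt_sum (fun c hc => ?_) ⟨b, mem_Ico.2 ⟨hb1, by omega⟩, ?_⟩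
    · obtain ⟨h1, h2⟩ := mem_Ico.1 hc
      rcases (D_nonneg x₀ h1 h2).eq_or_lt with hz | hz
      · rw [← hz, zero_mul, zero_mul]
      · exact mul_le_mul_of_nonneg_left (hlow c hc hz).le hz.le
    · exact mul_lt_mul_of_pos_left (hlow b (mem_Ico.2 ⟨hb1, by omega⟩) hB.pos) hB.pos
  have := pair_le_one hG h hB.mem
  linarith

end Pool.Agent.Lib.MP_5e7226_co.SX
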