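import Pool.Agent.Lib.MP_5e7226_co.SX.C1

set_option autoImplicit false

/-! Row C2: the third case (all levels of `x` above `b`). -/

namespace Pool.Agent.Lib.MP_5e7226_co.SX

open Finset

variable {n : ℕ}

private theorem c2_su_sdiff (u : Fin n → ℝ) {A B : Finset (Fin n)} (h : A ⊆ B) :
    su u B = su u A + su u (B \ A) := by
  unfold su
  rw [add_comm]
  exact (sum_sdiff h).symm

/-- C2a. PROOF. `su_sub_ge`, `key_le`. If `su u S = 0`: `su u (P \ S) = su u P = U p ≥ U (p - b)`, so `P \ S` is a top set (`su_le_U`, `top_of_eq`): its entries are `≥` those of `S`, whose mean is `0`,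
so `≥ 0`; the entries outside `P` are `≤` those of `S` (`hPu`), so `≤ 0`. `su u P = U u p > 0` (`U_pos`; `p < n` since `x` is not constant). -/
theorem third {ℓ r b : ℕ} (hp : Par n ℓ r) {G : Set ((Fin n → ℝ) × (Fin n → ℝ))} (hG : Dual G)
    {x₀ w : Fin n → ℝ} (hB : Bad G ℓ r b x₀ w) {x u : Fin n → ℝ} (h : (x, u) ∈ G) (hx : PM ℓ r x)
    {P S : Finset (Fin n)} (hPb : b < P.card) (hPx : ∀ i ∈ P, ∀ j, x j ≤ x i) (hPu : Top u P)
    (hS : S ⊆ P) (hSc : S.card = b) :
    0 ≤ su u S ∧ (su u S = 0 → (∀ A, S ⊆ A → A ⊆ P → 0 ≤ su u A) ∧ (∀ A, P ⊆ A → 0 ≤ su u A) ∧ 0 < su u P) := by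
  have hkey := key_le hp hG hB h hx hPb hPx hPu
  have hsub := su_sub_ge hPu hS
  rw [hSc] at hsub
  have hsum : ∑ i, u i = 0 := hG.sum2 _ h
  have hxsum : ∑ i, x i = 0 := hG.sum1 _ h
  have hone : ∑ i, u i * x i = 1 := hG.one _ h
  have hb1 : 1 ≤ b := hB.hb.2.2
  refine ⟨by linarith, ?_⟩
  intro h0
  have hsplit := c2_su_sdiff u hS
  have htop : su u P = U u P.card := su_top hPu
  have hcard : (P \ S).card = P.card - b := by rw [card_sdiff_of_subset hS, hSc]
  have hle := su_le_U u (P \ S)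
  have heq : su u (P \ S) = U u (P \ S).card := by
    apply le_antisymm hle
    rw [hcard]
    linarith
  have hTop : Top u (P \ S) := top_of_eq heq
  have hSne : S.Nonempty := by rw [← card_pos]; omega
  obtain ⟨i, hiS, hi⟩ : ∃ i ∈ S, 0 ≤ u i := by
    by_contra hcon
    push Not at hcon
    have : su u S < 0 := sum_neg (fun i hi => hcon i hi) hSne
    linarith
  obtain ⟨j, hjS, hj⟩ : ∃ j ∈ S, u j ≤ 0 := by
    by_contra hcon
    push Not at hcon
    have : 0 < su u S := sum_pos (fun i hi => hcon i hi) hSne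
    linarith
  have hin : ∀ k ∈ P \ S, 0 ≤ u k := fun k hk =>
    hi.trans (hTop k hk i (by simp [hiS]))
  have hout : ∀ k, k ∉ P → u k ≤ 0 := fun k hk => (hPu j (hS hjS) k hk).trans hj
  refine ⟨?_, ?_, ?_⟩
  · intro A hSA hAP
    rw [c2_su_sdiff u hSA, h0, zero_add]
    exact sum_nonneg (fun k hk => hin k (sdiff_subset_sdiff hAP subset_rfl hk))
  · intro A hPA
    have h1 : su u A + ∑ k ∈ Aᶜ, u k = 0 := by
      unfold su; rw [sum_add_sum_compl]; exact hsum
    have h2 : ∑ k ∈ Aᶜ, u k ≤ 0 := by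
      apply sum_nonpos
      intro k hk
      rw [mem_compl] at hk
      exact hout k (fun hkP => hk (hPA hkP))
    linarith
  · rw [htop]
    have hu0 : u ≠ 0 := by
      rintro rfl
      simp at hone
    apply U_pos hsum hu0 (by omega)
    by_contra hcon
    have hPn : P.card = n := le_antisymm (by simpa using card_le_univ P) (by omega)
    have hPuniv : P = univ := by
      rw [← card_eq_iff_eq_univ, hPn, Fintype.card_fin]
    have hconst : ∀ a c, x a = x c := fun a c =>
      le_antisymm (hPx c (by rw [hPuniv]; exact mem_univ _) a) (hPx a (by rw [hPuniv]; exact mem_univ _) c)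
    obtain ⟨p0, -⟩ := hSne
    have h3 : ∑ i, u i * x i = (∑ i, u i) * x p0 := by
      rw [sum_mul]
      exact sum_congr rfl (fun a _ => by rw [hconst a p0])
    rw [hsum, zero_mul] at h3
    linarith

end Pool.Agent.Lib.MP_5e7226_co.SX
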