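import Mathlib

set_option autoImplicit false

/-! Row Ch: all subsets of an `n`-set are covered by `C(n, n/2)` maximal chains. -/

namespace Pool.Agent.Lib.MP_5e7226_co.SX

open Finset

/-- A surjection upwards from the level `k` to the level `k + 1`, `k` in the upper half. -/
private theorem ch_up_step (n k : ℕ) (h : n ≤ 2 * k + 1) (hk : k < n) :
    ∃ g : Finset (Fin n) → Finset (Fin n), (∀ Y, Y.card = k → Y ⊆ g Y ∧ (g Y).card = k + 1) ∧
      ∀ A : Finset (Fin n), A.card = k + 1 → ∃ Y : Finset (Fin n), Y.card = k ∧ g Y = A := by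
  classical
  -- Hall
  have hall : ∃ f : {A : Finset (Fin n) // A.card = k + 1} → Finset (Fin n),
      Function.Injective f ∧ ∀ x, f x ∈ powersetCard k x.1 := by
    rw [← Finset.all_card_le_biUnion_card_iff_exists_injective
      (fun x : {A : Finset (Fin n) // A.card = k + 1} => powersetCard k x.1)]
    intro s
    set 𝒜 : Finset (Finset (Fin n)) := s.map (Function.Embedding.subtype _) with h𝒜
    have hcard : 𝒜.card = s.card := by rw [h𝒜, card_map]
    have hsz : (𝒜 : Set (Finset (Fin n))).Sized (k + 1) := by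
      intro A hA
      rw [h𝒜, coe_map] at hA
      obtain ⟨x, -, rfl⟩ := hA
      exact x.2
    have hsh := Finset.card_mul_le_card_shadow_mul hsz
    rw [Fintype.card_fin] at hsh
    have hsub : Finset.shadow 𝒜 ⊆ s.biUnion (fun x => powersetCard k x.1) := by
      intro t ht
      rw [Finset.mem_shadow_iff] at ht
      obtain ⟨A, hA, a, ha, rfl⟩ := ht
      rw [h𝒜, mem_map] at hA
      obtain ⟨x, hx, rfl⟩ := hA
      rw [mem_biUnion]
      refine ⟨x, hx, ?_⟩
      rw [mem_powersetCard]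
      refine ⟨erase_subset _ _, ?_⟩
      have hx2 : ((Function.Embedding.subtype fun A : Finset (Fin n) => A.card = k + 1) x).card = k + 1 := x.2
      rw [card_erase_of_mem ha, hx2]; rfl
    have h1 := card_le_card hsub
    have h2 : n - (k + 1) + 1 ≤ k + 1 := by omega
    have h3 : 𝒜.card * (k + 1) ≤ (Finset.shadow 𝒜).card * (k + 1) :=
      hsh.trans (Nat.mul_le_mul_left _ h2)
    have h4 : 𝒜.card ≤ (Finset.shadow 𝒜).card := Nat.le_of_mul_le_mul_right h3 (by omega)
    omega
  obtain ⟨f, hf, hfm⟩ := hall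
  -- any superset
  have hsup : ∀ Y : Finset (Fin n), Y.card = k → ∃ Z : Finset (Fin n), Y ⊆ Z ∧ Z.card = k + 1 := by
    intro Y hY
    have hne : (Yᶜ).Nonempty := by
      rw [← card_pos, card_compl, Fintype.card_fin]; omega
    obtain ⟨a, ha⟩ := hne
    rw [mem_compl] at ha
    exact ⟨insert a Y, subset_insert _ _, by rw [card_insert_of_notMem ha, hY]⟩
  have hg : ∀ Y : Finset (Fin n), ∃ Z : Finset (Fin n), Y.card = k → ((Y ⊆ Z ∧ Z.card = k + 1) ∧
      ∀ x, f x = Y → Z = x.1) := by
    intro Y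
    by_cases hY : Y.card = k
    · by_cases hx : ∃ x, f x = Y
      · obtain ⟨x, hx⟩ := hx
        refine ⟨x.1, fun _ => ⟨⟨?_, x.2⟩, ?_⟩⟩
        · have := hfm x
          rw [mem_powersetCard, hx] at this
          exact this.1
        · intro y hy
          rw [hf (hx.trans hy.symm)]
      · obtain ⟨Z, hZ⟩ := hsup Y hY
        exact ⟨Z, fun _ => ⟨hZ, fun x hx' => (hx ⟨x, hx'⟩).elim⟩⟩
    · exact ⟨∅, fun h => (hY h).elim⟩
  choose g hg using hg
  refine ⟨g, fun Y hY => (hg Y hY).1, ?_⟩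
  intro A hA
  have hm := hfm ⟨A, hA⟩
  rw [mem_powersetCard] at hm
  exact ⟨f ⟨A, hA⟩, hm.2, (hg _ hm.2).2 ⟨A, hA⟩ rfl⟩

/-- A surjection downwards from the level `k + 1` to the level `k`, `k` in the lower half. -/
private theorem ch_down_step (n k : ℕ) (h : 2 * k + 1 ≤ n) :
    ∃ g : Finset (Fin n) → Finset (Fin n), (∀ Y, Y.card = k + 1 → g Y ⊆ Y ∧ (g Y).card = k) ∧
      ∀ A : Finset (Fin n), A.card = k → ∃ Y : Finset (Fin n), Y.card = k + 1 ∧ g Y = A := by
  classical
  obtain ⟨g, hg1, hg2⟩ := ch_up_step n (n - (k + 1)) (by omega) (by omega)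
  refine ⟨fun Y => (g Yᶜ)ᶜ, ?_, ?_⟩
  · intro Y hY
    have hc : (Yᶜ).card = n - (k + 1) := by rw [card_compl, Fintype.card_fin, hY]
    obtain ⟨h1, h2⟩ := hg1 Yᶜ hc
    constructor
    · exact compl_le_of_compl_le h1
    · rw [card_compl, Fintype.card_fin, h2]; omega
  · intro A hA
    have hc : (Aᶜ).card = n - (k + 1) + 1 := by rw [card_compl, Fintype.card_fin, hA]; omega
    obtain ⟨Y, hY, hYA⟩ := hg2 Aᶜ hc
    refine ⟨Yᶜ, ?_, ?_⟩
    · rw [card_compl, Fintype.card_fin, hY]; omega
    · show (g (Yᶜ)ᶜ)ᶜ = A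
      rw [compl_compl, hYA, compl_compl]

/-- Chains upwards from the level `m`. -/
private theorem ch_up (n m : ℕ) (h : n ≤ 2 * m + 1) :
    ∃ F : ℕ → Finset (Fin n) → Finset (Fin n), (∀ X, F 0 X = X) ∧
      (∀ X, X.card = m → ∀ t, m + t ≤ n → (F t X).card = m + t) ∧
      (∀ X, X.card = m → ∀ t, m + t + 1 ≤ n → F t X ⊆ F (t + 1) X) ∧
      ∀ t, m + t ≤ n → ∀ A : Finset (Fin n), A.card = m + t → ∃ X : Finset (Fin n), X.card = m ∧ F t X = A := by
  classical
  have hG : ∀ t : ℕ, ∃ g : Finset (Fin n) → Finset (Fin n), m + t < n →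
      ((∀ Y, Y.card = m + t → Y ⊆ g Y ∧ (g Y).card = m + t + 1) ∧
      ∀ A : Finset (Fin n), A.card = m + t + 1 → ∃ Y : Finset (Fin n), Y.card = m + t ∧ g Y = A) := by
    intro t
    by_cases ht : m + t < n
    · obtain ⟨g, h1, h2⟩ := ch_up_step n (m + t) (by omega) ht
      exact ⟨g, fun _ => ⟨h1, h2⟩⟩
    · exact ⟨id, fun h' => (ht h').elim⟩
  choose G hG using hG
  let F : ℕ → Finset (Fin n) → Finset (Fin n) := fun t X => Nat.rec X (fun t Y => G t Y) t
  have F0 : ∀ X, F 0 X = X := fun X => rfl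
  have FS : ∀ t X, F (t + 1) X = G t (F t X) := fun t X => rfl
  have hcard : ∀ X, X.card = m → ∀ t, m + t ≤ n → (F t X).card = m + t := by
    intro X hX t
    induction t with
    | zero => intro _; rw [F0]; exact hX
    | succ t ih =>
      intro ht
      rw [FS]
      exact ((hG t (by omega)).1 _ (ih (by omega))).2
  refine ⟨F, F0, hcard, ?_, ?_⟩
  · intro X hX t ht
    rw [FS]
    exact ((hG t (by omega)).1 _ (hcard X hX t (by omega))).1
  · intro t
    induction t with
    | zero => intro _ A hA; exact ⟨A, hA, F0 A⟩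
    | succ t ih =>
      intro ht A hA
      obtain ⟨Y, hY, hYA⟩ := (hG t (by omega)).2 A hA
      obtain ⟨X, hX, hXY⟩ := ih (by omega) Y hY
      exact ⟨X, hX, by rw [FS, hXY, hYA]⟩

/-- Chains downwards from the level `m`. -/
private theorem ch_down (n m : ℕ) (h : 2 * m ≤ n + 1) :
    ∃ F : ℕ → Finset (Fin n) → Finset (Fin n), (∀ X, F 0 X = X) ∧
      (∀ X, X.card = m → ∀ t, t ≤ m → (F t X).card = m - t) ∧
      (∀ X, X.card = m → ∀ t, t + 1 ≤ m → F (t + 1) X ⊆ F t X) ∧
      ∀ t, t ≤ m → ∀ A : Finset (Fin n), A.card = m - t → ∃ X : Finset (Fin n), X.card = m ∧ F t X = A := by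
  classical
  have hG : ∀ t : ℕ, ∃ g : Finset (Fin n) → Finset (Fin n), t + 1 ≤ m →
      ((∀ Y, Y.card = m - t → g Y ⊆ Y ∧ (g Y).card = m - (t + 1)) ∧
      ∀ A : Finset (Fin n), A.card = m - (t + 1) → ∃ Y : Finset (Fin n), Y.card = m - t ∧ g Y = A) := by
    intro t
    by_cases ht : t + 1 ≤ m
    · obtain ⟨g, h1, h2⟩ := ch_down_step n (m - (t + 1)) (by omega)
      have e : m - (t + 1) + 1 = m - t := by omega
      rw [e] at h1 h2
      exact ⟨g, fun _ => ⟨h1, h2⟩⟩
    · exact ⟨id, fun h' => (ht h').elim⟩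
  choose G hG using hG
  let F : ℕ → Finset (Fin n) → Finset (Fin n) := fun t X => Nat.rec X (fun t Y => G t Y) t
  have F0 : ∀ X, F 0 X = X := fun X => rfl
  have FS : ∀ t X, F (t + 1) X = G t (F t X) := fun t X => rfl
  have hcard : ∀ X, X.card = m → ∀ t, t ≤ m → (F t X).card = m - t := by
    intro X hX t
    induction t with
    | zero => intro _; rw [F0]; exact hX
    | succ t ih =>
      intro ht
      rw [FS]
      exact ((hG t ht).1 _ (ih (by omega))).2
  refine ⟨F, F0, hcard, ?_, ?_⟩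
  · intro X hX t ht
    rw [FS]
    exact ((hG t ht).1 _ (hcard X hX t (by omega))).1
  · intro t
    induction t with
    | zero => intro _ A hA; exact ⟨A, hA, F0 A⟩
    | succ t ih =>
      intro ht A hA
      obtain ⟨Y, hY, hYA⟩ := (hG t ht).2 A hA
      obtain ⟨X, hX, hXY⟩ := ih (by omega) Y hY
      exact ⟨X, hX, by rw [FS, hXY, hYA]⟩

/-- PROOF. Either the symmetric chain decomposition by induction on `n`, or matchings: for `j < n/2` Hall's theorem gives an injection `f_j` from the `j`-sets to the `(j+1)`-sets with `S ⊆ f_j S`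
(every `j`-set has `n - j` supersets, every `(j+1)`-set has `j + 1` subsets), and for `j ≥ n/2` one from the `(j+1)`-sets to the `j`-sets with `f S ⊆ S` (`Finset.card_mul_le_card_shadow_mul`,
`Finset.all_card_le_biUnion_card_iff_exists_injective`). Start at the middle sets and go down and up with the inverses of these injections (any subset / superset where there is no preimage). -/
theorem chain_cover (n : ℕ) : ∃ S : Fin (n.choose (n / 2)) → ℕ → Finset (Fin n),
    (∀ c j, j ≤ n → (S c j).card = j) ∧ (∀ c i j, i ≤ j → j ≤ n → S c i ⊆ S c j) ∧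
      ∀ A : Finset (Fin n), ∃ c, S c A.card = A := by
  classical
  set m := n / 2 with hm
  obtain ⟨Fu, u0, u1, u2, u3⟩ := ch_up n m (by omega)
  obtain ⟨Fd, d0, d1, d2, d3⟩ := ch_down n m (by omega)
  have hcardm : Fintype.card {X : Finset (Fin n) // X.card = m} = n.choose m := by
    rw [Fintype.card_finset_len, Fintype.card_fin]
  let e : {X : Finset (Fin n) // X.card = m} ≃ Fin (n.choose m) := Fintype.equivFinOfCardEq hcardm
  let S : Finset (Fin n) → ℕ → Finset (Fin n) := fun X j => if j ≤ m then Fd (m - j) X else Fu (j - m) X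
  have S1 : ∀ X j, j ≤ m → S X j = Fd (m - j) X := fun X j h => if_pos h
  have S2 : ∀ X j, m ≤ j → S X j = Fu (j - m) X := by
    intro X j h
    rcases eq_or_lt_of_le h with h | h
    · subst h
      rw [S1 X m le_rfl, Nat.sub_self, d0, u0]
    · exact if_neg (by omega)
  have Sc : ∀ X, X.card = m → ∀ j, j ≤ n → (S X j).card = j := by
    intro X hX j hj
    rcases le_total j m with h | h
    · rw [S1 X j h, d1 X hX _ (by omega)]; omega
    · rw [S2 X j h, u1 X hX _ (by omega)]; omega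
  have Sstep : ∀ X, X.card = m → ∀ j, j + 1 ≤ n → S X j ⊆ S X (j + 1) := by
    intro X hX j hj
    rcases Nat.lt_or_ge j m with h | h
    · rw [S1 X j h.le, S1 X (j + 1) h, show m - j = (m - (j + 1)) + 1 by omega]
      exact d2 X hX _ (by omega)
    · rw [S2 X j h, S2 X (j + 1) (by omega), show j + 1 - m = (j - m) + 1 by omega]
      exact u2 X hX _ (by omega)
  have Smono : ∀ X, X.card = m → ∀ i j, i ≤ j → j ≤ n → S X i ⊆ S X j := by
    intro X hX i j hij
    induction hij with
    | refl => intro _; exact subset_rfl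
    | step h ih => intro hj; exact (ih (by omega)).trans (Sstep X hX _ hj)
  refine ⟨fun c => S (e.symm c).1, fun c j hj => Sc _ (e.symm c).2 j hj,
    fun c i j hij hj => Smono _ (e.symm c).2 i j hij hj, ?_⟩
  intro A
  have hAn : A.card ≤ n := by simpa using card_le_univ A
  rcases le_total A.card m with h | h
  · obtain ⟨X, hX, hXA⟩ := d3 (m - A.card) (by omega) A (by omega)
    refine ⟨e ⟨X, hX⟩, ?_⟩
    show S (e.symm (e ⟨X, hX⟩)).1 A.card = A
    rw [Equiv.symm_apply_apply, S1 X _ h, hXA]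
  · obtain ⟨X, hX, hXA⟩ := u3 (A.card - m) (by omega) A (by omega)
    refine ⟨e ⟨X, hX⟩, ?_⟩
    show S (e.symm (e ⟨X, hX⟩)).1 A.card = A
    rw [Equiv.symm_apply_apply, S2 X _ h, hXA]

end Pool.Agent.Lib.MP_5e7226_co.SX
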