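import Pool.Agent.Lib.MP_5e7226_co.SX.Cp
import Pool.Agent.Lib.MP_5e7226_co.SX.Ch

set_option autoImplicit false

/-! Row Core: the core theorem. -/

namespace Pool.Agent.Lib.MP_5e7226_co.SX

open Finset

variable {n : ℕ}

theorem exists_le_all {ι : Type*} [Finite ι] (e : ι → ℝ) (he : ∀ i, 0 < e i) :
    ∃ ε : ℝ, 0 < ε ∧ ∀ i, ε ≤ e i := by
  by_cases h : Nonempty ι
  · obtain ⟨i, hi⟩ := Finite.exists_min e
    exact ⟨e i, he i, hi⟩
  · exact ⟨1, one_pos, fun i => (h ⟨i⟩).elim⟩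

/-- The indicator. -/
noncomputable def ind (S : Finset (Fin n)) : Fin n → ℝ := fun i => if i ∈ S then 1 else 0

theorem sum_ind (u : Fin n → ℝ) (S : Finset (Fin n)) : ∑ i, u i * ind S i = su u S := by
  simp [ind, su]

theorem sum_chain (u : Fin n → ℝ) (S : ℕ → Finset (Fin n)) (b r : ℕ) (ε : ℝ) :
    ∑ i, u i * (ind (S b) i + ε * ∑ j ∈ Ico b r, ind (S j) i) =
      su u (S b) + ε * ∑ j ∈ Ico b r, su u (S j) := by
  simp only [mul_add, sum_add_distrib, sum_ind]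
  congr 1
  rw [mul_sum]
  simp only [← sum_ind, mul_sum]
  rw [sum_comm]
  refine sum_congr rfl fun j _ => sum_congr rfl fun i _ => ?_
  ring

theorem stop_nested {x : Fin n → ℝ} {P Q : Finset (Fin n)} (hP : STop x P) (hQ : STop x Q)
    (h : P.card ≤ Q.card) : P ⊆ Q := by
  intro i hi
  by_contra hq
  have h1 : (Q \ P).Nonempty := by
    rw [← card_pos]
    have h2 := card_sdiff_add_card_inter P Q
    have h3 := card_sdiff_add_card_inter Q P
    rw [inter_comm] at h3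
    have h4 : 0 < (P \ Q).card := card_pos.2 ⟨i, mem_sdiff.2 ⟨hi, hq⟩⟩
    omega
  obtain ⟨j, hj⟩ := h1
  rw [mem_sdiff] at hj
  have h5 := hP i hi j hj.2
  have h6 := hQ j hj.1 i hq
  exact lt_asymm h5 h6

/-- The sets of the first family. -/
def fam (n ℓ r : ℕ) : Finset (Finset (Fin n)) :=
  (Ico 1 (ℓ + 1)).biUnion (fun s => powersetCard s univ) ∪ (Ico r n).biUnion (fun s => powersetCard s univ)

theorem mem_fam {ℓ r : ℕ} {S : Finset (Fin n)} :
    S ∈ fam n ℓ r ↔ (1 ≤ S.card ∧ S.card < ℓ + 1) ∨ (r ≤ S.card ∧ S.card < n) := by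
  simp [fam, mem_powersetCard]

theorem card_fam (n ℓ r : ℕ) :
    (fam n ℓ r).card ≤ (∑ s ∈ Ico 1 (ℓ + 1), n.choose s) + (∑ s ∈ Ico r n, n.choose s) := by
  refine (card_union_le _ _).trans (add_le_add ?_ ?_)
  · refine card_biUnion_le.trans (le_of_eq (sum_congr rfl fun s _ => ?_))
    simp
  · refine card_biUnion_le.trans (le_of_eq (sum_congr rfl fun s _ => ?_))
    simp

theorem u_ne {G : Set ((Fin n → ℝ) × (Fin n → ℝ))} (hG : Dual G) {x u : Fin n → ℝ} (h : (x, u) ∈ G) : u ≠ 0 := by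
  intro h0
  have := hG.one _ h
  simp [h0] at this

theorem x_ne {G : Set ((Fin n → ℝ) × (Fin n → ℝ))} (hG : Dual G) {x u : Fin n → ℝ} (h : (x, u) ∈ G) : x ≠ 0 := by
  intro h0
  have := hG.one _ h
  simp [h0] at this

theorem core {ℓ r : ℕ} (hp : Par n ℓ r) (hn : 2 ≤ n) {G : Set ((Fin n → ℝ) × (Fin n → ℝ))} (hG : Dual G) :
    ∃ (ι : Type) (_ : Fintype ι), Fintype.card ι ≤ cnt n ℓ r ∧
      ∃ z : ι → Fin n → ℝ, ∀ q ∈ G, ∃ i, Works G q.1 (z i) := by
  classical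
  refine ⟨(fam n ℓ r) ⊕ Fin (n.choose (n / 2)), inferInstance, ?_, ?_⟩
  · rw [Fintype.card_sum, Fintype.card_coe, Fintype.card_fin, cnt]
    have := card_fam n ℓ r
    omega
  -- strict top sets of sizes outside the middle range
  have hout : ∀ x u, (x, u) ∈ G → ¬ PM ℓ r x → ∃ S ∈ fam n ℓ r, Works G x (ind S) := by
    intro x u hxu hx
    simp only [PM, not_forall] at hx
    obtain ⟨c, hc, hD, hc'⟩ := hx
    rw [mem_Ico] at hc
    obtain ⟨S, hSc, hS⟩ := (D_pos_iff hc.1 hc.2).1 hD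
    refine ⟨S, mem_fam.2 (by omega), fun u' hu' => ?_⟩
    rw [sum_ind, su_top (top_of_stop hG hu' hS), hSc]
    exact U_pos (hG.sum2 _ hu') (u_ne hG hu') hc.1 hc.2
  by_cases hbad : ∀ x u, (x, u) ∈ G → PM ℓ r x → ∃ S : Finset (Fin n), S.card = r ∧ ∀ w, (x, w) ∈ G → 0 < su w S
  · refine ⟨Sum.elim (fun S => ind S.1) (fun _ => 0), fun q hq => ?_⟩
    obtain ⟨x, u⟩ := q
    by_cases hx : PM ℓ r x
    · obtain ⟨S, hSc, hS⟩ := hbad x u hq hx
      refine ⟨Sum.inl ⟨S, mem_fam.2 (Or.inr ⟨hSc.ge, hSc ▸ hp.hr⟩)⟩, fun w hw => ?_⟩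
      rw [Sum.elim_inl, sum_ind]
      exact hS w hw
    · obtain ⟨S, hSf, hS⟩ := hout x u hq hx
      exact ⟨Sum.inl ⟨S, hSf⟩, hS⟩
  · have hex : ∃ b, ∃ x w, Bad G ℓ r b x w := by
      push Not at hbad
      obtain ⟨x, u, hxu, hx, hS⟩ := hbad
      obtain ⟨b, w, hB⟩ := exists_bad hp hG hxu hx hS
      exact ⟨b, x, w, hB⟩
    let b := Nat.find hex
    obtain ⟨x₀, w₀, hB⟩ : ∃ x w, Bad G ℓ r b x w := Nat.find_spec hex
    have hmin : ∀ b', b' < b → ¬ ∃ x w, Bad G ℓ r b' x w := fun b' hb' => Nat.find_min hex hb'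
    obtain ⟨S, hSc, hSm, hcov⟩ := chain_cover n
    have hrn := hp.hr
    have hlb := hB.hb
    choose e1 he1 he1' using fun c => mid_eps (b := b) hp hG (S c)
    choose e2 he2 he2' using fun c => third_eps hp hG hB (S c) (hSc c) (hSm c)
    obtain ⟨ε, hε, hεe⟩ := exists_le_all (fun c => min (e1 c) (e2 c)) (fun c => lt_min (he1 c) (he2 c))
    refine ⟨Sum.elim (fun S => ind S.1) (fun c i => ind (S c b) i + ε * ∑ j ∈ Ico b r, ind (S c j) i),
      fun q hq => ?_⟩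
    obtain ⟨x, u⟩ := q
    by_cases hx : PM ℓ r x
    swap
    · obtain ⟨S, hSf, hS⟩ := hout x u hq hx
      exact ⟨Sum.inl ⟨S, hSf⟩, hS⟩
    by_cases hA : ∃ c ∈ Ico 1 n, 0 < D x c ∧ b ≤ c
    swap
    · -- all levels are below `b`
      push Not at hA
      by_cases hS : ∃ S : Finset (Fin n), S.card = r ∧ ∀ w, (x, w) ∈ G → 0 < su w S
      · obtain ⟨S, hSc, hS⟩ := hS
        refine ⟨Sum.inl ⟨S, mem_fam.2 (Or.inr ⟨hSc.ge, hSc ▸ hp.hr⟩)⟩, fun w hw => ?_⟩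
        rw [Sum.elim_inl, sum_ind]
        exact hS w hw
      · push Not at hS
        obtain ⟨b', w', hB'⟩ := exists_bad hp hG hq hx hS
        have h1 := hB'.hb
        have h2 := hA b' (mem_Ico.2 ⟨h1.2.2, by omega⟩) hB'.pos
        exact absurd ⟨x, w', hB'⟩ (hmin b' h2)
    by_cases hC : ∃ c ∈ Ico 1 n, 0 < D x c ∧ c ≤ b
    · -- the middle case
      obtain ⟨cq, hcq, hDq, hbq⟩ := hA
      obtain ⟨cp, hcp, hDp, hbp⟩ := hC
      have hMq := hx cq hcq hDq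
      have hMp := hx cp hcp hDp
      rw [mem_Ico] at hcq hcp
      obtain ⟨P, hPc, hP⟩ := (D_pos_iff hcp.1 hcp.2).1 hDp
      obtain ⟨Q, hQc, hQ⟩ := (D_pos_iff hcq.1 hcq.2).1 hDq
      obtain ⟨B, hPB, hBQ, hBc⟩ := exists_subsuperset_card_eq (stop_nested hP hQ (by omega))
        (show P.card ≤ b by omega) (show b ≤ Q.card by omega)
      obtain ⟨c, hc⟩ := hcov B
      rw [hBc] at hc
      refine ⟨Sum.inr c, fun w hw => ?_⟩
      rw [Sum.elim_inr, sum_chain]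
      exact he1' c ε hε ((hεe c).trans (min_le_left _ _)) x w hw P Q (top_of_stop hG hw hP)
        (top_of_stop hG hw hQ) (hc ▸ hPB) (hc ▸ hBQ) (by omega) (by omega)
    · -- all levels are above `b`
      push Not at hC
      obtain ⟨P, hP1, hPn, hPs, hPm, hPD⟩ := exists_argmax (hG.sum1 _ hq) (x_ne hG hq)
      have hbP := hC P.card (mem_Ico.2 ⟨hP1, hPn⟩) hPD
      have hMP := hx P.card (mem_Ico.2 ⟨hP1, hPn⟩) hPD
      obtain ⟨c, hc⟩ := hcov P
      refine ⟨Sum.inr c, fun w hw => ?_⟩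
      rw [Sum.elim_inr, sum_chain]
      exact he2' c ε hε ((hεe c).trans (min_le_right _ _)) x w hw hx P.card hbP hMP.2 (by rw [hc]; exact hPm)
        (by rw [hc]; exact top_of_stop hG hw hPs)

end Pool.Agent.Lib.MP_5e7226_co.SX
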