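import Pool.Agent.Lib.MP_5e7226_co.SX.C2

set_option autoImplicit false

/-! Row Cp: compactness, the uniform `ε` (section 4 of the paper proof). -/

namespace Pool.Agent.Lib.MP_5e7226_co.SX

open Finset

variable {n : ℕ}

/-- Cp1. PROOF. If not: `ε_k → 0`, `x_k ∈ K` with `f x_k + ε_k g x_k ≤ 0`. Or: `K' = {x ∈ K | g x ≤ 0}` is compact and `f > 0` on it, so `f ≥ m > 0` on it; `g ≥ -B` on `K`; `ε₀ = m / (B + 1)`.
For `x ∈ K` with `g x > 0`: `f x + ε g x > 0`. -/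
theorem eps_unif {X : Type*} [TopologicalSpace X] {K : Set X} (hK : IsCompact K) {f g : X → ℝ}
    (hf : Continuous f) (hg : Continuous g) (h0 : ∀ x ∈ K, 0 ≤ f x) (h1 : ∀ x ∈ K, f x = 0 → 0 < g x) :
    ∃ ε₀ : ℝ, 0 < ε₀ ∧ ∀ ε, 0 < ε → ε ≤ ε₀ → ∀ x ∈ K, 0 < f x + ε * g x := by
  have hK' : IsCompact (K ∩ {x | g x ≤ 0}) := hK.inter_right (isClosed_le hg continuous_const)
  rcases (K ∩ {x | g x ≤ 0}).eq_empty_or_nonempty with he | hne
  · refine ⟨1, one_pos, fun ε hε _ x hx => ?_⟩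
    have hgx : 0 < g x := by
      by_contra hcon
      have : x ∈ K ∩ {x | g x ≤ 0} := ⟨hx, not_lt.1 hcon⟩
      rw [he] at this
      exact this
    have := h0 x hx
    positivity
  · obtain ⟨y, hy, hmin⟩ := hK'.exists_isMinOn hne hf.continuousOn
    have hfy : 0 < f y := by
      refine lt_of_le_of_ne (h0 y hy.1) fun h => ?_
      have h2 := h1 y hy.1 h.symm
      exact absurd hy.2 (not_le.2 h2)
    obtain ⟨B, hB⟩ := hK.bddBelow_image hg.continuousOn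
    have hB' : ∀ x ∈ K, -|B| ≤ g x := fun x hx => (neg_abs_le B).trans (hB ⟨x, hx, rfl⟩)
    have hB0 : 0 ≤ |B| := abs_nonneg B
    refine ⟨f y / (|B| + 1), by positivity, fun ε hε hε' x hx => ?_⟩
    rcases lt_or_ge 0 (g x) with hgx | hgx
    · have := h0 x hx
      positivity
    · have h2 : f y ≤ f x := hmin (show x ∈ K ∩ {x | g x ≤ 0} from ⟨hx, hgx⟩)
      have h3 : ε * (|B| + 1) ≤ f y := (le_div_iff₀ (by positivity)).1 hε'
      have h4 : ε * (-|B|) ≤ ε * g x := mul_le_mul_of_nonneg_left (hB' x hx) hε.le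
      nlinarith

/-- Cp2. -/
theorem closed_top (S : Finset (Fin n)) : IsClosed {p : (Fin n → ℝ) × (Fin n → ℝ) | Top p.2 S} := by
  simp only [Top, Set.ofPred_forall]
  refine isClosed_iInter fun i => isClosed_iInter fun _ => isClosed_iInter fun j => isClosed_iInter fun _ => ?_
  exact isClosed_le (by fun_prop) (by fun_prop)

/-- Cp3. PROOF. `PM ℓ r x` iff for every `S` with `1 ≤ |S| < n`, `¬ (ℓ < |S| ∧ |S| < r)` there are `i ∈ S`, `j ∉ S` with `x i ≤ x j` (`D_pos_iff`, `D_nonneg`): a finite intersection of finite unions of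
closed sets. -/
theorem closed_pm (ℓ r : ℕ) : IsClosed {p : (Fin n → ℝ) × (Fin n → ℝ) | PM ℓ r p.1} := by
  have h1 : {p : (Fin n → ℝ) × (Fin n → ℝ) | PM ℓ r p.1} =
      {p : (Fin n → ℝ) × (Fin n → ℝ) | ∀ c ∈ Ico 1 n, ¬ (ℓ < c ∧ c < r) → ∀ S : Finset (Fin n), S.card = c →
        ¬ STop p.1 S} := by
    ext p
    simp only [Set.mem_ofPred_eq, PM]
    refine forall_congr' fun c => forall_congr' fun hc => ?_
    rw [mem_Ico] at hc
    rw [D_pos_iff hc.1 hc.2]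
    constructor
    · intro h h2 S hS h3
      exact h2 (h ⟨S, hS, h3⟩)
    · rintro h ⟨S, hS, h3⟩
      by_contra h2
      exact h h2 S hS h3
  have h2 : ∀ S : Finset (Fin n), IsOpen {p : (Fin n → ℝ) × (Fin n → ℝ) | STop p.1 S} := by
    intro S
    simp only [STop, Set.ofPred_forall]
    refine isOpen_iInter_of_finite fun i => isOpen_iInter_of_finite fun _ => isOpen_iInter_of_finite fun j =>
      isOpen_iInter_of_finite fun _ => ?_
    exact isOpen_lt (by fun_prop) (by fun_prop)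
  rw [h1]
  simp only [Set.ofPred_forall]
  refine isClosed_iInter fun c => isClosed_iInter fun _ => isClosed_iInter fun _ => isClosed_iInter fun S =>
    isClosed_iInter fun _ => ?_
  exact (h2 S).isClosed_compl

/-- Cp4. PROOF. For fixed `P`, `Q`: `eps_unif` on the compact set `{p ∈ G | Top p.2 P ∧ Top p.2 Q}`, with `f = su p.2 (S b) > 0` (`su_mid_pos`; `p.2 ≠ 0` by `Dual.one`). Minimum over the finitely many
pairs `(P, Q)`. -/
theorem mid_eps {ℓ r b : ℕ} (hp : Par n ℓ r) {G : Set ((Fin n → ℝ) × (Fin n → ℝ))} (hG : Dual G)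
    (S : ℕ → Finset (Fin n)) :
    ∃ ε₀ : ℝ, 0 < ε₀ ∧ ∀ ε, 0 < ε → ε ≤ ε₀ → ∀ x u, (x, u) ∈ G → ∀ P Q : Finset (Fin n), Top u P → Top u Q →
      P ⊆ S b → S b ⊆ Q → ℓ < P.card → Q.card < r → 0 < su u (S b) + ε * ∑ j ∈ Ico b r, su u (S j) := by
  classical
  have hsu : ∀ A : Finset (Fin n), Continuous fun p : (Fin n → ℝ) × (Fin n → ℝ) => su p.2 A := by
    intro A
    unfold su
    fun_prop
  have key : ∀ PQ : Finset (Fin n) × Finset (Fin n), ∃ e : ℝ, 0 < e ∧ ∀ ε, 0 < ε → ε ≤ e →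
      ∀ x u, (x, u) ∈ G → Top u PQ.1 → Top u PQ.2 → PQ.1 ⊆ S b → S b ⊆ PQ.2 → ℓ < PQ.1.card → PQ.2.card < r →
      0 < su u (S b) + ε * ∑ j ∈ Ico b r, su u (S j) := by
    rintro ⟨P, Q⟩
    by_cases hc : P ⊆ S b ∧ S b ⊆ Q ∧ ℓ < P.card ∧ Q.card < r
    · obtain ⟨c1, c2, c3, c4⟩ := hc
      obtain ⟨e, he, h⟩ := eps_unif (K := G ∩ ({p | Top p.2 P} ∩ {p | Top p.2 Q}))
        (f := fun p => su p.2 (S b)) (g := fun p => ∑ j ∈ Ico b r, su p.2 (S j))
        (hG.compact.inter_right ((closed_top P).inter (closed_top Q))) (hsu _)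
        (continuous_finsetSum _ fun j _ => hsu _) (fun p hp' => by
          have h0 : p.2 ≠ 0 := by
            intro h
            have h1 := hG.one p hp'.1
            rw [h] at h1
            simp at h1
          exact (su_mid_pos hp (hG.sum2 p hp'.1) h0 hp'.2.1 hp'.2.2 c1 c2 c3 c4).le)
        (fun p hp' h2 => by
          exfalso
          have h0 : p.2 ≠ 0 := by
            intro h
            have h1 := hG.one p hp'.1
            rw [h] at h1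
            simp at h1
          exact absurd h2 (su_mid_pos hp (hG.sum2 p hp'.1) h0 hp'.2.1 hp'.2.2 c1 c2 c3 c4).ne')
      refine ⟨e, he, fun ε h1 h2 x u hxu hP hQ _ _ _ _ => h ε h1 h2 (x, u) ⟨hxu, hP, hQ⟩⟩
    · refine ⟨1, one_pos, fun ε _ _ x u _ _ _ h1 h2 h3 h4 => ?_⟩
      exact absurd ⟨h1, h2, h3, h4⟩ hc
  choose e he h using key
  refine ⟨Finset.univ.inf' ⟨(∅, ∅), Finset.mem_univ _⟩ e, ?_, ?_⟩
  · rw [Finset.lt_inf'_iff]
    exact fun PQ _ => he PQ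
  · intro ε h1 h2 x u hxu P Q hP hQ c1 c2 c3 c4
    exact h (P, Q) ε h1 (h2.trans (Finset.inf'_le _ (Finset.mem_univ _))) x u hxu hP hQ c1 c2 c3 c4

/-- Cp5. PROOF. For fixed `p`: `eps_unif` on the compact set `{q ∈ G | PM ℓ r q.1 ∧ (∀ i ∈ S p, ∀ j, q.1 j ≤ q.1 i) ∧ Top q.2 (S p)}`, with `third` (`P = S p`). If `su u (S b) = 0`, then
`∑ j ∈ Ico b r, su u (S j) > 0`: all terms `≥ 0`, the term `j = p` is `> 0`. Minimum over `p`. -/
theorem third_eps {ℓ r b : ℕ} (hp : Par n ℓ r) {G : Set ((Fin n → ℝ) × (Fin n → ℝ))} (hG : Dual G)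
    {x₀ w : Fin n → ℝ} (hB : Bad G ℓ r b x₀ w) (S : ℕ → Finset (Fin n)) (hSc : ∀ j, j ≤ n → (S j).card = j)
    (hSm : ∀ i j, i ≤ j → j ≤ n → S i ⊆ S j) :
    ∃ ε₀ : ℝ, 0 < ε₀ ∧ ∀ ε, 0 < ε → ε ≤ ε₀ → ∀ x u, (x, u) ∈ G → PM ℓ r x → ∀ p, b < p → p < r →
      (∀ i ∈ S p, ∀ j, x j ≤ x i) → Top u (S p) → 0 < su u (S b) + ε * ∑ j ∈ Ico b r, su u (S j) := by
  classical
  have hsu : ∀ A : Finset (Fin n), Continuous fun p : (Fin n → ℝ) × (Fin n → ℝ) => su p.2 A := by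
    intro A
    unfold su
    fun_prop
  have hr := hp.hr
  have key : ∀ p : ℕ, ∃ e : ℝ, 0 < e ∧ ∀ ε, 0 < ε → ε ≤ e → ∀ x u, (x, u) ∈ G → PM ℓ r x → b < p → p < r →
      (∀ i ∈ S p, ∀ j, x j ≤ x i) → Top u (S p) → 0 < su u (S b) + ε * ∑ j ∈ Ico b r, su u (S j) := by
    intro p
    by_cases hc : b < p ∧ p < r
    · obtain ⟨c1, c2⟩ := hc
      have hcl : IsClosed {q : (Fin n → ℝ) × (Fin n → ℝ) | ∀ i ∈ S p, ∀ j, q.1 j ≤ q.1 i} := by
        simp only [Set.ofPred_forall]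
        refine isClosed_iInter fun i => isClosed_iInter fun _ => isClosed_iInter fun j => ?_
        exact isClosed_le (by fun_prop) (by fun_prop)
      have h3 : ∀ q ∈ G ∩ ({q | PM ℓ r q.1} ∩ ({q : (Fin n → ℝ) × (Fin n → ℝ) | ∀ i ∈ S p, ∀ j, q.1 j ≤ q.1 i} ∩
          {q | Top q.2 (S p)})), 0 ≤ su q.2 (S b) ∧ (su q.2 (S b) = 0 →
          (∀ A, S b ⊆ A → A ⊆ S p → 0 ≤ su q.2 A) ∧ (∀ A, S p ⊆ A → 0 ≤ su q.2 A) ∧ 0 < su q.2 (S p)) := by
        rintro ⟨x, u⟩ ⟨q1, q2, q3, q4⟩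
        refine third hp hG hB q1 q2 ?_ q3 q4 (hSm b p c1.le (by omega)) (hSc b (by omega))
        rw [hSc p (by omega)]
        exact c1
      obtain ⟨e, he, h⟩ := eps_unif (K := G ∩ ({q | PM ℓ r q.1} ∩
          ({q : (Fin n → ℝ) × (Fin n → ℝ) | ∀ i ∈ S p, ∀ j, q.1 j ≤ q.1 i} ∩ {q | Top q.2 (S p)})))
        (f := fun q => su q.2 (S b)) (g := fun q => ∑ j ∈ Ico b r, su q.2 (S j))
        (hG.compact.inter_right ((closed_pm ℓ r).inter (hcl.inter (closed_top (S p))))) (hsu _)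
        (continuous_finsetSum _ fun j _ => hsu _) (fun q hq => (h3 q hq).1)
        (fun q hq h4 => by
          obtain ⟨g1, g2, g3⟩ := (h3 q hq).2 h4
          refine Finset.sum_pos' (fun j hj => ?_) ⟨p, Finset.mem_Ico.2 ⟨c1.le, c2⟩, g3⟩
          rw [Finset.mem_Ico] at hj
          rcases le_total j p with hjp | hjp
          · exact g1 _ (hSm b j hj.1 (by omega)) (hSm j p hjp (by omega))
          · exact g2 _ (hSm p j hjp (by omega)))
      exact ⟨e, he, fun ε h1 h2 x u hxu hx _ _ hm ht => h ε h1 h2 (x, u) ⟨hxu, hx, hm, ht⟩⟩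
    · exact ⟨1, one_pos, fun ε _ _ x u _ _ h1 h2 _ _ => absurd ⟨h1, h2⟩ hc⟩
  choose e he h using key
  refine ⟨(Finset.range (r + 1)).inf' ⟨0, by simp⟩ e, ?_, ?_⟩
  · rw [Finset.lt_inf'_iff]
    exact fun p _ => he p
  · intro ε h1 h2 x u hxu hx p c1 c2 hm ht
    refine h p ε h1 (h2.trans (Finset.inf'_le _ ?_)) x u hxu hx c1 c2 hm ht
    rw [Finset.mem_range]
    omega

end Pool.Agent.Lib.MP_5e7226_co.SX
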