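import Mathlib

set_option autoImplicit false

/-! Definitions of the campaign SX (bodies with the symmetries of a simplex). -/

namespace Pool.Agent.Lib.MP_5e7226_co.SX

open Finset

variable {n : ℕ}

/-- The sum of `u` over `S`. -/
def su (u : Fin n → ℝ) (S : Finset (Fin n)) : ℝ := ∑ i ∈ S, u i

/-- `S` is a top set of `u`. -/
def Top (u : Fin n → ℝ) (S : Finset (Fin n)) : Prop := ∀ i ∈ S, ∀ j, j ∉ S → u j ≤ u i

/-- `S` is a strict top set of `x`. -/
def STop (x : Fin n → ℝ) (S : Finset (Fin n)) : Prop := ∀ i ∈ S, ∀ j, j ∉ S → x j < x i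

/-- The entries of `u` in decreasing order (`0` from `n` on). -/
noncomputable def srt (u : Fin n → ℝ) (c : ℕ) : ℝ :=
  if h : c < n then u (Tuple.sort (fun i => -u i) ⟨c, h⟩) else 0

/-- The sum of the `c` largest entries. -/
noncomputable def U (u : Fin n → ℝ) (c : ℕ) : ℝ := ∑ i ∈ range c, srt u i

/-- The drop after the `c` largest entries. -/
noncomputable def D (x : Fin n → ℝ) (c : ℕ) : ℝ := srt x (c - 1) - srt x c

/-- The spread of `x`. -/
noncomputable def T (x : Fin n → ℝ) : ℝ := ∑ c ∈ Ico 1 n, D x c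

/-- A compact set of dual pairs, invariant under permutations. -/
structure Dual (G : Set ((Fin n → ℝ) × (Fin n → ℝ))) : Prop where
  compact : IsCompact G
  sum1 : ∀ p ∈ G, ∑ i, p.1 i = 0
  sum2 : ∀ p ∈ G, ∑ i, p.2 i = 0
  one : ∀ p ∈ G, ∑ i, p.2 i * p.1 i = 1
  le : ∀ p ∈ G, ∀ q ∈ G, ∀ σ : Equiv.Perm (Fin n), ∑ i, p.2 i * q.1 (σ i) ≤ 1

/-- The conditions on the parameters: the middle range is `ℓ < c < r`. -/
structure Par (n ℓ r : ℕ) : Prop where
  hr : r < n
  a : ∀ b c, ℓ < b → b < r → ℓ < c → c < r → c ≤ b + (n - r)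
  b : ∀ b c p, ℓ < c → c ≤ b → b < p → p < r → p ≤ b + c
  c : ∀ p b q, ℓ < p → p < b → b < q → q < r → b * (p + q - b) < p * n

/-- All sizes of strict top sets of `x` are in the middle range. -/
def PM (ℓ r : ℕ) (x : Fin n → ℝ) : Prop := ∀ c ∈ Ico 1 n, 0 < D x c → ℓ < c ∧ c < r

/-- `z` works for `x`: positive on all `u` with `(x, u) ∈ G`. -/
def Works (G : Set ((Fin n → ℝ) × (Fin n → ℝ))) (x z : Fin n → ℝ) : Prop :=
  ∀ u, (x, u) ∈ G → 0 < ∑ i, u i * z i

/-- The number of directions. -/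
def cnt (n ℓ r : ℕ) : ℕ :=
  (∑ s ∈ Ico 1 (ℓ + 1), n.choose s) + (∑ s ∈ Ico r n, n.choose s) + n.choose (n / 2)

end Pool.Agent.Lib.MP_5e7226_co.SX
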