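import Pool.Agent.Lib.MP_5e7226_co.SX.Core
import Pool.Agent.Lib.MP_5e7226_co.SX.Bi
import Pool.Agent.Lib.MP_5e7226_co.SX.Gm2
import Pool.Agent.Lib.MP_5e7226_co.SX.Gm3

set_option autoImplicit false

/-! The assembly. -/

namespace Pool.Agent.Lib.MP_5e7226_co.SX

open Finset
open scoped InnerProductSpace

theorem fin_bounds {d ℓ r : ℕ} (hd : 1 ≤ d) (hp : Par (d + 1) ℓ r) (a : Fin (d + 1) → EuclideanSpace ℝ (Fin d))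
    (ha : AffineIndependent ℝ a) (K : Set (EuclideanSpace ℝ (Fin d))) (hconv : Convex ℝ K) (hcomp : IsCompact K)
    (hint : (interior K).Nonempty)
    (hsym : ∀ σ : Equiv.Perm (Fin (d + 1)), ∀ w : Fin (d + 1) → ℝ, ∑ i, w i = 1 → ∑ i, w i • a i ∈ K →
        ∑ i, w i • a (σ i) ∈ K) :
    (∃ p : Fin (cnt (d + 1) ℓ r) → EuclideanSpace ℝ (Fin d), (∀ i, p i ∉ K) ∧
      ∀ q ∈ frontier K, ∃ i, ∃ s : ℝ, 0 < s ∧ q + s • (q - p i) ∈ interior K) ∧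
    (∃ w : Fin (cnt (d + 1) ℓ r) → EuclideanSpace ℝ (Fin d), ∃ b : Fin (cnt (d + 1) ℓ r) → ℝ,
      ∀ u x₀ : EuclideanSpace ℝ (Fin d), u ≠ 0 → x₀ ∈ K → (∀ y ∈ K, ⟪u, y⟫_ℝ ≤ ⟪u, x₀⟫_ℝ) →
        ∃ i, ⟪w i, ∑ j, (1 / ((d : ℝ) + 1)) • a j⟫_ℝ < b i ∧
          ∀ x ∈ K, ⟪u, x⟫_ℝ = ⟪u, x₀⟫_ℝ → b i < ⟪w i, x⟫_ℝ) := by
  have htop : affineSpan ℝ (Set.range a) = ⊤ := by
    rw [ha.affineSpan_eq_top_iff_card_eq_finrank_add_one]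
    simp
  let b : AffineBasis (Fin (d + 1)) ℝ (EuclideanSpace ℝ (Fin d)) := ⟨a, ha, htop⟩
  have hb : ∀ i, b i = a i := fun i => rfl
  have hK : SymBody b K := by
    refine ⟨hconv, hcomp, hint, fun σ p hp => ?_⟩
    have h1 := hsym σ (fun i => b.coord i p) (b.sum_coord_apply_eq_one p) (by
      have h2 := b.linear_combination_coord_eq_self p
      simp only [hb] at h2
      rw [h2]
      exact hp)
    simpa only [hb] using h1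
  have hcen : cen b = ∑ j, (1 / ((d : ℝ) + 1)) • a j := by
    simp only [cen, hb, Nat.cast_add, Nat.cast_one]
  constructor
  · obtain ⟨ι, _, hι, z, hz⟩ := core hp (by omega) (dual_GK hK)
    obtain ⟨v, hv⟩ := illum_dirs hK z hz
    exact illum_points hd hcomp hv hι
  · obtain ⟨ι, _, hι, z, hz⟩ := core hp (by omega) (dual_swp (dual_GK hK))
    have h := sep_to_hyperplanes hcomp (cen b) (sep_of_works hK z hz hι)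
    rw [hcen] at h
    exact h

theorem illum_mono {d m n : ℕ} {K : Set (EuclideanSpace ℝ (Fin d))} (h0 : 0 < m) (hmn : m ≤ n)
    (h : ∃ p : Fin m → EuclideanSpace ℝ (Fin d), (∀ i, p i ∉ K) ∧
      ∀ q ∈ frontier K, ∃ i, ∃ s : ℝ, 0 < s ∧ q + s • (q - p i) ∈ interior K) :
    ∃ p : Fin n → EuclideanSpace ℝ (Fin d), (∀ i, p i ∉ K) ∧
      ∀ q ∈ frontier K, ∃ i, ∃ s : ℝ, 0 < s ∧ q + s • (q - p i) ∈ interior K := by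
  obtain ⟨p, hp, hq⟩ := h
  refine ⟨fun i => if h : (i : ℕ) < m then p ⟨i, h⟩ else p ⟨0, h0⟩, fun i => ?_, fun q hqK => ?_⟩
  · dsimp only
    split_ifs
    · exact hp _
    · exact hp _
  · obtain ⟨i, s, hs, h1⟩ := hq q hqK
    refine ⟨⟨i, i.2.trans_le hmn⟩, s, hs, ?_⟩
    simpa using h1

theorem sep_mono {d m n : ℕ} {K : Set (EuclideanSpace ℝ (Fin d))} {o : EuclideanSpace ℝ (Fin d)} (hmn : m ≤ n)
    (h : ∃ w : Fin m → EuclideanSpace ℝ (Fin d), ∃ b : Fin m → ℝ,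
      ∀ u x₀ : EuclideanSpace ℝ (Fin d), u ≠ 0 → x₀ ∈ K → (∀ y ∈ K, ⟪u, y⟫_ℝ ≤ ⟪u, x₀⟫_ℝ) →
        ∃ i, ⟪w i, o⟫_ℝ < b i ∧ ∀ x ∈ K, ⟪u, x⟫_ℝ = ⟪u, x₀⟫_ℝ → b i < ⟪w i, x⟫_ℝ) :
    ∃ w : Fin n → EuclideanSpace ℝ (Fin d), ∃ b : Fin n → ℝ,
      ∀ u x₀ : EuclideanSpace ℝ (Fin d), u ≠ 0 → x₀ ∈ K → (∀ y ∈ K, ⟪u, y⟫_ℝ ≤ ⟪u, x₀⟫_ℝ) →
        ∃ i, ⟪w i, o⟫_ℝ < b i ∧ ∀ x ∈ K, ⟪u, x⟫_ℝ = ⟪u, x₀⟫_ℝ → b i < ⟪w i, x⟫_ℝ := by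
  obtain ⟨w, b, hw⟩ := h
  refine ⟨fun i => if h : (i : ℕ) < m then w ⟨i, h⟩ else 0, fun i => if h : (i : ℕ) < m then b ⟨i, h⟩ else 0,
    fun u x₀ hu hx₀ hmax => ?_⟩
  obtain ⟨i, h1, h2⟩ := hw u x₀ hu hx₀ hmax
  refine ⟨⟨i, i.2.trans_le hmn⟩, ?_, fun x hx hux => ?_⟩
  · simpa using h1
  · simpa using h2 x hx hux

end Pool.Agent.Lib.MP_5e7226_co.SX
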