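import Pool.Agent.Lib.MP_5e7226_co.Basic
import Pool.Agent.Lib.MP_5e7226_co.SX.Defs

set_option autoImplicit false

/-! Geometry: a body with the symmetries of a simplex, and its set of dual pairs. -/

namespace Pool.Agent.Lib.MP_5e7226_co.SX

open Finset

variable {d n : ℕ}

/-- The centre of the simplex. -/
noncomputable def cen (b : AffineBasis (Fin n) ℝ (EuclideanSpace ℝ (Fin d))) : EuclideanSpace ℝ (Fin d) :=
  ∑ i, (1 / (n : ℝ)) • b i

/-- The barycentric coordinates relative to the centre. -/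
noncomputable def co (b : AffineBasis (Fin n) ℝ (EuclideanSpace ℝ (Fin d))) (p : EuclideanSpace ℝ (Fin d)) :
    Fin n → ℝ := fun i => b.coord i p - 1 / n

/-- The values of a functional at the vertices, relative to the centre. -/
noncomputable def fu (b : AffineBasis (Fin n) ℝ (EuclideanSpace ℝ (Fin d)))
    (f : EuclideanSpace ℝ (Fin d) →L[ℝ] ℝ) : Fin n → ℝ := fun i => f (b i) - f (cen b)

/-- The dual pairs of `K`. -/
def GK (b : AffineBasis (Fin n) ℝ (EuclideanSpace ℝ (Fin d))) (K : Set (EuclideanSpace ℝ (Fin d))) :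
    Set ((Fin n → ℝ) × (Fin n → ℝ)) :=
  {q | ∃ p ∈ K, ∃ f : EuclideanSpace ℝ (Fin d) →L[ℝ] ℝ, (∀ y ∈ K, f y - f (cen b) ≤ 1) ∧
    f p - f (cen b) = 1 ∧ q = (co b p, fu b f)}

/-- The swapped pairs. -/
def swp (G : Set ((Fin n → ℝ) × (Fin n → ℝ))) : Set ((Fin n → ℝ) × (Fin n → ℝ)) := {q | (q.2, q.1) ∈ G}

/-- A convex body with the symmetries of the simplex. -/
structure SymBody (b : AffineBasis (Fin n) ℝ (EuclideanSpace ℝ (Fin d)))
    (K : Set (EuclideanSpace ℝ (Fin d))) : Prop where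
  convex : Convex ℝ K
  compact : IsCompact K
  int : (interior K).Nonempty
  sym : ∀ σ : Equiv.Perm (Fin n), ∀ p ∈ K, ∑ i, b.coord i p • b (σ i) ∈ K

theorem n_pos (b : AffineBasis (Fin n) ℝ (EuclideanSpace ℝ (Fin d))) : 0 < n := by
  have : Nonempty (Fin n) := b.nonempty
  exact Fin.pos_iff_nonempty.2 this

theorem sum_co (b : AffineBasis (Fin n) ℝ (EuclideanSpace ℝ (Fin d))) (p : EuclideanSpace ℝ (Fin d)) :
    ∑ i, co b p i = 0 := by
  have hn : (n : ℝ) ≠ 0 := by exact_mod_cast (n_pos b).ne'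
  simp only [co, sum_sub_distrib, b.sum_coord_apply_eq_one, sum_const, card_univ, Fintype.card_fin, nsmul_eq_mul]
  field_simp
  ring

theorem sum_fu (b : AffineBasis (Fin n) ℝ (EuclideanSpace ℝ (Fin d))) (f : EuclideanSpace ℝ (Fin d) →L[ℝ] ℝ) :
    ∑ i, fu b f i = 0 := by
  have hn : (n : ℝ) ≠ 0 := by exact_mod_cast (n_pos b).ne'
  simp only [fu, sum_sub_distrib, cen, map_sum, map_smul, smul_eq_mul, sum_const, card_univ, Fintype.card_fin,
    nsmul_eq_mul, ← mul_sum]
  field_simp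
  ring

theorem pairing (b : AffineBasis (Fin n) ℝ (EuclideanSpace ℝ (Fin d))) (f : EuclideanSpace ℝ (Fin d) →L[ℝ] ℝ)
    (p : EuclideanSpace ℝ (Fin d)) : f p - f (cen b) = ∑ i, fu b f i * co b p i := by
  have h1 : f p = ∑ i, b.coord i p * f (b i) := by
    have h3 := congrArg f (b.linear_combination_coord_eq_self p)
    rw [map_sum] at h3
    simp only [map_smul, smul_eq_mul] at h3
    exact h3.symm
  have h2 : ∑ i, fu b f i * co b p i = ∑ i, b.coord i p * f (b i) - ∑ i, b.coord i p * f (cen b)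
      - (1 / (n : ℝ)) * ∑ i, fu b f i := by
    rw [mul_sum, ← sum_sub_distrib, ← sum_sub_distrib]
    refine sum_congr rfl fun i _ => ?_
    simp only [co, fu]
    ring
  rw [h2, sum_fu, mul_zero, sub_zero, ← sum_mul, b.sum_coord_apply_eq_one, one_mul, h1]

end Pool.Agent.Lib.MP_5e7226_co.SX
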