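import Pool.Agent.Lib.MP_5e7226_co.SX.Gm0
import Pool.Agent.Lib.MP_5e7226_co.HT.Polar

set_option autoImplicit false

/-! Row Gm1: `Dual (GK b K)`. -/

namespace Pool.Agent.Lib.MP_5e7226_co.SX

open Finset

variable {d n : ℕ}

/-- The permutation of the vertices, extended to the space. -/
noncomputable def Gm1_A (b : AffineBasis (Fin n) ℝ (EuclideanSpace ℝ (Fin d))) (σ : Equiv.Perm (Fin n))
    (p : EuclideanSpace ℝ (Fin d)) : EuclideanSpace ℝ (Fin d) := ∑ i, b.coord i p • b (σ i)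

theorem Gm1_coord_sum (b : AffineBasis (Fin n) ℝ (EuclideanSpace ℝ (Fin d))) {w : Fin n → ℝ}
    (hw : ∑ i, w i = 1) (j : Fin n) : b.coord j (∑ i, w i • b i) = w j := by
  have h1 : (∑ i, w i • b i) = (univ : Finset (Fin n)).affineCombination ℝ b w := by
    rw [Finset.affineCombination_eq_linear_combination _ _ _ hw]
  rw [h1]
  exact b.coord_apply_combination_of_mem (mem_univ j) hw

theorem Gm1_A_eq (b : AffineBasis (Fin n) ℝ (EuclideanSpace ℝ (Fin d))) (σ : Equiv.Perm (Fin n))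
    (p : EuclideanSpace ℝ (Fin d)) : Gm1_A b σ p = ∑ j, b.coord (σ⁻¹ j) p • b j := by
  unfold Gm1_A
  rw [← Equiv.sum_comp σ (fun j => b.coord (σ⁻¹ j) p • b j)]
  simp

theorem Gm1_coord_A (b : AffineBasis (Fin n) ℝ (EuclideanSpace ℝ (Fin d))) (σ : Equiv.Perm (Fin n))
    (p : EuclideanSpace ℝ (Fin d)) (j : Fin n) : b.coord j (Gm1_A b σ p) = b.coord (σ⁻¹ j) p := by
  rw [Gm1_A_eq]
  refine Gm1_coord_sum b (w := fun j => b.coord (σ⁻¹ j) p) ?_ j
  rw [Equiv.sum_comp σ⁻¹ (fun j => b.coord j p)]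
  exact b.sum_coord_apply_eq_one p

theorem Gm1_A_A (b : AffineBasis (Fin n) ℝ (EuclideanSpace ℝ (Fin d))) (σ : Equiv.Perm (Fin n))
    (p : EuclideanSpace ℝ (Fin d)) : Gm1_A b σ (Gm1_A b σ⁻¹ p) = p := by
  rw [Gm1_A_eq]
  have : ∀ j, b.coord (σ⁻¹ j) (Gm1_A b σ⁻¹ p) = b.coord j p := by
    intro j
    rw [Gm1_coord_A]
    simp
  simp only [this]
  exact b.linear_combination_coord_eq_self p

theorem Gm1_cont (b : AffineBasis (Fin n) ℝ (EuclideanSpace ℝ (Fin d))) (i : Fin n) :
    Continuous (fun p => b.coord i p) := (b.coord i).continuous_of_finiteDimensional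

theorem Gm1_A_cont (b : AffineBasis (Fin n) ℝ (EuclideanSpace ℝ (Fin d))) (σ : Equiv.Perm (Fin n)) :
    Continuous (Gm1_A b σ) := by
  unfold Gm1_A
  exact continuous_finsetSum _ fun i _ => (Gm1_cont b i).smul continuous_const

theorem Gm1_A_int {b : AffineBasis (Fin n) ℝ (EuclideanSpace ℝ (Fin d))}
    {K : Set (EuclideanSpace ℝ (Fin d))} (hK : SymBody b K) (σ : Equiv.Perm (Fin n))
    {p : EuclideanSpace ℝ (Fin d)} (hp : p ∈ interior K) : Gm1_A b σ p ∈ interior K := by
  have h1 : IsOpen (Gm1_A b σ⁻¹ ⁻¹' interior K) := isOpen_interior.preimage (Gm1_A_cont b σ⁻¹)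
  have h2 : Gm1_A b σ⁻¹ ⁻¹' interior K ⊆ K := by
    intro y hy
    have h3 := hK.sym σ _ (interior_subset hy)
    have h4 : Gm1_A b σ (Gm1_A b σ⁻¹ y) = y := Gm1_A_A b σ y
    have h5 : Gm1_A b σ (Gm1_A b σ⁻¹ y) ∈ K := h3
    rwa [h4] at h5
  refine interior_maximal h2 h1 ?_
  show Gm1_A b σ⁻¹ (Gm1_A b σ p) ∈ interior K
  have h5 := Gm1_A_A b σ⁻¹ p
  rw [inv_inv] at h5
  rwa [h5]

/-- Gm1a. PROOF. Let `p ∈ interior K`. For every `σ` the point `∑ i, b.coord i p • b (σ i)` is in `interior K` (the affine map `y ↦ ∑ i, b.coord i y • b (σ i)` is a homeomorphism of the space onto itself,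
it maps `K` into `K`, so `interior K` into `interior K`); the mean of these points over all `σ` is the centre; `interior K` is convex. (Or average over the `n` cyclic shifts.) -/
theorem cen_mem_interior {b : AffineBasis (Fin n) ℝ (EuclideanSpace ℝ (Fin d))}
    {K : Set (EuclideanSpace ℝ (Fin d))} (hK : SymBody b K) : cen b ∈ interior K := by
  obtain ⟨p, hp⟩ := hK.int
  have hn : 0 < n := n_pos b
  have : NeZero n := ⟨hn.ne'⟩
  have hn' : (n : ℝ) ≠ 0 := by exact_mod_cast hn.ne'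
  have h1 : ∑ s : Fin n, (1 / (n : ℝ)) • Gm1_A b (Equiv.addRight s) p = cen b := by
    unfold cen
    rw [← smul_sum, ← smul_sum]
    congr 1
    unfold Gm1_A
    rw [sum_comm]
    have h2 : ∀ i : Fin n, ∑ s : Fin n, b.coord i p • b ((Equiv.addRight s) i) =
        b.coord i p • ∑ j, b j := by
      intro i
      rw [← smul_sum]
      congr 1
      exact Equiv.sum_comp (Equiv.addLeft i) (fun j => b j)
    rw [sum_congr rfl fun i _ => h2 i, ← sum_smul, b.sum_coord_apply_eq_one, one_smul]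
  rw [← h1]
  refine hK.convex.interior.sum_mem (fun _ _ => by positivity) ?_ (fun s _ => Gm1_A_int hK _ hp)
  rw [sum_const, card_univ, Fintype.card_fin, nsmul_eq_mul]
  field_simp

/-- Gm1b. PROOF. Compact: image of the compact set `{(p, f) : p ∈ K, f ∈ polar of K - cen, f p - f cen = 1}` under a continuous map (`polarBody_closed`, `polarBody_bounded` of `HT/Polar.lean` for
`(fun x => x - cen b) '' K`; finite dimension). `sum1 sum2`: `sum_co`, `sum_fu`. `one`: `pairing`. `le`: `∑ i, fu b f i * co b p (σ i) = f p' - f (cen b)` for the point `p' = ∑ i, b.coord i p • b (σ⁻¹ i) ∈ K`. -/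
theorem dual_GK {b : AffineBasis (Fin n) ℝ (EuclideanSpace ℝ (Fin d))}
    {K : Set (EuclideanSpace ℝ (Fin d))} (hK : SymBody b K) : Dual (GK b K) := by
  have hcen := cen_mem_interior hK
  refine ⟨?_, ?_, ?_, ?_, ?_⟩
  · set K' : Set (EuclideanSpace ℝ (Fin d)) := (fun x => x - cen b) '' K with hK'
    have h0 : (0 : EuclideanSpace ℝ (Fin d)) ∈ interior K' := by
      have h1 : (Homeomorph.subRight (cen b)) '' interior K = interior ((Homeomorph.subRight (cen b)) '' K) :=
        (Homeomorph.subRight (cen b)).image_interior K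
      have h2 : (0 : EuclideanSpace ℝ (Fin d)) ∈ (Homeomorph.subRight (cen b)) '' interior K :=
        ⟨cen b, hcen, by simp⟩
      rw [h1] at h2
      exact h2
    have hP : IsCompact (polarBody K') := by
      have : ProperSpace (EuclideanSpace ℝ (Fin d) →L[ℝ] ℝ) := FiniteDimensional.proper ℝ _
      exact Metric.isCompact_of_isClosed_isBounded (polarBody_closed K') (polarBody_bounded h0)
    have hmem : ∀ f : EuclideanSpace ℝ (Fin d) →L[ℝ] ℝ, f ∈ polarBody K' ↔
        ∀ y ∈ K, f y - f (cen b) ≤ 1 := by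
      intro f
      constructor
      · intro h y hy
        have := h (y - cen b) ⟨y, hy, rfl⟩
        rwa [map_sub] at this
      · rintro h _ ⟨y, hy, rfl⟩
        rw [map_sub]
        exact h y hy
    have hcl : IsClosed {q : EuclideanSpace ℝ (Fin d) × (EuclideanSpace ℝ (Fin d) →L[ℝ] ℝ) |
        q.2 q.1 - q.2 (cen b) = 1} := by
      refine isClosed_eq ?_ continuous_const
      exact (continuous_snd.clm_apply continuous_fst).sub (continuous_snd.clm_apply continuous_const)
    have hc : IsCompact ((K ×ˢ polarBody K') ∩ {q : EuclideanSpace ℝ (Fin d) × (EuclideanSpace ℝ (Fin d) →L[ℝ] ℝ) |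
        q.2 q.1 - q.2 (cen b) = 1}) := (hK.compact.prod hP).inter_right hcl
    have himg : GK b K = (fun q : EuclideanSpace ℝ (Fin d) × (EuclideanSpace ℝ (Fin d) →L[ℝ] ℝ) =>
        (co b q.1, fu b q.2)) '' ((K ×ˢ polarBody K') ∩ {q | q.2 q.1 - q.2 (cen b) = 1}) := by
      ext q
      constructor
      · rintro ⟨p, hp, f, hf, h1, rfl⟩
        exact ⟨(p, f), ⟨⟨hp, (hmem f).2 hf⟩, h1⟩, rfl⟩
      · rintro ⟨⟨p, f⟩, ⟨⟨hp, hf⟩, h1⟩, rfl⟩
        exact ⟨p, hp, f, (hmem f).1 hf, h1, rfl⟩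
    rw [himg]
    refine hc.image ?_
    refine Continuous.prodMk ?_ ?_
    · refine continuous_pi fun i => ?_
      exact ((Gm1_cont b i).comp continuous_fst).sub continuous_const
    · refine continuous_pi fun i => ?_
      exact (continuous_snd.clm_apply continuous_const).sub (continuous_snd.clm_apply continuous_const)
  · rintro _ ⟨p, _, f, _, _, rfl⟩
    exact sum_co b p
  · rintro _ ⟨p, _, f, _, _, rfl⟩
    exact sum_fu b f
  · rintro _ ⟨p, _, f, _, h1, rfl⟩
    rw [← h1]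
    exact (pairing b f p).symm
  · rintro _ ⟨p, hp, f, hf, h1, rfl⟩ _ ⟨p', hp', f', hf', h1', rfl⟩ σ
    have h2 : Gm1_A b σ⁻¹ p' ∈ K := hK.sym σ⁻¹ p' hp'
    have h3 := hf _ h2
    rw [pairing] at h3
    have h4 : ∀ i, co b (Gm1_A b σ⁻¹ p') i = co b p' (σ i) := by
      intro i
      unfold co
      rw [Gm1_coord_A]
      simp
    simp only [h4] at h3
    exact h3

/-- Gm1c. -/
theorem dual_swp {G : Set ((Fin n → ℝ) × (Fin n → ℝ))} (hG : Dual G) : Dual (swp G) := by
  refine ⟨?_, ?_, ?_, ?_, ?_⟩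
  · have h1 : swp G = Prod.swap '' G := by
      ext q
      constructor
      · intro h
        exact ⟨(q.2, q.1), h, rfl⟩
      · rintro ⟨q', h, rfl⟩
        exact h
    rw [h1]
    exact hG.compact.image continuous_swap
  · intro p hp
    exact hG.sum2 _ hp
  · intro p hp
    exact hG.sum1 _ hp
  · intro p hp
    rw [← hG.one _ hp]
    exact sum_congr rfl fun i _ => mul_comm _ _
  · intro p hp q hq σ
    have h1 := hG.le _ hq _ hp σ⁻¹
    refine le_trans (le_of_eq ?_) h1
    rw [← Equiv.sum_comp σ (fun i => ((q.2, q.1) : (Fin n → ℝ) × (Fin n → ℝ)).2 i *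
      ((p.2, p.1) : (Fin n → ℝ) × (Fin n → ℝ)).1 (σ⁻¹ i))]
    refine sum_congr rfl fun i _ => ?_
    simp [mul_comm]

end Pool.Agent.Lib.MP_5e7226_co.SX
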