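import Pool.Agent.Lib.MP_5e7226_co.SX.Defs

set_option autoImplicit false

/-! Row P1: sums over sets and the function `U`. -/

namespace Pool.Agent.Lib.MP_5e7226_co.SX

open Finset

variable {n : ℕ}

/-- P1a. PROOF. `Tuple.monotone_sort`. -/
theorem srt_anti (u : Fin n → ℝ) {c c' : ℕ} (h : c ≤ c') (h' : c' < n) : srt u c' ≤ srt u c := by
  have hc : c < n := lt_of_le_of_lt h h'
  unfold srt
  rw [dif_pos hc, dif_pos h']
  have hm := Tuple.monotone_sort (fun i => -u i)
  have h1 := @hm (⟨c, hc⟩ : Fin n) ⟨c', h'⟩ (by rw [Fin.mk_le_mk]; exact h)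
  simp only [Function.comp_apply] at h1
  linarith

/-- P1b. PROOF. The sum over `S = σ '' I`, `σ` the sorting permutation, `I` a set of `c` positions; the `i`-th smallest element of `I` is `≥ i`. (Or by induction / exchange.) -/
theorem su_le_U (u : Fin n → ℝ) (S : Finset (Fin n)) : su u S ≤ U u S.card := by
  classical
  set f : Fin n → ℝ := fun i => srt u i with hf
  set σ := Tuple.sort (fun i => -u i) with hσ
  set I : Finset (Fin n) := S.map σ.symm.toEmbedding with hI
  set R : Finset (Fin n) := univ.filter fun i : Fin n => (i : ℕ) < S.card with hR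
  have hcS : S.card ≤ n := by
    have := card_le_univ S
    rwa [Fintype.card_fin] at this
  have hIc : I.card = S.card := card_map _
  have hfu : ∀ i : Fin n, f i = u (σ i) := by
    intro i
    simp only [hf, srt, i.isLt, dif_pos, Fin.eta, hσ]
  have h1 : su u S = ∑ i ∈ I, f i := by
    rw [hI, sum_map, su]
    refine sum_congr rfl fun i _ => ?_
    rw [hfu]
    simp
  have hUR : U u S.card = ∑ i ∈ R, f i := by
    unfold U
    symm
    refine sum_bij' (fun (i : Fin n) _ => (i : ℕ))
      (fun i hi => (⟨i, lt_of_lt_of_le (mem_range.1 hi) hcS⟩ : Fin n)) ?_ ?_ ?_ ?_ ?_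
    · intro i hi
      rw [mem_range]
      exact (mem_filter.1 hi).2
    · intro i hi
      rw [hR, mem_filter]
      exact ⟨mem_univ _, mem_range.1 hi⟩
    · intro i hi
      rfl
    · intro i hi
      rfl
    · intro i hi
      rfl
  have hRc : R.card = S.card := by
    have h2 : R.card = (range S.card).card := by
      refine card_bij' (fun (i : Fin n) _ => (i : ℕ))
        (fun i hi => (⟨i, lt_of_lt_of_le (mem_range.1 hi) hcS⟩ : Fin n)) ?_ ?_ ?_ ?_
      · intro i hi
        rw [mem_range]
        exact (mem_filter.1 hi).2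
      · intro i hi
        rw [hR, mem_filter]
        exact ⟨mem_univ _, mem_range.1 hi⟩
      · intro i hi
        rfl
      · intro i hi
        rfl
    rw [h2, card_range]
  rw [h1, hUR]
  rcases Nat.eq_or_lt_of_le hcS with hn | hn
  · have hIu : I = univ := by
      rw [← card_eq_iff_eq_univ, hIc, hn, Fintype.card_fin]
    have hRu : R = univ := by
      rw [← card_eq_iff_eq_univ, hRc, hn, Fintype.card_fin]
    rw [hIu, hRu]
  · have hd : (I \ R).card = (R \ I).card := card_sdiff_comm (hIc.trans hRc.symm)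
    have h2 : ∑ i ∈ I \ R, f i ≤ ((I \ R).card : ℝ) * srt u S.card := by
      have h3 := sum_le_card_nsmul (I \ R) f (srt u S.card) (fun i hi => by
        rw [mem_sdiff, hR, mem_filter] at hi
        have h4 : S.card ≤ (i : ℕ) := by
          by_contra hcon
          exact hi.2 ⟨mem_univ _, by omega⟩
        exact srt_anti u h4 i.isLt)
      rwa [nsmul_eq_mul] at h3
    have h5 : ((R \ I).card : ℝ) * srt u S.card ≤ ∑ i ∈ R \ I, f i := by
      have h3 := card_nsmul_le_sum (R \ I) f (srt u S.card) (fun i hi => by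
        rw [mem_sdiff, hR, mem_filter] at hi
        exact srt_anti u hi.1.2.le hn)
      rwa [nsmul_eq_mul] at h3
    have h6 := sum_inter_add_sum_sdiff I R f
    have h7 := sum_inter_add_sum_sdiff R I f
    rw [inter_comm] at h7
    rw [hd] at h2
    linarith

/-- P1c. -/
theorem U_n (u : Fin n → ℝ) : U u n = ∑ i, u i := by
  unfold U
  rw [sum_range]
  have h1 : ∀ i : Fin n, srt u i = u (Tuple.sort (fun i => -u i) i) := by
    intro i
    simp only [srt, i.isLt, dif_pos, Fin.eta]
  rw [sum_congr rfl fun i _ => h1 i]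
  exact Equiv.sum_comp (Tuple.sort (fun i => -u i)) u

/-- P1d. PROOF. `su u S = - su u Sᶜ` and P1b. -/
theorem su_ge {u : Fin n → ℝ} (hu : ∑ i, u i = 0) (S : Finset (Fin n)) : -U u (n - S.card) ≤ su u S := by
  classical
  have h1 := su_le_U u Sᶜ
  rw [card_compl, Fintype.card_fin] at h1
  have h2 : su u S + su u Sᶜ = 0 := by
    unfold su
    rw [sum_add_sum_compl, hu]
  linarith

/-- P1e. There is a top set of every size `c ≤ n` with sum `U u c` (the first `c` positions of the sorting permutation). -/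
theorem exists_top (u : Fin n → ℝ) {c : ℕ} (hc : c ≤ n) :
    ∃ S : Finset (Fin n), S.card = c ∧ Top u S ∧ su u S = U u c := by
  classical
  set σ := Tuple.sort (fun i => -u i) with hσ
  set R : Finset (Fin n) := univ.filter fun i : Fin n => (i : ℕ) < c with hR
  have hfu : ∀ i : Fin n, srt u i = u (σ i) := by
    intro i
    simp only [srt, i.isLt, dif_pos, Fin.eta, hσ]
  have hRc : R.card = c := by
    have h2 : R.card = (range c).card := by
      refine card_bij' (fun (i : Fin n) _ => (i : ℕ))
        (fun i hi => (⟨i, lt_of_lt_of_le (mem_range.1 hi) hc⟩ : Fin n)) ?_ ?_ ?_ ?_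
      · intro i hi
        rw [mem_range]
        exact (mem_filter.1 hi).2
      · intro i hi
        rw [hR, mem_filter]
        exact ⟨mem_univ _, mem_range.1 hi⟩
      · intro i hi
        rfl
      · intro i hi
        rfl
    rw [h2, card_range]
  refine ⟨R.map σ.toEmbedding, ?_, ?_, ?_⟩
  · rw [card_map, hRc]
  · intro i hi j hj
    rw [mem_map] at hi
    obtain ⟨a, ha, rfl⟩ := hi
    have hb : σ.symm j ∉ R := by
      intro hb
      apply hj
      rw [mem_map]
      exact ⟨σ.symm j, hb, by simp⟩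
    have hac : (a : ℕ) < c := (mem_filter.1 ha).2
    have hbc : c ≤ (σ.symm j : ℕ) := by
      by_contra hcon
      exact hb (mem_filter.2 ⟨mem_univ _, by omega⟩)
    have h3 := srt_anti u (c := (a : ℕ)) (c' := (σ.symm j : ℕ)) (by omega) (σ.symm j).isLt
    rw [hfu, hfu] at h3
    simpa using h3
  · rw [su, sum_map]
    unfold U
    refine sum_bij' (fun (i : Fin n) _ => (i : ℕ))
      (fun i hi => (⟨i, lt_of_lt_of_le (mem_range.1 hi) hc⟩ : Fin n)) ?_ ?_ ?_ ?_ ?_
    · intro i hi
      rw [mem_range]
      exact (mem_filter.1 hi).2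
    · intro i hi
      rw [hR, mem_filter]
      exact ⟨mem_univ _, mem_range.1 hi⟩
    · intro i hi
      rfl
    · intro i hi
      rfl
    · intro i hi
      rw [hfu]
      rfl

/-- P1f. PROOF. Two top sets `S`, `S'` of the same size have the same sum: all entries of `S \ S'` are `≥` all those of `S' \ S` and conversely. -/
theorem su_top {u : Fin n → ℝ} {S : Finset (Fin n)} (h : Top u S) : su u S = U u S.card := by
  classical
  have hcS : S.card ≤ n := by
    have := card_le_univ S
    rwa [Fintype.card_fin] at this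
  obtain ⟨S', hc', -, hs'⟩ := exists_top u hcS
  refine le_antisymm (su_le_U u S) ?_
  rw [← hs']
  unfold su
  have hd : (S' \ S).card = (S \ S').card := card_sdiff_comm hc'
  have h6 := sum_inter_add_sum_sdiff S S' u
  have h7 := sum_inter_add_sum_sdiff S' S u
  rw [inter_comm] at h7
  have h8 : ∑ i ∈ S' \ S, u i ≤ ∑ i ∈ S \ S', u i := by
    rcases (S' \ S).eq_empty_or_nonempty with he | hne
    · have he' : S \ S' = ∅ := by
        rw [← card_eq_zero, ← hd, he, card_empty]
      rw [he, he']
    · obtain ⟨j, hj, hmax⟩ := exists_max_image (S' \ S) u hne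
      have h9 := sum_le_card_nsmul (S' \ S) u (u j) hmax
      have h10 := card_nsmul_le_sum (S \ S') u (u j) (fun i hi => by
        rw [mem_sdiff] at hi hj
        exact h i hi.1 j hj.2)
      rw [hd] at h9
      exact h9.trans h10
  linarith

/-- P1g. PROOF. If `u i < u j`, `i ∈ S`, `j ∉ S`, exchange them: the sum gets larger than `U`. -/
theorem top_of_eq {u : Fin n → ℝ} {S : Finset (Fin n)} (h : su u S = U u S.card) : Top u S := by
  intro i hi j hj
  by_contra hcon
  rw [not_le] at hcon
  have hij : j ∉ S.erase i := fun hm => hj (mem_of_mem_erase hm)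
  have hcard : (insert j (S.erase i)).card = S.card := by
    rw [card_insert_of_notMem hij, card_erase_add_one hi]
  have h1 := su_le_U u (insert j (S.erase i))
  rw [hcard, ← h] at h1
  unfold su at h1
  rw [sum_insert hij] at h1
  have h2 := add_sum_erase S u hi
  linarith

/-- P1h. Concavity. -/
theorem U_concave (u : Fin n → ℝ) {a b c : ℕ} (hab : a ≤ b) (hbc : b ≤ c) (hc : c ≤ n) :
    ((c : ℝ) - b) * U u a + ((b : ℝ) - a) * U u c ≤ ((c : ℝ) - a) * U u b := by
  rcases Nat.eq_or_lt_of_le hbc with h | h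
  · subst h
    linarith
  have hb : b < n := by omega
  have h1 : U u b = U u a + ∑ i ∈ Ico a b, srt u i := by
    unfold U
    rw [sum_range_add_sum_Ico _ hab]
  have h2 : U u c = U u b + ∑ i ∈ Ico b c, srt u i := by
    unfold U
    rw [sum_range_add_sum_Ico _ hbc]
  have h3 : ((b : ℝ) - a) * srt u b ≤ ∑ i ∈ Ico a b, srt u i := by
    have h4 := card_nsmul_le_sum (Ico a b) (srt u) (srt u b) (fun i hi => by
      rw [mem_Ico] at hi
      exact srt_anti u (by omega) hb)
    rw [Nat.card_Ico, nsmul_eq_mul, Nat.cast_sub hab] at h4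
    exact h4
  have h5 : ∑ i ∈ Ico b c, srt u i ≤ ((c : ℝ) - b) * srt u b := by
    have h6 := sum_le_card_nsmul (Ico b c) (srt u) (srt u b) (fun i hi => by
      rw [mem_Ico] at hi
      exact srt_anti u hi.1 (by omega))
    rw [Nat.card_Ico, nsmul_eq_mul, Nat.cast_sub hbc] at h6
    exact h6
  have hab' : (0 : ℝ) ≤ (b : ℝ) - a := by
    have : (a : ℝ) ≤ b := by exact_mod_cast hab
    linarith
  have hbc' : (0 : ℝ) ≤ (c : ℝ) - b := by
    have : (b : ℝ) ≤ c := by exact_mod_cast hbc
    linarith
  have h7 := mul_le_mul_of_nonneg_left h3 hbc'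
  have h8 := mul_le_mul_of_nonneg_left h5 hab'
  rw [h2, h1]
  nlinarith [h7, h8]

/-- P1i. PROOF. `U u 0 = U u n = 0`; if `U u c ≤ 0` then concavity gives `U ≤ 0` ..., all entries equal, so `0`. (Or: `srt u (c-1) > 0` or `srt u c < 0`, else `u = 0`.) -/
theorem U_pos {u : Fin n → ℝ} (hu : ∑ i, u i = 0) (h0 : u ≠ 0) {c : ℕ} (hc : 0 < c) (hcn : c < n) : 0 < U u c := by
  by_contra hcon
  rw [not_lt] at hcon
  apply h0
  have hsplit : U u c + ∑ i ∈ Ico c n, srt u i = 0 := by
    rw [← hu, ← U_n]
    unfold U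
    rw [sum_range_add_sum_Ico _ hcn.le]
  have hc1 : srt u (c - 1) ≤ 0 := by
    by_contra hpos
    rw [not_le] at hpos
    have h1 : 0 < U u c := by
      unfold U
      refine sum_pos (fun i hi => ?_) ⟨0, by rw [mem_range]; exact hc⟩
      rw [mem_range] at hi
      exact lt_of_lt_of_le hpos (srt_anti u (by omega) (by omega))
    linarith
  have hneg : ∀ i ∈ Ico c n, srt u i ≤ 0 := by
    intro i hi
    rw [mem_Ico] at hi
    exact (srt_anti u (by omega) hi.2).trans hc1
  have hs1 : ∑ i ∈ Ico c n, srt u i ≤ 0 := sum_nonpos hneg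
  have hs2 : ∑ i ∈ Ico c n, srt u i = 0 := by linarith
  have hU : U u c = 0 := by linarith
  have hz1 : ∀ i ∈ Ico c n, srt u i = 0 := (sum_eq_zero_iff_of_nonpos hneg).1 hs2
  have hcz : srt u c = 0 := hz1 c (by rw [mem_Ico]; exact ⟨le_rfl, hcn⟩)
  have hge : ∀ i ∈ range c, 0 ≤ srt u i := by
    intro i hi
    rw [mem_range] at hi
    rw [← hcz]
    exact srt_anti u hi.le hcn
  have hz2 : ∀ i ∈ range c, srt u i = 0 := (sum_eq_zero_iff_of_nonneg hge).1 hU
  have hall : ∀ i, i < n → srt u i = 0 := by
    intro i hi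
    rcases Nat.lt_or_ge i c with h | h
    · exact hz2 i (mem_range.2 h)
    · exact hz1 i (mem_Ico.2 ⟨h, hi⟩)
  funext j
  have h1 := hall ((Tuple.sort (fun i => -u i)).symm j) ((Tuple.sort (fun i => -u i)).symm j).isLt
  unfold srt at h1
  rw [dif_pos ((Tuple.sort (fun i => -u i)).symm j).isLt] at h1
  simpa using h1

end Pool.Agent.Lib.MP_5e7226_co.SX
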