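import Pool.Agent.Lib.MP_5e7226_co.SX.P1

set_option autoImplicit false

/-! Row P2: rearrangement, and the drops `D`. -/

namespace Pool.Agent.Lib.MP_5e7226_co.SX

open Finset

variable {n : ℕ}

private theorem P2_abel_aux (a b : ℕ → ℝ) (m : ℕ) :
    ∑ j ∈ range (m + 1), a j * b j =
      ∑ c ∈ Ico 1 (m + 1), (b (c - 1) - b c) * (∑ i ∈ range c, a i) + b m * ∑ i ∈ range (m + 1), a i := by
  induction m with
  | zero => simp [mul_comm]
  | succ m ih =>
    rw [Finset.sum_range_succ, ih, Finset.sum_Ico_succ_top (show 1 ≤ m + 1 by omega),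
      Finset.sum_range_succ (fun i => a i) (m + 1), Nat.add_sub_cancel]
    ring

private theorem P2_srt (u : Fin n → ℝ) (j : Fin n) : srt u j = u (Tuple.sort (fun i => -u i) j) := by
  unfold srt
  rw [dif_pos j.2]

private theorem P2_range (u x : Fin n → ℝ) :
    ∑ j ∈ range n, srt u j * srt x j =
      ∑ j : Fin n, u (Tuple.sort (fun i => -u i) j) * x (Tuple.sort (fun i => -x i) j) := by
  rw [Finset.sum_range]
  exact Finset.sum_congr rfl fun j _ => by rw [P2_srt, P2_srt]

private theorem P2_anti (u : Fin n → ℝ) : Antitone (fun j => u (Tuple.sort (fun i => -u i) j)) := by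
  intro i j h
  have := Tuple.monotone_sort (fun i => -u i) h
  simp only [Function.comp_apply] at this
  exact neg_le_neg_iff.1 this

/-- P2a. Abel summation. PROOF. `Finset.sum_range_by_parts` or induction; `U u n = 0`, `U u 0 = 0`. -/
theorem abel {x u : Fin n → ℝ} (hu : ∑ i, u i = 0) :
    ∑ j ∈ range n, srt u j * srt x j = ∑ c ∈ Ico 1 n, D x c * U u c := by
  rcases n with _ | m
  · simp
  · rw [P2_abel_aux (srt u) (srt x) m]
    have h : ∑ i ∈ range (m + 1), srt u i = 0 := by
      have := U_n u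
      unfold U at this
      rw [this, hu]
    rw [h, mul_zero, add_zero]
    rfl

/-- P2b. PROOF. Rearrangement inequality (`MonovaryOn.sum_mul_comp_perm_le_sum_mul`, `Monovary.sum_mul_comp_perm_le_sum_mul`): write both through their sorting permutations; then P2a. -/
theorem pair_le {x u : Fin n → ℝ} (hu : ∑ i, u i = 0) (σ : Equiv.Perm (Fin n)) :
    ∑ i, u i * x (σ i) ≤ ∑ c ∈ Ico 1 n, D x c * U u c := by
  rw [← abel hu, P2_range]
  set s := Tuple.sort (fun i => -u i) with hs
  set t := Tuple.sort (fun i => -x i) with ht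
  have hmv : Monovary (fun j => u (s j)) (fun j => x (t j)) := (P2_anti u).monovary (P2_anti x)
  have h1 : ∑ i, u i * x (σ i) = ∑ j, u (s j) * x (t ((s.trans (σ.trans t.symm)) j)) := by
    rw [← Equiv.sum_comp s (fun i => u i * x (σ i))]
    refine Finset.sum_congr rfl fun j _ => ?_
    simp
  rw [h1]
  exact hmv.sum_mul_comp_perm_le_sum_mul

/-- P2c. PROOF. `σ = sort x ∘ (sort u)⁻¹`. -/
theorem exists_pair {x u : Fin n → ℝ} (hu : ∑ i, u i = 0) :
    ∃ σ : Equiv.Perm (Fin n), ∑ i, u i * x (σ i) = ∑ c ∈ Ico 1 n, D x c * U u c := by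
  rw [← abel hu, P2_range]
  set s := Tuple.sort (fun i => -u i) with hs
  set t := Tuple.sort (fun i => -x i) with ht
  refine ⟨s.symm.trans t, ?_⟩
  rw [← Equiv.sum_comp s (fun i => u i * x ((s.symm.trans t) i))]
  refine Finset.sum_congr rfl fun j _ => ?_
  simp

/-- P2d. -/
theorem D_nonneg (x : Fin n → ℝ) {c : ℕ} (h1 : 1 ≤ c) (h2 : c < n) : 0 ≤ D x c := by
  unfold D
  have := srt_anti x (show c - 1 ≤ c by omega) h2
  linarith

/-- P2e. PROOF. `→`: the first `c` positions. `←`: a strict top set of size `c` is the set of the first `c` positions. -/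
theorem D_pos_iff {x : Fin n → ℝ} {c : ℕ} (h1 : 1 ≤ c) (h2 : c < n) :
    0 < D x c ↔ ∃ S : Finset (Fin n), S.card = c ∧ STop x S := by
  set t := Tuple.sort (fun i => -x i) with ht
  set I : Finset (Fin n) := (univ : Finset (Fin c)).map ((Fin.castLEEmb h2.le).trans t.toEmbedding) with hI
  have hIc : I.card = c := by rw [hI, Finset.card_map, Finset.card_univ, Fintype.card_fin]
  have hmem : ∀ i : Fin n, i ∈ I ↔ ((t.symm i : Fin n) : ℕ) < c := by
    intro i
    rw [hI, Finset.mem_map]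
    constructor
    · rintro ⟨a, _, rfl⟩
      simp
    · intro h
      refine ⟨⟨(t.symm i : Fin n), h⟩, Finset.mem_univ _, ?_⟩
      simp
  have hx : ∀ i : Fin n, x i = srt x ((t.symm i : Fin n) : ℕ) := by
    intro i
    rw [P2_srt, ← ht, Equiv.apply_symm_apply]
  constructor
  · intro hD
    refine ⟨I, hIc, ?_⟩
    intro i hi j hj
    rw [hmem] at hi hj
    rw [hx i, hx j]
    have e1 : srt x ((t.symm j : Fin n) : ℕ) ≤ srt x c := srt_anti x (not_lt.1 hj) (t.symm j).2
    have e2 : srt x (c - 1) ≤ srt x ((t.symm i : Fin n) : ℕ) := srt_anti x (by omega) (by omega)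
    unfold D at hD
    linarith
  · rintro ⟨S, hSc, hS⟩
    have hsub : S ⊆ I := by
      intro i hi
      by_contra hiI
      have hne : ¬ I ⊆ S := by
        intro hIS
        have : I = S := Finset.eq_of_subset_of_card_le hIS (by rw [hIc, hSc])
        exact hiI (this ▸ hi)
      obtain ⟨j, hjI, hjS⟩ := Finset.not_subset.1 hne
      have h3 := hS i hi j hjS
      rw [hmem] at hiI hjI
      rw [hx i, hx j] at h3
      have h4 : srt x ((t.symm i : Fin n) : ℕ) ≤ srt x ((t.symm j : Fin n) : ℕ) :=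
        srt_anti x (by omega) (t.symm i).2
      linarith
    have hSI : S = I := Finset.eq_of_subset_of_card_le hsub (by rw [hIc, hSc])
    have hc1 : c - 1 < n := by omega
    have hi : t ⟨c - 1, hc1⟩ ∈ S := by
      rw [hSI, hmem, Equiv.symm_apply_apply]
      change c - 1 < c
      omega
    have hj : t ⟨c, h2⟩ ∉ S := by
      rw [hSI, hmem, Equiv.symm_apply_apply]
      change ¬ c < c
      omega
    have h3 := hS _ hi _ hj
    rw [hx, hx (t ⟨c - 1, _⟩)] at h3
    simp only [Equiv.symm_apply_apply] at h3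
    unfold D
    linarith

/-- P2f. PROOF. The first `P.card` sorted entries are all equal to the maximum: else use `D_pos_iff`: a strict top set `S` with `|S| < |P|` would contain all of `P`. -/
theorem D_zero {x : Fin n → ℝ} {P : Finset (Fin n)} (h : ∀ i ∈ P, ∀ j, x j ≤ x i) {c : ℕ} (h1 : 1 ≤ c)
    (h2 : c < P.card) : D x c = 0 := by
  have hPn : P.card ≤ n := by simpa using Finset.card_le_univ P
  have hcn : c < n := by omega
  by_contra hne
  have hpos : 0 < D x c := lt_of_le_of_ne (D_nonneg x h1 hcn) (Ne.symm hne)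
  obtain ⟨S, hSc, hS⟩ := (D_pos_iff h1 hcn).1 hpos
  have hPS : ¬ P ⊆ S := by
    intro hPS
    have := Finset.card_le_card hPS
    omega
  obtain ⟨i, hiP, hiS⟩ := Finset.not_subset.1 hPS
  obtain ⟨j, hjS⟩ := Finset.card_pos.1 (show 0 < S.card by omega)
  have h3 := hS j hjS i hiS
  have h4 := h i hiP j
  linarith

/-- P2g. PROOF. `∑ i, p.2 i * p.1 i = 1`, so by P2b the sum is `≥ 1`, by P2c and `Dual.le` it is `≤ 1`. -/
theorem pair_self {G : Set ((Fin n → ℝ) × (Fin n → ℝ))} (hG : Dual G) {x u : Fin n → ℝ} (h : (x, u) ∈ G) :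
    ∑ c ∈ Ico 1 n, D x c * U u c = 1 := by
  have hu : ∑ i, u i = 0 := hG.sum2 _ h
  refine le_antisymm ?_ ?_
  · obtain ⟨σ, hσ⟩ := exists_pair (x := x) hu
    rw [← hσ]
    exact hG.le _ h _ h σ
  · have h1 : ∑ i, u i * x i = 1 := hG.one _ h
    have h2 := pair_le (x := x) hu (Equiv.refl _)
    simp only [Equiv.refl_apply] at h2
    rw [h1] at h2
    exact h2

/-- P2h. -/
theorem pair_le_one {G : Set ((Fin n → ℝ) × (Fin n → ℝ))} (hG : Dual G) {x u y w : Fin n → ℝ} (h : (x, u) ∈ G)
    (h' : (y, w) ∈ G) : ∑ c ∈ Ico 1 n, D y c * U u c ≤ 1 := by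
  have hu : ∑ i, u i = 0 := hG.sum2 _ h
  obtain ⟨σ, hσ⟩ := exists_pair (x := y) hu
  rw [← hσ]
  exact hG.le _ h _ h' σ

/-- P2i. PROOF. The swap of `i` and `j` in `Dual.le`. -/
theorem top_of_stop {G : Set ((Fin n → ℝ) × (Fin n → ℝ))} (hG : Dual G) {x u : Fin n → ℝ} (h : (x, u) ∈ G)
    {S : Finset (Fin n)} (hS : STop x S) : Top u S := by
  intro i hi j hj
  have hlt : x j < x i := hS i hi j hj
  have hij : i ≠ j := by
    rintro rfl
    exact hj hi
  have h1 : ∑ k, u k * x k = 1 := hG.one _ h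
  have h2 : ∑ k, u k * x (Equiv.swap i j k) ≤ 1 := hG.le _ h _ h (Equiv.swap i j)
  have h3 : ∑ k, (u k * x (Equiv.swap i j k) - u k * x k) =
      (u i * x (Equiv.swap i j i) - u i * x i) + (u j * x (Equiv.swap i j j) - u j * x j) := by
    refine Finset.sum_eq_add_of_mem i j (Finset.mem_univ _) (Finset.mem_univ _) hij ?_
    rintro k _ ⟨hki, hkj⟩
    rw [Equiv.swap_apply_of_ne_of_ne hki hkj, sub_self]
  rw [Finset.sum_sub_distrib, h1, Equiv.swap_apply_left, Equiv.swap_apply_right] at h3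
  by_contra hc
  rw [not_le] at hc
  nlinarith [mul_pos (sub_pos.2 hc) (sub_pos.2 hlt)]

/-- P2j. The argmax of `x`. PROOF. `x ≠ 0` and `∑ x = 0`, so `x` is not constant; take the set of maximal entries. -/
theorem exists_argmax {x : Fin n → ℝ} (hx : ∑ i, x i = 0) (h0 : x ≠ 0) :
    ∃ P : Finset (Fin n), 1 ≤ P.card ∧ P.card < n ∧ STop x P ∧ (∀ i ∈ P, ∀ j, x j ≤ x i) ∧ 0 < D x P.card := by
  obtain ⟨k, hk⟩ := Function.ne_iff.1 h0
  obtain ⟨i₀, -, hi₀⟩ := Finset.exists_max_image (univ : Finset (Fin n)) x ⟨k, Finset.mem_univ _⟩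
  set P : Finset (Fin n) := univ.filter (fun i => x i = x i₀) with hP
  have hmem : ∀ i, i ∈ P ↔ x i = x i₀ := fun i => by rw [hP]; simp
  have hcard1 : 1 ≤ P.card := Finset.card_pos.2 ⟨i₀, (hmem _).2 rfl⟩
  have hST : STop x P := by
    intro i hi j hj
    rw [hmem] at hi hj
    rw [hi]
    exact lt_of_le_of_ne (hi₀ j (Finset.mem_univ _)) hj
  have hmax : ∀ i ∈ P, ∀ j, x j ≤ x i := by
    intro i hi j
    rw [(hmem i).1 hi]
    exact hi₀ j (Finset.mem_univ _)
  have hcard2 : P.card < n := by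
    by_contra hge
    rw [not_lt] at hge
    have huniv : P = univ := by
      refine Finset.eq_univ_of_card P (le_antisymm (Finset.card_le_univ P) ?_)
      rw [Fintype.card_fin]
      exact hge
    have hall : ∀ i, x i = x i₀ := fun i => (hmem i).1 (huniv ▸ Finset.mem_univ i)
    have hsum : (n : ℝ) * x i₀ = 0 := by
      rw [← hx, Finset.sum_congr rfl fun i _ => hall i, Finset.sum_const, Finset.card_univ, Fintype.card_fin,
        nsmul_eq_mul]
    have hn : (n : ℝ) ≠ 0 := by
      have : 0 < n := lt_of_le_of_lt (Nat.zero_le _) k.2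
      exact_mod_cast this.ne'
    have hx0 : x i₀ = 0 := (mul_eq_zero.1 hsum).resolve_left hn
    apply hk
    rw [hall k, hx0]
    rfl
  exact ⟨P, hcard1, hcard2, hST, hmax, (D_pos_iff hcard1 hcard2).2 ⟨P, rfl, hST⟩⟩

end Pool.Agent.Lib.MP_5e7226_co.SX
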