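import Pool.Agent.Lib.MP_5e7226_co.SX.Core

set_option autoImplicit false

/-! Small dimensions, row Sm0: definitions and elementary facts (SXsmall section 0). -/

namespace Pool.Agent.Lib.MP_5e7226_co.SX

open Finset

variable {n : ℕ}

/-- `N` vectors serve `G`. -/
def Served (G : Set ((Fin n → ℝ) × (Fin n → ℝ))) (N : ℕ) : Prop :=
  ∃ (ι : Type) (_ : Fintype ι), Fintype.card ι ≤ N ∧ ∃ z : ι → Fin n → ℝ, ∀ q ∈ G, ∃ i, Works G q.1 (z i)

/-- Breakpoint `b` is bad from above (block `ℓ < c < r`). -/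
def II (G : Set ((Fin n → ℝ) × (Fin n → ℝ))) (r b : ℕ) : Prop :=
  ∃ (x u : Fin n → ℝ) (p : ℕ), (x, u) ∈ G ∧ b < p ∧ p < r ∧ PM (p - 1) r x ∧ U u p < U u (p - b)

/-- Breakpoint `b` is bad from below (weak inequality). -/
def III (G : Set ((Fin n → ℝ) × (Fin n → ℝ))) (ℓ b : ℕ) : Prop :=
  ∃ (x u : Fin n → ℝ) (p : ℕ), (x, u) ∈ G ∧ ℓ < p ∧ p < b ∧ PM ℓ (p + 1) x ∧ U u p ≤ U u (n - b + p)

theorem Served.mono {G : Set ((Fin n → ℝ) × (Fin n → ℝ))} {N M : ℕ} (h : Served G N) (hNM : N ≤ M) : Served G M := by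
  obtain ⟨ι, i1, h1, h2⟩ := h
  exact ⟨ι, i1, h1.trans hNM, h2⟩

theorem PM.mono {ℓ r ℓ' r' : ℕ} {x : Fin n → ℝ} (h : PM ℓ r x) (hl : ℓ' ≤ ℓ) (hr : r ≤ r') : PM ℓ' r' x :=
  fun c hc hD => ⟨lt_of_le_of_lt hl (h c hc hD).1, lt_of_lt_of_le (h c hc hD).2 hr⟩

theorem U_zero (u : Fin n → ℝ) : U u 0 = 0 := by unfold U; simp

theorem U_full {u : Fin n → ℝ} (hu : ∑ i, u i = 0) : U u n = 0 := by rw [U_n, hu]

theorem exists_D_pos' {G : Set ((Fin n → ℝ) × (Fin n → ℝ))} (hG : Dual G) {x u : Fin n → ℝ} (h : (x, u) ∈ G) :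
    ∃ c ∈ Ico 1 n, 0 < D x c := by
  by_contra hcon
  push Not at hcon
  have h1 := pair_self hG h
  rw [sum_eq_zero] at h1
  · norm_num at h1
  · intro c hc
    have h2 := D_nonneg x (mem_Ico.1 hc).1 (mem_Ico.1 hc).2
    rw [le_antisymm (hcon c hc) h2, zero_mul]

theorem T_pos {G : Set ((Fin n → ℝ) × (Fin n → ℝ))} (hG : Dual G) {x u : Fin n → ℝ} (h : (x, u) ∈ G) : 0 < T x := by
  obtain ⟨c, hc, hD⟩ := exists_D_pos' hG h
  exact sum_pos' (fun i hi => D_nonneg x (mem_Ico.1 hi).1 (mem_Ico.1 hi).2) ⟨c, hc, hD⟩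

/-- `U ≤ a` on the levels of `x`. -/
theorem one_le {G : Set ((Fin n → ℝ) × (Fin n → ℝ))} (hG : Dual G) {x u : Fin n → ℝ} (h : (x, u) ∈ G) {a : ℝ}
    (ha : ∀ c ∈ Ico 1 n, 0 < D x c → U u c ≤ a) : 1 ≤ a * T x := by
  rw [← pair_self hG h, T, mul_sum]
  refine sum_le_sum fun c hc => ?_
  rw [mul_comm]
  rcases (D_nonneg x (mem_Ico.1 hc).1 (mem_Ico.1 hc).2).eq_or_lt with h0 | h0
  · rw [← h0]; simp
  · exact mul_le_mul_of_nonneg_right (ha c hc h0) h0.le

/-- `U ≥ a` on the levels of `y`. -/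
theorem le_one' {G : Set ((Fin n → ℝ) × (Fin n → ℝ))} (hG : Dual G) {x u y w : Fin n → ℝ} (h : (x, u) ∈ G)
    (h' : (y, w) ∈ G) {a : ℝ} (ha : ∀ c ∈ Ico 1 n, 0 < D y c → a ≤ U u c) : a * T y ≤ 1 := by
  refine le_trans ?_ (pair_le_one hG h h')
  rw [T, mul_sum]
  refine sum_le_sum fun c hc => ?_
  rw [mul_comm]
  rcases (D_nonneg y (mem_Ico.1 hc).1 (mem_Ico.1 hc).2).eq_or_lt with h0 | h0
  · rw [← h0]; simp
  · exact mul_le_mul_of_nonneg_left (ha c hc h0) h0.le

/-- `U > a` on the levels of `y`. -/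
theorem lt_one' {G : Set ((Fin n → ℝ) × (Fin n → ℝ))} (hG : Dual G) {x u y w : Fin n → ℝ} (h : (x, u) ∈ G)
    (h' : (y, w) ∈ G) {a : ℝ} (ha : ∀ c ∈ Ico 1 n, 0 < D y c → a < U u c) : a * T y < 1 := by
  refine lt_of_lt_of_le ?_ (pair_le_one hG h h')
  rw [T, mul_sum]
  obtain ⟨c, hc, hD⟩ := exists_D_pos' hG h'
  refine sum_lt_sum (fun c hc => ?_) ⟨c, hc, ?_⟩
  · rw [mul_comm]
    rcases (D_nonneg y (mem_Ico.1 hc).1 (mem_Ico.1 hc).2).eq_or_lt with h0 | h0
    · rw [← h0]; simp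
    · exact mul_le_mul_of_nonneg_left (ha c hc h0).le h0.le
  · rw [mul_comm]
    exact mul_lt_mul_of_pos_left (ha c hc hD) hD

/-- `U ≤ a` on the levels of `x`, strictly somewhere. -/
theorem one_lt' {G : Set ((Fin n → ℝ) × (Fin n → ℝ))} (hG : Dual G) {x u : Fin n → ℝ} (h : (x, u) ∈ G) {a : ℝ}
    (ha : ∀ c ∈ Ico 1 n, 0 < D x c → U u c ≤ a) (hc : ∃ c ∈ Ico 1 n, 0 < D x c ∧ U u c < a) : 1 < a * T x := by
  rw [← pair_self hG h, T, mul_sum]
  obtain ⟨c, hc, hD, hlt⟩ := hc
  refine sum_lt_sum (fun c hc => ?_) ⟨c, hc, ?_⟩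
  · rw [mul_comm]
    rcases (D_nonneg x (mem_Ico.1 hc).1 (mem_Ico.1 hc).2).eq_or_lt with h0 | h0
    · rw [← h0]; simp
    · exact mul_le_mul_of_nonneg_right (ha c hc h0) h0.le
  · rw [mul_comm]
    exact mul_lt_mul_of_pos_right hlt hD

/-- `U ≥ a` on the levels of `y`, strictly somewhere. -/
theorem lt_one'' {G : Set ((Fin n → ℝ) × (Fin n → ℝ))} (hG : Dual G) {x u y w : Fin n → ℝ} (h : (x, u) ∈ G)
    (h' : (y, w) ∈ G) {a : ℝ} (ha : ∀ c ∈ Ico 1 n, 0 < D y c → a ≤ U u c)
    (hc : ∃ c ∈ Ico 1 n, 0 < D y c ∧ a < U u c) : a * T y < 1 := by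
  refine lt_of_lt_of_le ?_ (pair_le_one hG h h')
  rw [T, mul_sum]
  obtain ⟨c, hc, hD, hlt⟩ := hc
  refine sum_lt_sum (fun c hc => ?_) ⟨c, hc, ?_⟩
  · rw [mul_comm]
    rcases (D_nonneg y (mem_Ico.1 hc).1 (mem_Ico.1 hc).2).eq_or_lt with h0 | h0
    · rw [← h0]; simp
    · exact mul_le_mul_of_nonneg_left (ha c hc h0) h0.le
  · rw [mul_comm]
    exact mul_lt_mul_of_pos_left hlt hD

/-- A pure point. -/
theorem pure_max {G : Set ((Fin n → ℝ) × (Fin n → ℝ))} (hG : Dual G) {x u y w : Fin n → ℝ} (h : (x, u) ∈ G)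
    {p : ℕ} (hx : PM (p - 1) (p + 1) x) (h' : (y, w) ∈ G) : U w p ≤ U u p := by
  have hT := T_pos hG h
  have hlev : ∀ c ∈ Ico 1 n, 0 < D x c → c = p := by
    intro c hc hD
    have := hx c hc hD
    omega
  have h1 := one_le hG h (a := U u p) (fun c hc hD => by rw [hlev c hc hD])
  have h2 := le_one' hG h' h (a := U w p) (fun c hc hD => by rw [hlev c hc hD])
  have h3 : U w p * T x ≤ U u p * T x := h2.trans h1
  exact le_of_mul_le_mul_right h3 hT

theorem U_mid {u : Fin n → ℝ} {s c t : ℕ} (h1 : s ≤ c) (h2 : c ≤ t) (ht : t ≤ n) : min (U u s) (U u t) ≤ U u c := by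
  rcases eq_or_lt_of_le (h1.trans h2) with h | h
  · have : c = s := by omega
    subst this
    exact min_le_left _ _
  have h3 := U_concave u h1 h2 ht
  have a1 := min_le_left (U u s) (U u t)
  have a2 := min_le_right (U u s) (U u t)
  have b1 : (0 : ℝ) ≤ (t : ℝ) - c := by have : (c : ℝ) ≤ t := by exact_mod_cast h2
                                        linarith
  have b2 : (0 : ℝ) ≤ (c : ℝ) - s := by have : (s : ℝ) ≤ c := by exact_mod_cast h1
                                        linarith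
  have b3 : (0 : ℝ) < (t : ℝ) - s := by have : (s : ℝ) < t := by exact_mod_cast h
                                        linarith
  have c1 := mul_le_mul_of_nonneg_left a1 b1
  have c2 := mul_le_mul_of_nonneg_left a2 b2
  refine le_of_mul_le_mul_left ?_ b3
  linarith

/-- `U s > U t`, `s < t`: larger before `t`. -/
theorem U_gt_before {u : Fin n → ℝ} {s c t : ℕ} (h1 : s ≤ c) (h2 : c < t) (ht : t ≤ n) (h : U u t < U u s) :
    U u t < U u c := by
  have h3 := U_concave u h1 h2.le ht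
  have b1 : (0 : ℝ) < (t : ℝ) - c := by have : (c : ℝ) < t := by exact_mod_cast h2
                                        linarith
  have b2 : (0 : ℝ) ≤ (c : ℝ) - s := by have : (s : ℝ) ≤ c := by exact_mod_cast h1
                                        linarith
  have c1 := mul_lt_mul_of_pos_left h b1
  have b3 : (0 : ℝ) < (t : ℝ) - s := by linarith
  refine lt_of_mul_lt_mul_left ?_ b3.le
  linarith

/-- `U s > U t`, `s < t`: smaller after `t`. -/
theorem U_lt_after {u : Fin n → ℝ} {s c t : ℕ} (h1 : s < t) (h2 : t < c) (hc : c ≤ n) (h : U u t < U u s) :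
    U u c < U u t := by
  have h3 := U_concave u h1.le h2.le hc
  have b1 : (0 : ℝ) < (c : ℝ) - t := by have : (t : ℝ) < c := by exact_mod_cast h2
                                        linarith
  have b2 : (0 : ℝ) < (t : ℝ) - s := by have : (s : ℝ) < t := by exact_mod_cast h1
                                        linarith
  have c1 := mul_lt_mul_of_pos_left h b1
  refine lt_of_mul_lt_mul_left ?_ b2.le
  linarith

/-- `U s ≥ U t`, `s < t`: not larger after `t`. -/
theorem U_le_after {u : Fin n → ℝ} {s c t : ℕ} (h1 : s < t) (h2 : t ≤ c) (hc : c ≤ n) (h : U u t ≤ U u s) :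
    U u c ≤ U u t := by
  have h3 := U_concave u h1.le h2 hc
  have b1 : (0 : ℝ) ≤ (c : ℝ) - t := by have : (t : ℝ) ≤ c := by exact_mod_cast h2
                                        linarith
  have b2 : (0 : ℝ) < (t : ℝ) - s := by have : (s : ℝ) < t := by exact_mod_cast h1
                                        linarith
  have c1 := mul_le_mul_of_nonneg_left h b1
  refine le_of_mul_le_mul_left ?_ b2
  linarith

/-- `U s < U t`, `s < t`: larger after `s`. -/
theorem U_gt_after {u : Fin n → ℝ} {s c t : ℕ} (h1 : s < c) (h2 : c ≤ t) (ht : t ≤ n) (h : U u s < U u t) :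
    U u s < U u c := by
  have h3 := U_concave u h1.le h2 ht
  have b1 : (0 : ℝ) ≤ (t : ℝ) - c := by have : (c : ℝ) ≤ t := by exact_mod_cast h2
                                        linarith
  have b2 : (0 : ℝ) < (c : ℝ) - s := by have : (s : ℝ) < c := by exact_mod_cast h1
                                        linarith
  have c1 := mul_lt_mul_of_pos_left h b2
  have b3 : (0 : ℝ) < (t : ℝ) - s := by linarith
  refine lt_of_mul_lt_mul_left ?_ b3.le
  linarith

/-- `U s < U t`, `s < t`: smaller before `s`. -/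
theorem U_lt_before {u : Fin n → ℝ} {s c t : ℕ} (h1 : c < s) (h2 : s < t) (ht : t ≤ n) (h : U u s < U u t) :
    U u c < U u s := by
  have h3 := U_concave u h1.le h2.le ht
  have b1 : (0 : ℝ) < (s : ℝ) - c := by have : (c : ℝ) < s := by exact_mod_cast h1
                                        linarith
  have b2 : (0 : ℝ) < (t : ℝ) - s := by have : (s : ℝ) < t := by exact_mod_cast h2
                                        linarith
  have c1 := mul_lt_mul_of_pos_left h b1
  refine lt_of_mul_lt_mul_left ?_ b2.le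
  linarith

/-- `U s ≤ U t`, `s < t`: not larger before `s`. -/
theorem U_le_before {u : Fin n → ℝ} {s c t : ℕ} (h1 : c ≤ s) (h2 : s < t) (ht : t ≤ n) (h : U u s ≤ U u t) :
    U u c ≤ U u s := by
  have h3 := U_concave u h1 h2.le ht
  have b1 : (0 : ℝ) ≤ (s : ℝ) - c := by have : (c : ℝ) ≤ s := by exact_mod_cast h1
                                        linarith
  have b2 : (0 : ℝ) < (t : ℝ) - s := by have : (s : ℝ) < t := by exact_mod_cast h2
                                        linarith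
  have c1 := mul_le_mul_of_nonneg_left h b1
  refine le_of_mul_le_mul_left ?_ b2
  linarith

/-- `U s = U t`, `U` not constant on `[s, t]`: larger strictly between. -/
theorem U_gt_between {u : Fin n → ℝ} {s t : ℕ} (ht : t ≤ n) (h : U u s = U u t)
    (hc : ¬ ∀ c, s ≤ c → c ≤ t → U u c = U u t) {c : ℕ} (h1 : s < c) (h2 : c < t) : U u t < U u c := by
  push Not at hc
  obtain ⟨d, hd1, hd2, hd3⟩ := hc
  have hs : s ≠ d := by rintro rfl; exact hd3 h
  have hsd : s < d := lt_of_le_of_ne hd1 hs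
  have hdt : d < t := lt_of_le_of_ne hd2 (by rintro rfl; exact hd3 rfl)
  have h3 : U u t < U u d := by
    have h4 := U_mid hd1 hd2 ht (u := u)
    rw [h, min_self] at h4
    exact lt_of_le_of_ne h4 (Ne.symm hd3)
  rcases lt_trichotomy c d with h5 | h5 | h5
  · have := U_gt_after h1 h5.le (by omega) (h ▸ h3 : U u s < U u d)
    rwa [h] at this
  · rwa [h5]
  · exact U_gt_before h5.le h2 ht h3

end Pool.Agent.Lib.MP_5e7226_co.SX
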