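import Pool.Agent.Lib.MP_5e7226_co.SX.Sm0

set_option autoImplicit false

/-! Small dimensions, row Sm1: the two one-sided cases of Lemma B (SXsmall section 1, (II) and (III)). -/

namespace Pool.Agent.Lib.MP_5e7226_co.SX

open Finset

variable {n : ℕ}

private theorem sd {u : Fin n → ℝ} {P S : Finset (Fin n)} (h : S ⊆ P) : su u (P \ S) + su u S = su u P := by
  unfold su; exact sum_sdiff h

private theorem sc {u : Fin n → ℝ} (hu : ∑ i, u i = 0) (S : Finset (Fin n)) : su u Sᶜ = - su u S := by
  have : su u S + su u Sᶜ = 0 := by unfold su; rw [sum_add_sum_compl, hu]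
  linarith

private theorem ex_nonneg {u : Fin n → ℝ} {S : Finset (Fin n)} (hS : S.Nonempty) (h : su u S = 0) :
    ∃ i ∈ S, 0 ≤ u i := by
  by_contra hcon
  push Not at hcon
  have : su u S < 0 := sum_neg hcon hS
  linarith

private theorem ex_nonpos {u : Fin n → ℝ} {S : Finset (Fin n)} (hS : S.Nonempty) (h : su u S = 0) :
    ∃ i ∈ S, u i ≤ 0 := by
  by_contra hcon
  push Not at hcon
  have : 0 < su u S := sum_pos hcon hS
  linarith

private theorem ex_ge {u : Fin n → ℝ} {S : Finset (Fin n)} (hS : S.Nonempty) {a : ℝ} (ha : 0 < a)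
    (h : su u S = -a) : ∃ i ∈ S, -a ≤ u i := by
  by_contra hcon
  push Not at hcon
  obtain ⟨i, hi⟩ := hS
  have h1 : su u S = u i + su u (S.erase i) := by
    unfold su
    rw [add_sum_erase S u hi]
  have h2 : su u (S.erase i) ≤ 0 := sum_nonpos fun j hj => by
    have := hcon j (mem_of_mem_erase hj)
    linarith
  have h3 := hcon i hi
  linarith

private theorem su_nonneg' {u : Fin n → ℝ} {S : Finset (Fin n)} (h : ∀ i ∈ S, 0 ≤ u i) : 0 ≤ su u S := sum_nonneg h

private theorem su_nonpos' {u : Fin n → ℝ} {S : Finset (Fin n)} (h : ∀ i ∈ S, u i ≤ 0) : su u S ≤ 0 := sum_nonpos h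

private theorem su_zero {u : Fin n → ℝ} {S : Finset (Fin n)} (h : ∀ i ∈ S, u i = 0) : su u S = 0 := sum_eq_zero h

private theorem su_ge' {u : Fin n → ℝ} {S : Finset (Fin n)} {a : ℝ} (h : ∀ i ∈ S, -a ≤ u i) :
    -(S.card : ℝ) * a ≤ su u S := by
  have := card_nsmul_le_sum S u (-a) h
  rw [nsmul_eq_mul] at this
  unfold su
  linarith

private theorem su_insert {u : Fin n → ℝ} {S : Finset (Fin n)} {i : Fin n} (hi : i ∉ S) :
    su u (insert i S) = u i + su u S := by
  unfold su; rw [sum_insert hi]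

private theorem su_erase {u : Fin n → ℝ} {S : Finset (Fin n)} {i : Fin n} (hi : i ∈ S) :
    u i + su u (S.erase i) = su u S := by
  unfold su; rw [add_sum_erase S u hi]

/-- Sm1a. Type II. -/
theorem typeII {u : Fin n → ℝ} (hu : ∑ i, u i = 0) (h0 : u ≠ 0) {P S : Finset (Fin n)} (hP : Top u P) (hS : S ⊆ P)
    (hb : 0 < S.card) (hbP : S.card < P.card) (hPn : P.card < n) (hU : U u (P.card - S.card) ≤ U u P.card) :
    0 ≤ su u S ∧ (su u S = 0 → U u (P.card - S.card) = U u P.card ∧ (∀ A, S ⊆ A → A ⊆ P → 0 ≤ su u A) ∧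
      (∀ A, P ⊆ A → 0 ≤ su u A) ∧ 0 < su u P ∧ (∀ A, A ⊆ S → -(A.card : ℝ) * su u P ≤ su u A) ∧
      ((∀ c, P.card - S.card ≤ c → c ≤ P.card → U u c = U u P.card) → ∀ A, A ⊆ S → su u A = 0)) := by
  have h1 := su_sub_ge hP hS
  have hPs := su_top hP
  refine ⟨by linarith, fun h2 => ?_⟩
  have hUe : U u (P.card - S.card) = U u P.card := by linarith
  have hsd := sd (u := u) hS
  have hdc : (P \ S).card = P.card - S.card := card_sdiff_of_subset hS
  have hTd : Top u (P \ S) := top_of_eq (by rw [hdc, hUe, ← hPs]; linarith)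
  have hSne : S.Nonempty := card_pos.1 hb
  obtain ⟨i0, hi0, hi0'⟩ := ex_nonneg hSne h2
  obtain ⟨i1, hi1, hi1'⟩ := ex_nonpos hSne h2
  have hpos : 0 < su u P := by rw [hPs]; exact U_pos hu h0 (by omega) hPn
  have hPc : (Pᶜ).Nonempty := by
    rw [← card_pos, card_compl, Fintype.card_fin]
    omega
  refine ⟨hUe, ?_, ?_, hpos, ?_, ?_⟩
  · intro A hSA hAP
    have h3 := sd (u := u) hSA
    have h4 : 0 ≤ su u (A \ S) := su_nonneg' fun j hj => by
      rw [mem_sdiff] at hj
      have := hTd j (mem_sdiff.2 ⟨hAP hj.1, hj.2⟩) i0 (fun h => (mem_sdiff.1 h).2 hi0)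
      linarith
    linarith
  · intro A hPA
    have h3 := sc hu A
    have h4 : su u Aᶜ ≤ 0 := su_nonpos' fun j hj => by
      rw [mem_compl] at hj
      have := hP i1 (hS hi1) j (fun h => hj (hPA h))
      linarith
    linarith
  · intro A hAS
    obtain ⟨j, hj, hj'⟩ := ex_ge hPc hpos (sc hu P)
    refine su_ge' fun i hi => ?_
    have := hP i (hS (hAS hi)) j (mem_compl.1 hj)
    linarith
  · intro hc A hAS
    refine su_zero fun i hi => ?_
    have hiS := hAS hi
    have hiP := hS hiS
    have h5 := hc (P.card - S.card + 1) (by omega) (by omega)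
    have h6 := hc (P.card - 1) (by omega) (by omega)
    have hni : i ∉ P \ S := fun h => (mem_sdiff.1 h).2 hiS
    have h7 := su_le_U u (insert i (P \ S))
    rw [su_insert hni, card_insert_of_notMem hni, hdc, h5] at h7
    have h8 := su_le_U u (P.erase i)
    rw [card_erase_of_mem hiP, h6] at h8
    have h9 := su_erase (u := u) hiP
    apply le_antisymm <;> linarith

/-- Sm1b. Type III. -/
theorem typeIII {u : Fin n → ℝ} (hu : ∑ i, u i = 0) (h0 : u ≠ 0) {P S : Finset (Fin n)} (hP : Top u P) (hS : P ⊆ S)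
    (hp : 0 < P.card) (hbP : P.card < S.card) (hSn : S.card < n) (hU : U u (n - S.card + P.card) ≤ U u P.card) :
    0 ≤ su u S ∧ (su u S = 0 → U u (n - S.card + P.card) = U u P.card ∧ (∀ A, P ⊆ A → A ⊆ S → 0 ≤ su u A) ∧
      (∀ A, A ⊆ P → 0 ≤ su u A) ∧ 0 < su u P ∧
      (∀ A, S ⊆ A → -((A.card : ℝ) - S.card) * su u P ≤ su u A) ∧
      ((∀ c, P.card ≤ c → c ≤ n - S.card + P.card → U u c = U u P.card) → ∀ A, S ⊆ A → su u A = 0)) := by
  have h1 := su_sup_ge hu hP hS
  rw [add_comm P.card (n - S.card)] at h1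
  have hPs := su_top hP
  refine ⟨by linarith, fun h2 => ?_⟩
  have hUe : U u (n - S.card + P.card) = U u P.card := by linarith
  have hsc := sc hu S
  have hdis : Disjoint P Sᶜ := by
    rw [disjoint_left]
    intro i hi hi'
    exact (mem_compl.1 hi') (hS hi)
  have hQs : su u (P ∪ Sᶜ) = su u P + su u Sᶜ := by unfold su; exact sum_union hdis
  have hQc : (P ∪ Sᶜ).card = n - S.card + P.card := by
    rw [card_union_of_disjoint hdis, card_compl, Fintype.card_fin, add_comm]
  have hTQ : Top u (P ∪ Sᶜ) := top_of_eq (by rw [hQc, hUe, ← hPs]; linarith)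
  have hSne : (Sᶜ).Nonempty := by
    rw [← card_pos, card_compl, Fintype.card_fin]
    omega
  obtain ⟨i0, hi0, hi0'⟩ := ex_nonneg hSne (show su u Sᶜ = 0 by linarith)
  obtain ⟨i1, hi1, hi1'⟩ := ex_nonpos hSne (show su u Sᶜ = 0 by linarith)
  have hpos : 0 < su u P := by rw [hPs]; exact U_pos hu h0 hp (by omega)
  have hsd := sd (u := u) hS
  have hSP : (S \ P).Nonempty := by
    rw [← card_pos, card_sdiff_of_subset hS]
    omega
  refine ⟨hUe, ?_, ?_, hpos, ?_, ?_⟩
  · intro A hPA hAS
    have h3 := sd (u := u) hAS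
    have h4 : su u (S \ A) ≤ 0 := su_nonpos' fun j hj => by
      rw [mem_sdiff] at hj
      have hjQ : j ∉ P ∪ Sᶜ := by
        rw [mem_union, mem_compl]
        rintro (h | h)
        · exact hj.2 (hPA h)
        · exact h hj.1
      have := hTQ i1 (mem_union_right _ hi1) j hjQ
      linarith
    linarith
  · intro A hAP
    refine su_nonneg' fun i hi => ?_
    have := hP i (hAP hi) i0 (fun h => (mem_compl.1 hi0) (hS h))
    linarith
  · intro A hSA
    have h3 := sd (u := u) hSA
    obtain ⟨j, hj, hj'⟩ := ex_ge hSP hpos (show su u (S \ P) = -su u P by linarith)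
    rw [mem_sdiff] at hj
    have hjQ : j ∉ P ∪ Sᶜ := by
      rw [mem_union, mem_compl]
      rintro (h | h)
      · exact hj.2 h
      · exact h hj.1
    have h4 : -((A \ S).card : ℝ) * su u P ≤ su u (A \ S) := su_ge' fun i hi => by
      rw [mem_sdiff] at hi
      have := hTQ i (mem_union_right _ (mem_compl.2 hi.2)) j hjQ
      linarith
    rw [card_sdiff_of_subset hSA, Nat.cast_sub (card_le_card hSA)] at h4
    linarith
  · intro hc A hSA
    have h3 := sd (u := u) hSA
    have h4 : su u (A \ S) = 0 := su_zero fun i hi => by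
      rw [mem_sdiff] at hi
      have hiS : i ∈ Sᶜ := mem_compl.2 hi.2
      have hiQ : i ∈ P ∪ Sᶜ := mem_union_right _ hiS
      have hiP : i ∉ P := fun h => hi.2 (hS h)
      have h5 := hc (P.card + 1) (by omega) (by omega)
      have h6 := hc (n - S.card + P.card - 1) (by omega) (by omega)
      have h7 := su_le_U u (insert i P)
      rw [su_insert hiP, card_insert_of_notMem hiP, h5] at h7
      have h8 := su_le_U u ((P ∪ Sᶜ).erase i)
      rw [card_erase_of_mem hiQ, hQc, h6] at h8
      have h9 := su_erase (u := u) hiQ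
      apply le_antisymm <;> linarith
    linarith

/-- Sm1c. Type I with one block `ℓ < c < r` and one breakpoint. -/
theorem mid_pos' {ℓ r b : ℕ} (hrn : r ≤ n)
    (hc : ∀ p q, ℓ < p → p < b → b < q → q < r → b * (p + q - b) < p * n) {u : Fin n → ℝ} (hu : ∑ i, u i = 0)
    (h0 : u ≠ 0) {P S Q : Finset (Fin n)} (hP : Top u P) (hQ : Top u Q) (h1 : P ⊆ S) (h2 : S ⊆ Q)
    (hSb : S.card = b) (hPm : ℓ < P.card) (hQm : Q.card < r) (hb : 0 < b) : 0 < su u S := by
  have c1 : P.card ≤ S.card := card_le_card h1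
  have c2 : S.card ≤ Q.card := card_le_card h2
  rcases Nat.lt_or_ge P.card S.card with h3 | h3
  · rcases Nat.lt_or_ge S.card Q.card with h4 | h4
    · have h5 := su_mid_ge hP hQ h1 h2
      obtain ⟨p, hpe⟩ : ∃ p, P.card = p := ⟨_, rfl⟩
      obtain ⟨q, hqe⟩ : ∃ q, Q.card = q := ⟨_, rfl⟩
      rw [hpe] at hPm h3 h5
      rw [hqe] at hQm h4 h5
      rw [hSb] at h3 h4 h5
      obtain ⟨s, hs⟩ : ∃ s, p + q - b = s := ⟨_, rfl⟩
      rw [hs] at h5
      have hps : p < s := by omega
      have hsq : s < q := by omega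
      have hcc := hc p q hPm h3 h4 hQm
      rw [hs] at hcc
      have h6 : 0 < U u s := U_pos hu h0 (by omega) (by omega)
      have k1 := U_concave u (Nat.zero_le p) hps.le (by omega : s ≤ n)
      have k2 := U_concave u hsq.le (by omega : q ≤ n) le_rfl
      rw [U_zero] at k1
      rw [U_full hu] at k2
      have hcR : (b : ℝ) * s < p * n := by exact_mod_cast hcc
      have hbs : (b : ℝ) = p + q - s := by
        have : b + s = p + q := by omega
        have : (b : ℝ) + s = p + q := by exact_mod_cast this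
        linarith
      have hs0 : (0 : ℝ) < s := by exact_mod_cast (by omega : 0 < s)
      have hns : (0 : ℝ) < (n : ℝ) - s := by
        have : (s : ℝ) < n := by exact_mod_cast (by omega : s < n)
        linarith
      have m1 : (p : ℝ) * U u s ≤ s * U u p := by
        have := k1
        push_cast at this
        linarith
      have m2 : ((n : ℝ) - q) * U u s ≤ ((n : ℝ) - s) * U u q := by linarith
      have m3 := mul_le_mul_of_nonneg_left m1 hns.le
      have m4 := mul_le_mul_of_nonneg_left m2 hs0.le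
      have m5 : 0 < U u s * ((p : ℝ) * n - b * s) := mul_pos h6 (by linarith)
      have m6 : 0 < ((n : ℝ) - s) * s * (U u p + U u q - U u s) := by
        rw [hbs] at m5
        nlinarith
      have m7 : 0 < U u p + U u q - U u s := by
        by_contra hcon
        rw [not_lt] at hcon
        have := mul_nonpos_of_nonneg_of_nonpos (mul_pos hns hs0).le hcon
        linarith
      linarith
    · have : S = Q := eq_of_subset_of_card_le h2 h4
      rw [this, su_top hQ]
      exact U_pos hu h0 (by omega) (by omega)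
  · have : P = S := eq_of_subset_of_card_le h1 h3
    rw [← this, su_top hP]
    exact U_pos hu h0 (by omega) (by omega)

end Pool.Agent.Lib.MP_5e7226_co.SX
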