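import Pool.Agent.Lib.MP_5e7226_co.SX.Sm1

set_option autoImplicit false

/-! Small dimensions, row Sm2: Lemma B, one-sided (helper73's version). -/

namespace Pool.Agent.Lib.MP_5e7226_co.SX

open Finset

variable {n : ℕ}

theorem continuous_su (A : Finset (Fin n)) : Continuous fun p : (Fin n → ℝ) × (Fin n → ℝ) => su p.2 A := by
  unfold su
  fun_prop

/-- Uniform `ε` on one compact set. -/
theorem eps_one {G : Set ((Fin n → ℝ) × (Fin n → ℝ))} (hG : Dual G) (a c : ℕ) (P Q : Finset (Fin n))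
    {f g : (Fin n → ℝ) → ℝ} (hf : Continuous fun p : (Fin n → ℝ) × (Fin n → ℝ) => f p.2)
    (hg : Continuous fun p : (Fin n → ℝ) × (Fin n → ℝ) => g p.2)
    (h : ∀ x u, (x, u) ∈ G → PM a c x → Top u P → Top u Q → 0 ≤ f u ∧ (f u = 0 → 0 < g u)) :
    ∃ ε₀ : ℝ, 0 < ε₀ ∧ ∀ ε, 0 < ε → ε ≤ ε₀ → ∀ x u, (x, u) ∈ G → PM a c x → Top u P → Top u Q →
      0 < f u + ε * g u := by
  obtain ⟨e, he, h1⟩ := eps_unif (K := G ∩ ({q | PM a c q.1} ∩ ({q | Top q.2 P} ∩ {q | Top q.2 Q})))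
    (f := fun p => f p.2) (g := fun p => g p.2)
    (hG.compact.inter_right ((closed_pm a c).inter ((closed_top P).inter (closed_top Q)))) hf hg
    (fun p hp => (h p.1 p.2 hp.1 hp.2.1 hp.2.2.1 hp.2.2.2).1)
    (fun p hp => (h p.1 p.2 hp.1 hp.2.1 hp.2.2.1 hp.2.2.2).2)
  exact ⟨e, he, fun ε h2 h3 x u hx h4 h5 h6 => h1 ε h2 h3 (x, u) ⟨hx, h4, h5, h6⟩⟩

/-- A strict top set of every level. -/
theorem exists_stop {x : Fin n → ℝ} {c : ℕ} (hc : c ∈ Ico 1 n) (hD : 0 < D x c) :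
    ∃ S : Finset (Fin n), S.card = c ∧ STop x S :=
  (D_pos_iff (mem_Ico.1 hc).1 (mem_Ico.1 hc).2).1 hD

/-- Levels outside the block. -/
theorem out_block {G : Set ((Fin n → ℝ) × (Fin n → ℝ))} (hG : Dual G) {ℓ r : ℕ} {x : Fin n → ℝ}
    (hx : ¬ PM ℓ r x) : ∃ S ∈ fam n ℓ r, Works G x (ind S) := by
  simp only [PM, not_forall] at hx
  obtain ⟨c, hc, hD, hc'⟩ := hx
  obtain ⟨S, hSc, hS⟩ := exists_stop hc hD
  rw [mem_Ico] at hc
  refine ⟨S, mem_fam.2 (by omega), fun u' hu' => ?_⟩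
  rw [sum_ind, su_top (top_of_stop hG hu' hS), hSc]
  exact U_pos (hG.sum2 _ hu') (u_ne hG hu') hc.1 hc.2

/-- The least level. -/
theorem least_level {G : Set ((Fin n → ℝ) × (Fin n → ℝ))} (hG : Dual G) {x u : Fin n → ℝ} (h : (x, u) ∈ G) {ℓ r : ℕ}
    (hx : PM ℓ r x) : ∃ p, p ∈ Ico 1 n ∧ 0 < D x p ∧ ℓ < p ∧ p < r ∧ PM (p - 1) r x := by
  classical
  have hex : ∃ p, p ∈ Ico 1 n ∧ 0 < D x p := by
    obtain ⟨c, hc, hD⟩ := exists_D_pos' hG h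
    exact ⟨c, hc, hD⟩
  obtain ⟨h1, h2⟩ := Nat.find_spec hex
  refine ⟨Nat.find hex, h1, h2, (hx _ h1 h2).1, (hx _ h1 h2).2, fun c hc hD => ⟨?_, (hx c hc hD).2⟩⟩
  have h3 := Nat.find_min' hex ⟨hc, hD⟩
  rw [mem_Ico] at h1
  omega

/-- The largest level. -/
theorem largest_level {G : Set ((Fin n → ℝ) × (Fin n → ℝ))} (hG : Dual G) {x u : Fin n → ℝ} (h : (x, u) ∈ G)
    {ℓ r : ℕ} (hx : PM ℓ r x) : ∃ p, p ∈ Ico 1 n ∧ 0 < D x p ∧ ℓ < p ∧ p < r ∧ PM ℓ (p + 1) x := by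
  classical
  set L : Finset ℕ := (Ico 1 n).filter fun c => 0 < D x c with hL
  have hne : L.Nonempty := by
    obtain ⟨c, hc, hD⟩ := exists_D_pos' hG h
    exact ⟨c, mem_filter.2 ⟨hc, hD⟩⟩
  have h1 := mem_filter.1 (L.max'_mem hne)
  refine ⟨L.max' hne, h1.1, h1.2, (hx _ h1.1 h1.2).1, (hx _ h1.1 h1.2).2, fun c hc hD => ⟨(hx c hc hD).1, ?_⟩⟩
  have := L.le_max' c (mem_filter.2 ⟨hc, hD⟩)
  omega

/-- Lemma B. -/
theorem block {G : Set ((Fin n → ℝ) × (Fin n → ℝ))} (hG : Dual G) {ℓ r b : ℕ} (hb : ℓ < b) (hbr : b < r)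
    (hrn : r ≤ n) (hc : ∀ p q, ℓ < p → p < b → b < q → q < r → b * (p + q - b) < p * n) (hII : ¬ II G r b)
    (hIII : ¬ III G ℓ b) :
    Served G ((∑ s ∈ Ico 1 (ℓ + 1), n.choose s) + (∑ s ∈ Ico r n, n.choose s) + n.choose (n / 2)) := by
  classical
  refine ⟨(fam n ℓ r) ⊕ Fin (n.choose (n / 2)), inferInstance, ?_, ?_⟩
  · rw [Fintype.card_sum, Fintype.card_coe, Fintype.card_fin]
    have := card_fam n ℓ r
    omega
  obtain ⟨S, hSc, hSm, hcov⟩ := chain_cover n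
  set f : Fin (n.choose (n / 2)) → (Fin n → ℝ) → ℝ := fun c u => su u (S c b) with hf
  set g : Fin (n.choose (n / 2)) → (Fin n → ℝ) → ℝ := fun c u => ∑ j ∈ Ico b r, su u (S c j) with hg
  have hfc : ∀ c, Continuous fun p : (Fin n → ℝ) × (Fin n → ℝ) => f c p.2 := fun c => continuous_su _
  have hgc : ∀ c, Continuous fun p : (Fin n → ℝ) × (Fin n → ℝ) => g c p.2 :=
    fun c => continuous_finsetSum _ fun j _ => continuous_su _
  -- the middle case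
  have k1 : ∀ t : Fin (n.choose (n / 2)) × (Finset (Fin n) × Finset (Fin n)), ∃ e : ℝ, 0 < e ∧ ∀ ε, 0 < ε → ε ≤ e →
      ∀ x u, (x, u) ∈ G → Top u t.2.1 → Top u t.2.2 → t.2.1 ⊆ S t.1 b → S t.1 b ⊆ t.2.2 → ℓ < t.2.1.card →
      t.2.2.card < r → PM ℓ r x → 0 < f t.1 u + ε * g t.1 u := by
    rintro ⟨c, P, Q⟩
    by_cases hcond : P ⊆ S c b ∧ S c b ⊆ Q ∧ ℓ < P.card ∧ Q.card < r
    · obtain ⟨c1, c2, c3, c4⟩ := hcond
      obtain ⟨e, he, h⟩ := eps_one hG ℓ r P Q (hfc c) (hgc c) (fun x u hx _ hP hQ => by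
        have := mid_pos' hrn hc (hG.sum2 _ hx) (u_ne hG hx) hP hQ c1 c2 (hSc c b (by omega)) c3 c4 (by omega)
        exact ⟨this.le, fun h0 => absurd h0 this.ne'⟩)
      exact ⟨e, he, fun ε h1 h2 x u hx hP hQ _ _ _ _ hpm => h ε h1 h2 x u hx hpm hP hQ⟩
    · exact ⟨1, one_pos, fun ε _ _ x u _ _ _ h1 h2 h3 h4 _ => absurd ⟨h1, h2, h3, h4⟩ hcond⟩
  -- all levels above `b`
  have k2 : ∀ t : Fin (n.choose (n / 2)) × Fin (n + 1), ∃ e : ℝ, 0 < e ∧ ∀ ε, 0 < ε → ε ≤ e →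
      ∀ x u, (x, u) ∈ G → b < (t.2 : ℕ) → (t.2 : ℕ) < r → PM (t.2 - 1) r x → Top u (S t.1 t.2) →
      0 < f t.1 u + ε * g t.1 u := by
    rintro ⟨c, p⟩
    by_cases hcond : b < (p : ℕ) ∧ (p : ℕ) < r
    · obtain ⟨c1, c2⟩ := hcond
      obtain ⟨e, he, h⟩ := eps_one hG (p - 1) r (S c p) (S c p) (hfc c) (hgc c) (fun x u hx hpm hP _ => by
        have hcp := hSc c p (by omega)
        have hcb := hSc c b (by omega)
        have hU : U u (p - b) ≤ U u p := by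
          by_contra hcon
          exact hII ⟨x, u, p, hx, c1, c2, hpm, not_le.1 hcon⟩
        obtain ⟨t1, t2⟩ := typeII (hG.sum2 _ hx) (u_ne hG hx) hP (hSm c b p c1.le (by omega)) (by omega) (by omega)
          (by omega) (by rw [hcp, hcb]; exact hU)
        refine ⟨t1, fun h0 => ?_⟩
        obtain ⟨-, g1, g2, g3, -⟩ := t2 h0
        refine sum_pos' (fun j hj => ?_) ⟨p, mem_Ico.2 ⟨c1.le, c2⟩, g3⟩
        rw [mem_Ico] at hj
        rcases le_total j p with hjp | hjp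
        · exact g1 _ (hSm c b j hj.1 (by omega)) (hSm c j p hjp (by omega))
        · exact g2 _ (hSm c p j hjp (by omega)))
      exact ⟨e, he, fun ε h1 h2 x u hx _ _ hpm hP => h ε h1 h2 x u hx hpm hP hP⟩
    · exact ⟨1, one_pos, fun ε _ _ x u _ h1 h2 _ _ => absurd ⟨h1, h2⟩ hcond⟩
  -- all levels below `b`
  have k3 : ∀ t : Fin (n.choose (n / 2)) × Fin (n + 1), ∃ e : ℝ, 0 < e ∧ ∀ ε, 0 < ε → ε ≤ e →
      ∀ x u, (x, u) ∈ G → ℓ < (t.2 : ℕ) → (t.2 : ℕ) < b → PM ℓ (t.2 + 1) x → Top u (S t.1 t.2) →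
      0 < f t.1 u + ε * g t.1 u := by
    rintro ⟨c, p⟩
    by_cases hcond : ℓ < (p : ℕ) ∧ (p : ℕ) < b
    · obtain ⟨c1, c2⟩ := hcond
      obtain ⟨e, he, h⟩ := eps_one hG ℓ (p + 1) (S c p) (S c p) (hfc c) (hgc c) (fun x u hx hpm hP _ => by
        have hcp := hSc c p (by omega)
        have hcb := hSc c b (by omega)
        have hU : U u (n - b + p) < U u p := by
          by_contra hcon
          exact hIII ⟨x, u, p, hx, c1, c2, hpm, not_lt.1 hcon⟩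
        have h5 := su_sup_ge (hG.sum2 _ hx) hP (hSm c p b c2.le (by omega))
        rw [hcp, hcb, add_comm (p : ℕ) (n - b)] at h5
        have h6 : 0 < su u (S c b) := by linarith
        exact ⟨h6.le, fun h0 => absurd h0 h6.ne'⟩)
      exact ⟨e, he, fun ε h1 h2 x u hx _ _ hpm hP => h ε h1 h2 x u hx hpm hP hP⟩
    · exact ⟨1, one_pos, fun ε _ _ x u _ h1 h2 _ _ => absurd ⟨h1, h2⟩ hcond⟩
  choose e1 p1 q1 using k1
  choose e2 p2 q2 using k2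
  choose e3 p3 q3 using k3
  obtain ⟨ε1, hε1, hle1⟩ := exists_le_all e1 p1
  obtain ⟨ε2, hε2, hle2⟩ := exists_le_all e2 p2
  obtain ⟨ε3, hε3, hle3⟩ := exists_le_all e3 p3
  set ε := min ε1 (min ε2 ε3) with hε
  have hε0 : 0 < ε := lt_min hε1 (lt_min hε2 hε3)
  have l1 : ε ≤ ε1 := min_le_left _ _
  have l2 : ε ≤ ε2 := (min_le_right _ _).trans (min_le_left _ _)
  have l3 : ε ≤ ε3 := (min_le_right _ _).trans (min_le_right _ _)
  refine ⟨Sum.elim (fun S => ind S.1) (fun c i => ind (S c b) i + ε * ∑ j ∈ Ico b r, ind (S c j) i),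
    fun q hq => ?_⟩
  obtain ⟨x, u⟩ := q
  by_cases hx : PM ℓ r x
  swap
  · obtain ⟨S, hSf, hS⟩ := out_block hG hx
    exact ⟨Sum.inl ⟨S, hSf⟩, hS⟩
  obtain ⟨p, hpI, hpD, hlp, hpr, hpm⟩ := least_level hG hq hx
  obtain ⟨q, hqI, hqD, hlq, hqr, hqm⟩ := largest_level hG hq hx
  obtain ⟨P, hPc, hP⟩ := exists_stop hpI hpD
  obtain ⟨Q, hQc, hQ⟩ := exists_stop hqI hqD
  rcases Nat.lt_or_ge b p with hbp | hpb
  · obtain ⟨c, hcP⟩ := hcov P
    rw [hPc] at hcP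
    refine ⟨Sum.inr c, fun w hw => ?_⟩
    rw [Sum.elim_inr, sum_chain]
    exact q2 (c, ⟨p, by omega⟩) ε hε0 (l2.trans (hle2 _)) x w hw hbp hpr hpm (by
      show Top w (S c p)
      rw [hcP]
      exact top_of_stop hG hw hP)
  · rcases Nat.lt_or_ge q b with hqb | hbq
    · obtain ⟨c, hcQ⟩ := hcov Q
      rw [hQc] at hcQ
      refine ⟨Sum.inr c, fun w hw => ?_⟩
      rw [Sum.elim_inr, sum_chain]
      exact q3 (c, ⟨q, by omega⟩) ε hε0 (l3.trans (hle3 _)) x w hw hlq hqb hqm (by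
        show Top w (S c q)
        rw [hcQ]
        exact top_of_stop hG hw hQ)
    · obtain ⟨B, hPB, hBQ, hBc⟩ := exists_subsuperset_card_eq (stop_nested hP hQ (by omega))
        (show P.card ≤ b by omega) (show b ≤ Q.card by omega)
      obtain ⟨c, hcB⟩ := hcov B
      rw [hBc] at hcB
      refine ⟨Sum.inr c, fun w hw => ?_⟩
      rw [Sum.elim_inr, sum_chain]
      exact q1 (c, (P, Q)) ε hε0 (l1.trans (hle1 _)) x w hw (top_of_stop hG hw hP) (top_of_stop hG hw hQ)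
        (by show P ⊆ S c b; rw [hcB]; exact hPB) (by show S c b ⊆ Q; rw [hcB]; exact hBQ) (by show ℓ < P.card; omega)
        (by show Q.card < r; omega) hx

end Pool.Agent.Lib.MP_5e7226_co.SX
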