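import Pool.Agent.Lib.MP_5e7226_co.SX.Sm0

set_option autoImplicit false

/-! Small dimensions, row SmM: the mirror (SXsmall (F5)). -/

namespace Pool.Agent.Lib.MP_5e7226_co.SX

open Finset

variable {n : ℕ}

/-- The mirror of `G`. -/
def ng (G : Set ((Fin n → ℝ) × (Fin n → ℝ))) : Set ((Fin n → ℝ) × (Fin n → ℝ)) := {q | (-q.1, -q.2) ∈ G}

/-- SmM1. -/
theorem dual_ng {G : Set ((Fin n → ℝ) × (Fin n → ℝ))} (hG : Dual G) : Dual (ng G) := by
  refine ⟨?_, fun p hp => ?_, fun p hp => ?_, fun p hp => ?_, fun p hp q hq σ => ?_⟩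
  · have h1 : ng G = (Homeomorph.neg ((Fin n → ℝ) × (Fin n → ℝ))) ⁻¹' G := rfl
    rw [h1]
    exact (Homeomorph.isCompact_preimage _).2 hG.compact
  · have h1 := hG.sum1 _ hp
    simpa using h1
  · have h1 := hG.sum2 _ hp
    simpa using h1
  · have h1 := hG.one _ hp
    simpa using h1
  · have h1 := hG.le _ hp _ hq σ
    simpa using h1

/-- SmM2. PROOF. `z ↦ -z`. -/
theorem served_ng {G : Set ((Fin n → ℝ) × (Fin n → ℝ))} {N : ℕ} (h : Served (ng G) N) : Served G N := by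
  obtain ⟨ι, i1, h1, z, hz⟩ := h
  refine ⟨ι, i1, h1, fun i => -z i, fun q hq => ?_⟩
  obtain ⟨i, hi⟩ := hz (-q.1, -q.2) (by
    show (-(-q.1), -(-q.2)) ∈ G
    rw [neg_neg, neg_neg]
    exact hq)
  refine ⟨i, fun u hu => ?_⟩
  have h2 := hi (-u) (by
    show (-(-q.1), -(-u)) ∈ G
    rw [neg_neg, neg_neg]
    exact hu)
  simpa using h2

/-- SmM3. PROOF. Top sets: `exists_top u` of size `n - c`, its complement is a top set of `-u` of size `c` (`su_top`). -/
theorem U_neg {u : Fin n → ℝ} (hu : ∑ i, u i = 0) {c : ℕ} (hc : c ≤ n) : U (-u) c = U u (n - c) := by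
  classical
  obtain ⟨S, hS, hT, hs⟩ := exists_top u (Nat.sub_le n c)
  have hcard : Sᶜ.card = c := by
    rw [card_compl, Fintype.card_fin, hS]
    omega
  have hT' : Top (-u) Sᶜ := by
    intro i hi j hj
    have h1 : j ∈ S := by
      by_contra hcon
      exact hj (mem_compl.2 hcon)
    have h2 := hT j h1 i (mem_compl.1 hi)
    show -u j ≤ -u i
    linarith
  have h3 := su_top hT'
  rw [hcard] at h3
  rw [← h3, ← hs]
  have h4 : su u S + su u Sᶜ = 0 := by
    rw [← hu]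
    exact sum_add_sum_compl S u
  have h5 : su (-u) Sᶜ = -su u Sᶜ := by
    unfold su
    rw [← sum_neg_distrib]
    rfl
  rw [h5]
  linarith

/-- SmM4. PROOF. `D_pos_iff` for both sides: strict top sets of `-x` are the complements of the strict top sets of `x`. -/
theorem D_pos_neg {x : Fin n → ℝ} {c : ℕ} (h1 : 1 ≤ c) (h2 : c < n) : 0 < D (-x) c ↔ 0 < D x (n - c) := by
  classical
  rw [D_pos_iff h1 h2, D_pos_iff (by omega) (by omega)]
  have key : ∀ (y : Fin n → ℝ) (S : Finset (Fin n)), STop y S → STop (-y) Sᶜ := by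
    intro y S hS i hi j hj
    have h3 : j ∈ S := by
      by_contra hcon
      exact hj (mem_compl.2 hcon)
    have h4 := hS j h3 i (mem_compl.1 hi)
    show -y j < -y i
    linarith
  constructor
  · rintro ⟨S, hS, hT⟩
    refine ⟨Sᶜ, by rw [card_compl, Fintype.card_fin, hS], ?_⟩
    have h3 := key _ _ hT
    rwa [neg_neg] at h3
  · rintro ⟨S, hS, hT⟩
    refine ⟨Sᶜ, by rw [card_compl, Fintype.card_fin, hS]; omega, key _ _ hT⟩

/-- SmM5. PROOF. SmM4, `c ↦ n - c`. -/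
theorem PM_neg {ℓ r : ℕ} {x : Fin n → ℝ} (hr : r ≤ n) (h : PM ℓ r (-x)) : PM (n - r) (n - ℓ) x := by
  intro c hc hD
  have hc' := mem_Ico.1 hc
  have h1 : 0 < D (-x) (n - c) := by
    rw [D_pos_neg (by omega) (by omega), show n - (n - c) = c by omega]
    exact hD
  have h2 := h (n - c) (mem_Ico.2 ⟨by omega, by omega⟩) h1
  omega

/-- SmM6. -/
theorem mem_ng {G : Set ((Fin n → ℝ) × (Fin n → ℝ))} {x u : Fin n → ℝ} : (x, u) ∈ ng G ↔ (-x, -u) ∈ G := Iff.rfl

end Pool.Agent.Lib.MP_5e7226_co.SX
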