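import Pool.Agent.Lib.MP_5e7226_co.SX.Sm0

set_option autoImplicit false

/-! Small dimensions, row SmX: Lemma X (one-sided), existence of a breakpoint. -/

namespace Pool.Agent.Lib.MP_5e7226_co.SX

open Finset

variable {n : ℕ}

/-- Lemma X. -/
theorem cross {G : Set ((Fin n → ℝ) × (Fin n → ℝ))} (hG : Dual G) {ℓ r b : ℕ} (hrn : r ≤ n) (hb : 1 ≤ b)
    {x u x' u' : Fin n → ℝ} {p p' : ℕ} (h : (x, u) ∈ G) (hp : b ≤ p) (hpr : p < r) (hx : PM (p - 1) r x)
    (hU : U u p < U u (p - (b - 1))) (h' : (x', u') ∈ G) (hp' : ℓ < p') (hp'b : p' < b) (hx' : PM ℓ (p' + 1) x')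
    (hU' : U u' p' ≤ U u' (n - b + p')) : ¬ (PM (p - b) (p' + 1) x' ∧ PM (p - 1) (n - b + p' + 1) x) := by
  rintro ⟨h1, h2⟩
  have hb2 : 2 ≤ b := by omega
  have a1 := one_le hG h (a := U u p) (fun c hc hD => by
    have h3 := hx c hc hD
    rw [mem_Ico] at hc
    exact U_le_after (s := p - (b - 1)) (by omega) (by omega) (by omega) hU.le)
  have a2 := lt_one' hG h h' (a := U u p) (fun c hc hD => by
    have h3 := h1 c hc hD
    exact U_gt_before (s := p - (b - 1)) (by omega) (by omega) (by omega) hU)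
  have a3 := one_le hG h' (a := U u' p') (fun c hc hD => by
    have h3 := hx' c hc hD
    exact U_le_before (t := n - b + p') (by omega) (by omega) (by omega) hU')
  have a4 := le_one' hG h' h (a := U u' p') (fun c hc hD => by
    have h3 := h2 c hc hD
    have h4 := U_mid (u := u') (s := p') (c := c) (t := n - b + p') (by omega) (by omega) (by omega)
    rwa [min_eq_left hU'] at h4)
  have t1 := T_pos hG h
  have t2 := T_pos hG h'
  have b1 : 0 < U u p := by
    by_contra hcon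
    rw [not_lt] at hcon
    nlinarith
  have b2 : 0 < U u' p' := by
    by_contra hcon
    rw [not_lt] at hcon
    nlinarith
  have c1 : T x' < T x := by
    have : U u p * T x' < U u p * T x := lt_of_lt_of_le a2 a1
    exact lt_of_mul_lt_mul_left this b1.le
  have c2 : T x ≤ T x' := by
    have : U u' p' * T x ≤ U u' p' * T x' := a4.trans a3
    exact le_of_mul_le_mul_left this b2
  linarith

theorem exists_break (G : Set ((Fin n → ℝ) × (Fin n → ℝ))) {ℓ r : ℕ} (h : ℓ + 1 < r) :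
    ∃ b, ℓ < b ∧ b < r ∧ ¬ II G r b ∧ (b = ℓ + 1 ∨ II G r (b - 1)) := by
  classical
  have hex : ∃ b, ℓ < b ∧ b < r ∧ ¬ II G r b := by
    refine ⟨r - 1, by omega, by omega, ?_⟩
    rintro ⟨x, u, p, -, h1, h2, -, -⟩
    omega
  obtain ⟨h1, h2, h3⟩ := Nat.find_spec hex
  refine ⟨Nat.find hex, h1, h2, h3, ?_⟩
  by_cases h4 : Nat.find hex = ℓ + 1
  · exact Or.inl h4
  · refine Or.inr ?_
    by_contra h5
    exact Nat.find_min hex (m := Nat.find hex - 1) (by omega) ⟨by omega, by omega, h5⟩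

theorem III_first (G : Set ((Fin n → ℝ) × (Fin n → ℝ))) (ℓ : ℕ) : ¬ III G ℓ (ℓ + 1) := by
  rintro ⟨x, u, p, -, h1, h2, -, -⟩
  omega

end Pool.Agent.Lib.MP_5e7226_co.SX
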