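import Pool.Agent.Lib.MP_5e7226_co.SX.Sm2
import Pool.Agent.Lib.MP_5e7226_co.SX.SmX
import Pool.Agent.Lib.MP_5e7226_co.SX.SmM

set_option autoImplicit false

/-! Small dimensions, row SmN: the common step, `n = 9`, `n = 8`. -/

namespace Pool.Agent.Lib.MP_5e7226_co.SX

open Finset

/-- The common step: a block `(ℓ, r)` serves unless the alternative of Lemma X occurs. -/
theorem block_or {n : ℕ} {G : Set ((Fin n → ℝ) × (Fin n → ℝ))} (hG : Dual G) {ℓ r : ℕ} (h : ℓ + 1 < r) (hrn : r ≤ n)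
    (hc : ∀ b p q, ℓ < p → p < b → b < q → q < r → b * (p + q - b) < p * n) :
    Served G ((∑ s ∈ Ico 1 (ℓ + 1), n.choose s) + (∑ s ∈ Ico r n, n.choose s) + n.choose (n / 2)) ∨
      ∃ (b p p' : ℕ) (x u x' u' : Fin n → ℝ), ℓ + 1 < b ∧ b < r ∧ (x, u) ∈ G ∧ b ≤ p ∧ p < r ∧ PM (p - 1) r x ∧
        U u p < U u (p - (b - 1)) ∧ (x', u') ∈ G ∧ ℓ < p' ∧ p' < b ∧ PM ℓ (p' + 1) x' ∧ U u' p' ≤ U u' (n - b + p') ∧
        ¬ (PM (p - b) (p' + 1) x' ∧ PM (p - 1) (n - b + p' + 1) x) := by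
  obtain ⟨b, h1, h2, h3, h4⟩ := exists_break G h
  by_cases h5 : III G ℓ b
  · right
    rcases h4 with h4 | h4
    · rw [h4] at h5
      exact absurd h5 (III_first G ℓ)
    · obtain ⟨x, u, p, hxu, hp1, hp2, hpm, hU⟩ := h4
      obtain ⟨x', u', p', hxu', hp1', hp2', hpm', hU'⟩ := h5
      exact ⟨b, p, p', x, u, x', u', by omega, h2, hxu, by omega, hp2, hpm, hU, hxu', hp1', hp2', hpm', hU',
        cross hG hrn (by omega) hxu (by omega) hp2 hpm hU hxu' hp1' hp2' hpm' hU'⟩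
  · left
    exact block hG h1 h2 hrn (hc b) h3 h5

/-- `n = 9`. -/
theorem nine {G : Set ((Fin 9 → ℝ) × (Fin 9 → ℝ))} (hG : Dual G) : Served G 216 := by
  rcases block_or hG (ℓ := 2) (r := 7) (by norm_num) (by norm_num) (by
    intro b p q h1 h2 h3 h4
    have : p ≤ 4 := by omega
    have : q ≤ 6 := by omega
    have : b ≤ 5 := by omega
    interval_cases p <;> interval_cases b <;> interval_cases q <;> omega) with h | h
  · exact h.mono (by decide)
  · exfalso
    obtain ⟨b, p, p', x, u, x', u', h1, h2, -, h3, h4, hx, -, -, h5, h6, hx', -, hn⟩ := h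
    exact hn ⟨hx'.mono (by omega) le_rfl, hx.mono le_rfl (by omega)⟩

/-- `n = 8`, block `3..6`. -/
theorem eight_a {G : Set ((Fin 8 → ℝ) × (Fin 8 → ℝ))} (hG : Dual G) : Served G 114 ∨
    ∃ x u, (x, u) ∈ G ∧ PM 5 7 x ∧ U u 6 < U u 1 := by
  rcases block_or hG (ℓ := 2) (r := 7) (by norm_num) (by norm_num) (by
    intro b p q h1 h2 h3 h4
    have : p ≤ 4 := by omega
    have : q ≤ 6 := by omega
    have : b ≤ 5 := by omega
    interval_cases p <;> interval_cases b <;> interval_cases q <;> omega) with h | h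
  · exact Or.inl (h.mono (by decide))
  · right
    obtain ⟨b, p, p', x, u, x', u', h1, h2, hxu, h3, h4, hx, hU, -, h5, h6, hx', -, hn⟩ := h
    by_cases hb : b = 6
    · subst hb
      have hp : p = 6 := by omega
      subst hp
      exact ⟨x, u, hxu, hx, hU⟩
    · exact absurd ⟨hx'.mono (by omega) le_rfl, hx.mono le_rfl (by omega)⟩ hn

/-- `n = 8`. -/
theorem eight {G : Set ((Fin 8 → ℝ) × (Fin 8 → ℝ))} (hG : Dual G) : Served G 114 := by
  rcases eight_a hG with h | ⟨x, u, hx, hxp, hU⟩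
  · exact h
  rcases eight_a (dual_ng hG) with h | ⟨y, w, hy, hyp, hW⟩
  · exact served_ng h
  exfalso
  rw [mem_ng] at hy
  have hw0 : ∑ i, (-w) i = 0 := hG.sum2 _ hy
  have hyp' : PM 1 3 (-y) := by
    have := PM_neg (ℓ := 5) (r := 7) (x := -y) (by norm_num) (by rw [neg_neg]; exact hyp)
    exact this
  have e6 : U w 6 = U (-w) 2 := by
    have := U_neg hw0 (c := 6) (by norm_num)
    rw [neg_neg] at this
    exact this
  have e1 : U w 1 = U (-w) 7 := by
    have := U_neg hw0 (c := 1) (by norm_num)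
    rw [neg_neg] at this
    exact this
  rw [e6, e1] at hW
  have h1 : U (-w) 6 ≤ U u 6 := pure_max hG hx (p := 6) hxp hy
  have h2 : U u 2 ≤ U (-w) 2 := pure_max hG hy (p := 2) hyp' hx
  have h3 : U (-w) 2 < U (-w) 6 := U_gt_after (t := 7) (by norm_num) (by norm_num) (by norm_num) hW
  have h4 : U u 6 < U u 2 := U_gt_before (s := 1) (by norm_num) (by norm_num) (by norm_num) hU
  linarith

end Pool.Agent.Lib.MP_5e7226_co.SX
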