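import Pool.Agent.Lib.MP_5e7226_co.SX.SmN

set_option autoImplicit false

/-! Small dimensions, row SmN5: `n = 5`. -/

namespace Pool.Agent.Lib.MP_5e7226_co.SX

open Finset

/-- SmN5a. Block `1..3`. PROOF. `block_or` with `ℓ = 0`, `r = 4` (as `eight_a`). The alternative: `b = 2`: `p ∈ {2, 3}`, `p' = 1`: `PM (p-2) ..` fails only for `p = 3`: pure 3, `U 3 < U (3 - 1) = U 2`; `b = 3`: never. -/
theorem five_a {G : Set ((Fin 5 → ℝ) × (Fin 5 → ℝ))} (hG : Dual G) : Served G 15 ∨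
    ∃ x u, (x, u) ∈ G ∧ PM 2 4 x ∧ U u 3 < U u 2 := by
  rcases block_or hG (ℓ := 0) (r := 4) (by norm_num) (by norm_num) (by
    intro b p q h1 h2 h3 h4
    have : p ≤ 1 := by omega
    have : q ≤ 3 := by omega
    have : b ≤ 2 := by omega
    interval_cases p <;> interval_cases b <;> interval_cases q <;> omega) with h | h
  · exact Or.inl (h.mono (by decide))
  · right
    obtain ⟨b, p, p', x, u, x', u', h1, h2, hxu, h3, h4, hx, hU, -, h5, h6, hx', -, hn⟩ := h
    by_cases hb : b = 2 ∧ p = 3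
    · obtain ⟨rfl, rfl⟩ := hb
      exact ⟨x, u, hxu, hx, hU⟩
    · exact absurd ⟨hx'.mono (by omega) le_rfl, hx.mono le_rfl (by omega)⟩ hn

/-- SmN5. PROOF. As `eight`: mirror: pure 2 `(y, w)` with `W 2 < W 3`; `U 3 ≥ W 3 > W 2 ≥ U 2 > U 3`. -/
theorem five {G : Set ((Fin 5 → ℝ) × (Fin 5 → ℝ))} (hG : Dual G) : Served G 15 := by
  rcases five_a hG with h | ⟨x, u, hx, hxp, hU⟩
  · exact h
  rcases five_a (dual_ng hG) with h | ⟨y, w, hy, hyp, hW⟩
  · exact served_ng h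
  exfalso
  rw [mem_ng] at hy
  have hw0 : ∑ i, (-w) i = 0 := hG.sum2 _ hy
  have hyp' : PM 1 3 (-y) := by
    have := PM_neg (ℓ := 2) (r := 4) (x := -y) (by norm_num) (by rw [neg_neg]; exact hyp)
    exact this
  have e3 : U w 3 = U (-w) 2 := by
    have := U_neg hw0 (c := 3) (by norm_num)
    rw [neg_neg] at this
    exact this
  have e2 : U w 2 = U (-w) 3 := by
    have := U_neg hw0 (c := 2) (by norm_num)
    rw [neg_neg] at this
    exact this
  rw [e3, e2] at hW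
  have h1 : U (-w) 3 ≤ U u 3 := pure_max hG hx (p := 3) hxp hy
  have h2 : U u 2 ≤ U (-w) 2 := pure_max hG hy (p := 2) hyp' hx
  linarith

end Pool.Agent.Lib.MP_5e7226_co.SX
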